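import Pool.Agent.Lib.MP_d98eb9_al.P.FixIn

/-! Finite cuts of an invariant region are almost constant on the deep components. -/

namespace Pool.Agent.Lib.MP_d98eb9_al.W.J

open Gen FixIn

variable {G : Type} [Group G] {Γ : Gen G} {D : Subgroup G} {U P Q : Set G} {R t : ℕ}

namespace FgP

variable (Γ D U) in
/-- Every finite cut of `U` is almost constant on the components of level `R` that meet `Q`. -/
def Gd (R : ℕ) (Q : Set G) : Prop :=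
  ∀ p ∈ Q, ∀ L, (Cx Γ U L).Finite → ({q | Γ.Conn (Γ.N R D) p q} ∩ L).Finite ∨
    ({q | Γ.Conn (Γ.N R D) p q} \ L).Finite

theorem Gd.mono (h : Gd Γ D U R Q) (hR : R ≤ t) : Gd Γ D U t Q := fun p hp L hL =>
  (h p hp L hL).imp
    (fun k => k.subset fun _ e => ⟨Conn.mono e.1 (N_mono hR subset_rfl), e.2⟩)
    fun k => k.subset fun _ e => ⟨Conn.mono e.1 (N_mono hR subset_rfl), e.2⟩

theorem Gd.tr (hD : ∀ c ∈ D, ∀ p ∈ U, c * p ∈ U) (h : Gd Γ D U R Q) {c : G} (hc : c ∈ D) :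
    Gd Γ D U R (tr c Q) := fun p hp L hL => by
  have k : ∀ q, Γ.Conn (Γ.N R D) p q → Γ.Conn (Γ.N R D) (c⁻¹ * p) (c⁻¹ * q) := fun q e => by
    have := e.mul c⁻¹
    rwa [tr_N, tr_subgroup (D.inv_mem hc)] at this
  have h1 := h _ hp (W.tr c⁻¹ L) ((tr_finite c⁻¹ hL).subset (by
    rintro x ⟨hx, y, hy, hd, e⟩
    exact ⟨by simpa using hD c hc x hx, c * y, hD c hc y hy, by simpa using hd,
      by simpa using e⟩))
  rcases h1 with e | e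
  · exact Or.inl ((tr_finite c e).subset fun q hq => mem_tr.2 ⟨k q hq.1, by simpa using hq.2⟩)
  · exact Or.inr ((tr_finite c e).subset fun q hq => mem_tr.2 ⟨k q hq.1, by simpa using hq.2⟩)

theorem unif (hD : ∀ c ∈ D, ∀ p ∈ U, c * p ∈ U)
    (h : ∀ Q, Γ.Comp (Γ.N t D) Q → Q ⊆ P → ∃ R, Gd Γ D U R Q)
    (hP : ∀ p ∈ P, ∀ q, Γ.Conn (Γ.N t D) p q → q ∈ P) : ∃ R, Gd Γ D U R P := by
  obtain ⟨Φ, hΦ, -, h2⟩ := comp_finite (Γ := Γ) t D
  have h3 : ∀ W : Set G, ∃ R, ∀ c ∈ D, Γ.Comp (Γ.N t D) (tr c W) → tr c W ⊆ P →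
      Gd Γ D U R (tr c W) := fun W => by
    by_cases k : ∃ c ∈ D, Γ.Comp (Γ.N t D) (tr c W) ∧ tr c W ⊆ P
    · obtain ⟨c, hc, k1, k2⟩ := k
      obtain ⟨R, hR⟩ := h _ k1 k2
      refine ⟨R, fun e he _ _ => ?_⟩
      have := hR.tr hD (D.mul_mem he (D.inv_mem hc))
      rwa [tr_tr, inv_mul_cancel_right] at this
    · exact ⟨0, fun c hc k1 k2 => absurd ⟨c, hc, k1, k2⟩ k⟩
  choose r hr using h3
  obtain ⟨R, hR⟩ := (hΦ.image r).bddAbove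
  refine ⟨R + t, fun p hp L hL => ?_⟩
  by_cases e : p ∈ Γ.N t D
  · refine Or.inl ((Set.finite_singleton p).subset fun q hq => ?_)
    exact Conn.ind (P := fun q => q = p) hq.1 rfl fun a _ ha _ _ k =>
      absurd (N_mono (by omega) subset_rfl (k ▸ e)) ha
  have hQ : Γ.Comp (Γ.N t D) {q | Γ.Conn (Γ.N t D) p q} := ⟨p, e, rfl⟩
  obtain ⟨c, hc, W, hW, e1⟩ := h2 _ hQ
  exact ((hr W c hc (e1 ▸ hQ) (e1 ▸ hP p hp)).mono
    ((hR ⟨W, hW, rfl⟩).trans (Nat.le_add_right R t))) p (e1 ▸ Conn.refl _ p) L hL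

end FgP

open FgP

theorem fgc_set (h1 : OE (⊤ : Subgroup G)) (tf : ∀ g : G, IsOfFinOrder g → g = 1)
    (hL : (D : Set G).Infinite) (hfg : D.FG) (hc : ∀ p ∈ U, ∀ q ∈ U, Γ.Conn Uᶜ p q)
    (hD : ∀ c ∈ D, ∀ p ∈ U, c * p ∈ U) (hU : ∀ p ∈ U, ∀ q, Γ.Conn D p q → q ∈ U) :
    ∃ R, Gd Γ D U R U := by
  obtain ⟨d, hd'⟩ := Iota.bdd D ((Group.fg_iff_subgroup_fg _).mpr hfg)
  have key : ∀ m, ∀ (A : Subgroup G) (t : ℕ) (P : Set G), A.FG → A ≤ D →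
      Γ.Comp (Γ.N t D) P → P ⊆ U → blk D P ≤ A → (∀ k, Iota A k → k < m) →
      ∃ R, Gd Γ D U R P := by
    intro m
    induction m with
    | zero => exact fun A _ _ _ _ _ _ _ hk => absurd (hk 0 (Iota.zero A)) (by omega)
    | succ m ih =>
      intro A t P a1 a2 a4 a5 a7 hk
      by_cases h : ∀ L, (Cx Γ U L).Finite → (P ∩ L).Finite ∨ (P \ L).Finite
      · exact ⟨t, fun p hp L hL => a4.eq hp ▸ h L hL⟩
      obtain ⟨L, h⟩ := not_forall.mp h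
      obtain ⟨hL', h⟩ := Classical.not_imp.mp h
      obtain ⟨i1, i2⟩ := not_or.mp h
      have hA : ∀ c ∈ A, ∀ p ∈ U, c * p ∈ U := fun c hc => hD c (a2 hc)
      obtain ⟨p, hp⟩ := a4.ne
      obtain ⟨D', hD', hs⟩ := step tf a1 hc hA hL' (a5 hp)
        (side_inf h1 hL hc hA a4 a5 a7 hL' i1 (a5 hp))
        (side_inf (D := Lᶜ) h1 hL hc hA a4 a5 a7 (by rwa [Cx_compl]) i2 (a5 hp))
      obtain ⟨r, hr⟩ := bdd_of_finite (Γ := Γ) hD' 1
      refine unif (t := t + r) hD (fun Q b1 b2 => ?_) fun p hp q e =>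
        (a4.eq hp).ge (Conn.mono e (N_mono (by omega) subset_rfl))
      obtain ⟨x, hx⟩ := b1.ne
      obtain ⟨A', c1, c2, c3, c4⟩ := hs x (a5 (b2 hx))
      refine ih A' (t + r) Q c2 (c1.trans a2) b1 (b2.trans a5) (fun a ha => ?_)
        fun k hk' => by
          have := hk _ (c4 k hk')
          omega
      refine c3 a (a7 (blk_mono a4 ⟨x, hx⟩ b2 ha)) fun e he => ?_
      refine (b1.conn hx (blk_mul ha hx)).ind (P := fun y => (e * y ∈ D' ↔ e * x ∈ D')) Iff.rfl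
        fun y z hy hz hd k => Iff.trans (by_contra fun k' => ?_) k
      have hy' : y ∈ Q := not_not.mp hy
      have hz' : z ∈ Q := not_not.mp hz
      have k1 := hr (e * y) ⟨hA e he y (a5 (b2 hy')), e * z, hA e he z (a5 (b2 hz')),
        by rwa [d_mul], fun k2 => k' k2.symm⟩
      exact b1.out hy' ((mul_mem_N (a2 he)).mp ⟨1, D.one_mem, by omega⟩)
  exact unif (t := 0) hD (fun Q b1 b2 => key (d + 1) D 0 Q hfg le_rfl b1 b2 (blk_le _ _)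
    fun k hk => Nat.lt_succ_of_le (hd' k hk)) fun p hp q e => hU p hp q (e.mono (subset_N _ _))

/-- Functions with finitely many jumps in `U` are almost constant on the components of level `R`. -/
theorem fgc (h1 : OE (⊤ : Subgroup G)) (tf : ∀ g : G, IsOfFinOrder g → g = 1)
    (hL : (D : Set G).Infinite) (hfg : D.FG) (hc : ∀ p ∈ U, ∀ q ∈ U, Γ.Conn Uᶜ p q)
    (hD : ∀ c ∈ D, ∀ p ∈ U, c * p ∈ U) (hU : ∀ p ∈ U, ∀ q, Γ.Conn D p q → q ∈ U) :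
    ∃ R, ∀ x ∈ U, ∀ (B : Type) (u : G → B),
      {p | p ∈ U ∧ ∃ q ∈ U, Γ.d p q ≤ 1 ∧ u p ≠ u q}.Finite →
        ∃ a, {p | Γ.Conn (Γ.N R D) x p ∧ u p ≠ a}.Finite := by
  obtain ⟨R, h⟩ := fgc_set h1 tf hL hfg hc hD hU
  refine ⟨R, fun x hx B u hu => ?_⟩
  have hv : ∀ p ∈ U, u p ∈ insert (u x) (u '' {p | p ∈ U ∧ ∃ q ∈ U, Γ.d p q ≤ 1 ∧ u p ≠ u q}) :=
    fun p hp => (hc x hx p hp).ind
      (P := fun y => u y ∈ insert (u x) (u '' {p | p ∈ U ∧ ∃ q ∈ U, Γ.d p q ≤ 1 ∧ u p ≠ u q}))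
      (Or.inl rfl) fun a b ha hb hd k => by
        by_cases e : u b = u a
        · rwa [e]
        · exact Or.inr ⟨b, ⟨not_not.mp hb, a, not_not.mp ha, by rwa [d_comm], e⟩, rfl⟩
  by_contra hn
  have h2 : ∀ a ∈ insert (u x) (u '' {p | p ∈ U ∧ ∃ q ∈ U, Γ.d p q ≤ 1 ∧ u p ≠ u q}),
      ({q | Γ.Conn (Γ.N R D) x q} ∩ {p | u p = a}).Finite := fun a _ =>
    (h x hx {p | u p = a} (hu.subset fun p ⟨hp, q, hq, hd, e⟩ => ⟨hp, q, hq, hd, fun e' => e (by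
      simp only [Set.mem_ofPred_eq, e'])⟩)).resolve_right fun k => hn ⟨a, k⟩
  exact hn ⟨u x, (((hu.image u).insert _).biUnion h2).subset fun p hp =>
    Set.mem_biUnion (hv p (hU x hx p (hp.1.mono (subset_N _ _)))) ⟨hp.1, rfl⟩⟩

end Pool.Agent.Lib.MP_d98eb9_al.W.J
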