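import Pool.Agent.Lib.MP_d98eb9_al.J.Oea

/-! Folding to the malnormal closure of a finitely generated edge group. -/

namespace Pool.Agent.Lib.MP_d98eb9_al.W.J

open Gen FG Finsupp

variable {G : Type} [Group G] {Γ : Gen G} {C H M : Subgroup G} {X Y : Set G}

namespace FoP

theorem sys_fun {u : G → ℤ} (h : Sys C X) (hJ : ∀ p q, Γ.d p q ≤ 1 → p ∈ X → q ∉ opp C X)
    (hM : M ≤ C) (h0 : u 1 = 0) (hu : ∀ p q, Γ.d p q ≤ 1 → u q = u p + ph M X p q)
    (R : ∀ c ∈ M, ∀ p, u (p * c) = u p) : Sys M {p | u p ≠ 0} := by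
  have B : ∀ c ∈ M, u c = 0 := fun c hc => by rw [← one_mul c, R c hc, h0]
  have E : ∀ a b, a ∉ M → b ∉ M → Γ.d a b ≤ 1 → u b = u a := fun a b ha hb hd => by
    rw [hu a b hd, ph_zero ha hb, add_zero]
  have L : ∀ c ∈ M, ∀ p, u (c * p) = u p := fun c hc p =>
    (conn_empty (Γ := Γ) 1 p).ind (P := fun p => u (c * p) = u p) (by rw [mul_one, B c hc, h0])
      fun a b _ _ hd e => by
        rw [hu a b hd, hu (c * a) (c * b) (by rwa [d_mul]), e, ph, ph,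
          ind_congr (A := M) (B := M) (p := c * a) (q := a)
            (M.mul_mem_cancel_left hc),
          ind_congr (A := M) (B := M) (p := c * b) (q := b)
            (M.mul_mem_cancel_left hc),
          ind_congr (h.left_iff (hM hc)), ind_congr (h.left_iff (hM hc))]
  have F : ∀ {U : Set G}, 1 ∈ U → Uᶜ.Nonempty → ∃ b ∈ U, ∃ q ∉ U, Γ.d b q ≤ 1 := fun h1 ⟨x, hx⟩ => by
    obtain ⟨b, ⟨q, hd, e⟩, hb, -⟩ := exists_fr (Γ := Γ) h1 hx
    exact ⟨b, hb, q, fun k => e (iff_of_true hb k), hd⟩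
  have h1 : (1 : G) ∉ X := fun e => h.disj 1 e C.one_mem
  have T : ∀ t, Γ.d 1 t ≤ 1 → u t = ind X t := fun t ht => by
    rw [hu 1 t ht, h0, ph, ind_pos (SetLike.mem_coe.2 M.one_mem), ind_neg h1]
    ring
  refine ⟨fun x hx e => hx (B x e), fun c hc x hx e => hx ((L c hc x).symm.trans e),
    fun c hc x hx e => hx ((R c hc x).symm.trans e), fun x y hx hy hxy => ?_, fun y => ?_, ?_, ?_⟩
  · have h2 : ∀ a, u a = u y → x⁻¹ * a ∉ M := fun a e k => hxy (by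
      have := R _ k x
      rw [mul_inv_cancel_left, e] at this
      simp only [Set.mem_ofPred_eq, this])
    have h3 := (conn_empty (Γ := Γ) y 1).ind (P := fun p => (p ∉ M ∧ u p = u y ∧
      u (x⁻¹ * p) = u (x⁻¹ * y)) ∨ u x⁻¹ = u (x⁻¹ * y)) (Or.inl ⟨hy, rfl, rfl⟩)
      fun a b _ _ hd e => e.elim (fun ⟨k1, k2, k3⟩ => by
        have hd' : Γ.d (x⁻¹ * a) (x⁻¹ * b) ≤ 1 := by rwa [d_mul]
        by_cases hb : b ∈ M
        · refine Or.inr ((R b hb _).symm.trans ((E _ _ (h2 a k2) (fun k => hx ?_) hd').trans k3))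
          exact M.inv_mem_iff.1 ((M.mul_mem_cancel_right hb).1 k)
        · have k4 := (E a b k1 hb hd).trans k2
          exact Or.inl ⟨hb, k4, (E _ _ (h2 a k2) (h2 b k4) hd').trans k3⟩) Or.inr
    have h4 := h3.resolve_left fun e => e.1 M.one_mem
    simp only [Set.mem_ofPred_eq, h4]
  · obtain ⟨S, hS, h2⟩ := (conn_empty (Γ := Γ) 1 y).exists_finite
    refine (hS.image QuotientGroup.mk).subset ?_
    rintro _ ⟨x, rfl, -, -, h3⟩
    by_contra h4
    have h5 : ∀ a, a ∉ ∅ ∪ Sᶜ → x⁻¹ * a ∉ M := fun a ha k =>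
      h4 ⟨a, by simpa using ha, (QuotientGroup.eq.2 k).symm⟩
    have h6 := h2.ind (P := fun p => u (x⁻¹ * p) = u x⁻¹) (by rw [mul_one])
      fun a b ha hb hd e => (E _ _ (h5 a ha) (h5 b hb) (by rwa [d_mul])).trans e
    exact h3 (by simp only [Set.mem_ofPred_eq, h6])
  · obtain ⟨b, hb, q, hq, hd⟩ := F (U := Xᶜ) h1 (by simpa using h.ne)
    have h2 : b ∈ C := by_contra fun e => hJ q b (by rwa [d_comm]) (not_not.1 hq) ⟨e, hb⟩
    refine ⟨b⁻¹ * q, fun e => ?_⟩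
    rw [T _ (by rwa [d_eq] at hd), ind_pos (h.left _ (C.inv_mem h2) q (not_not.1 hq))] at e
    exact one_ne_zero e
  · obtain ⟨b, hb, q, hq, hd⟩ := F (U := (opp C X)ᶜ) (fun e => e.1 C.one_mem)
      (by simpa using h.ne')
    have h2 : q ∈ opp C X := not_not.1 hq
    have h3 : b ∈ C := by_contra fun e => hb ⟨e, fun k => hJ b q hd k h2⟩
    refine ⟨b⁻¹ * q, fun e => h2.1 ((C.mul_mem_cancel_left (C.inv_mem h3)).1 (hM e)),
      fun e => e ?_⟩
    rw [T _ (by rwa [d_eq] at hd), ind_neg fun k => h2.2 ((h.left_iff (C.inv_mem h3)).1 k)]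


/-- Cocycles that count the edges crossed by a path. -/
structure Zc (Γ : Gen G) (H : Subgroup G) (X : Set G) (z : G → (G ⧸ H →₀ ℤ)) : Prop where
  coc : ∀ p q, z (p * q) = z p + mapDomain (fun w => p • w) (z q)
  gen : ∀ t, Γ.d 1 t ≤ 1 →
    z t = single ((1 : G) : G ⧸ H) (ind X t) - single (t : G ⧸ H) (ind X t⁻¹)

theorem smul_apply' (p : G) (f : G ⧸ H →₀ ℤ) (w : G ⧸ H) :
    mapDomain (fun w => p • w) f w = f (p⁻¹ • w) := by
  conv_lhs => rw [← smul_inv_smul p w]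
  exact mapDomain_apply (MulAction.injective p) f _

theorem Zc.app {z : G → (G ⧸ H →₀ ℤ)} (hz : Zc Γ H X z) (p q : G) (w : G ⧸ H) :
    z (p * q) w = z p w + z q (p⁻¹ • w) := by
  rw [hz.coc, Finsupp.add_apply, smul_apply']

theorem Zc.val {z : G → (G ⧸ H →₀ ℤ)} (hz : Zc Γ H X z) (p w : G) :
    z p (w : G ⧸ H) = z (w⁻¹ * p) ((1 : G) : G ⧸ H) - z w⁻¹ ((1 : G) : G ⧸ H) := by
  rw [hz.app, inv_inv, MulAction.Quotient.smul_mk, smul_eq_mul, mul_one, add_sub_cancel_left]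

theorem Zc.push {z : G → (G ⧸ H →₀ ℤ)} (hz : Zc Γ H X z) (hle : H ≤ M) :
    Zc Γ M X fun p => mapDomain (Subgroup.quotientMapOfLE hle) (z p) where
  coc p q := by
    rw [hz.coc, mapDomain_add, ← mapDomain_comp, ← mapDomain_comp]
    refine congrArg (fun f => _ + mapDomain f (z q)) (funext fun w => ?_)
    induction w using QuotientGroup.induction_on with
    | H w => rfl
  gen t ht := by
    rw [hz.gen t ht, mapDomain_sub, mapDomain_single, mapDomain_single]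
    rfl

theorem Zc.uniq {z z' : G → (G ⧸ H →₀ ℤ)} (hz : Zc Γ H X z) (hz' : Zc Γ H X z') (p : G) :
    z p = z' p :=
  (conn_empty (Γ := Γ) 1 p).ind (P := fun p => z p = z' p)
    ((hz.gen 1 (by simp)).trans (hz'.gen 1 (by simp)).symm) fun a b _ _ hd e => by
      rw [d_eq] at hd
      rw [← mul_inv_cancel_left a b, hz.coc, hz'.coc, e, hz.gen _ hd, hz'.gen _ hd]

theorem gen_apply (h : Sys C X) (hle : H ≤ C) (t w : G) :
    (single ((1 : G) : G ⧸ H) (ind X t) - single (t : G ⧸ H) (ind X t⁻¹) : G ⧸ H →₀ ℤ)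
      (w : G ⧸ H) = ph H X w⁻¹ (w⁻¹ * t) := by
  classical
  rw [Finsupp.sub_apply, single_apply, single_apply, ph]
  refine congrArg₂ (· - ·) ?_ ?_
  · by_cases e : w⁻¹ ∈ H
    · rw [if_pos (QuotientGroup.eq.2 (by simpa using e)), ind_pos e, one_mul]
      exact ind_congr (h.left_iff (hle e)).symm
    · rw [if_neg fun k => e (by simpa using QuotientGroup.eq.1 k), ind_neg e, zero_mul]
  · by_cases e : w⁻¹ * t ∈ H
    · rw [if_pos (QuotientGroup.eq.2 e).symm, ind_pos e, one_mul]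
      exact ind_congr (by rw [← h.left_iff (hle e), mul_inv_cancel_right])
    · rw [if_neg fun k => e (QuotientGroup.eq.1 k.symm), ind_neg e, zero_mul]

theorem supp (w p : G) (e : ind Y (w⁻¹ * p) - ind Y w⁻¹ ≠ 0) :
    (w : G ⧸ H) ∈ insert (p : G ⧸ H) (insert ((1 : G) : G ⧸ H) (Sp H Y p)) := by
  by_cases h6 : w⁻¹ * p ∈ H
  · exact Or.inl (QuotientGroup.eq.mpr h6)
  by_cases h7 : w ∈ H
  · exact Or.inr (Or.inl (QuotientGroup.eq.mpr (by simpa using h7)))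
  exact Or.inr (Or.inr ⟨w, rfl, h7, h6, fun k => e (sub_eq_zero.2 (ind_congr k.symm))⟩)

theorem of_sys (h : Sys C X) (hle : H ≤ C) (h1 : Sys H Y)
    (hu : ∀ p q, Γ.d p q ≤ 1 → ind Y q = ind Y p + ph H X p q) :
    ∃ z, Zc Γ H X z ∧ ∀ p w : G, z p (w : G ⧸ H) = ind Y (w⁻¹ * p) - ind Y w⁻¹ := by
  have e : ∀ p w : G, ind Y ((w : G ⧸ H).out⁻¹ * p) - ind Y (w : G ⧸ H).out⁻¹ =
      ind Y (w⁻¹ * p) - ind Y w⁻¹ := fun p w => by
    obtain ⟨c, hc⟩ := QuotientGroup.mk_out_eq_mul H w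
    rw [hc, mul_inv_rev, mul_assoc, ind_congr (h1.left_iff (H.inv_mem c.2)),
      ind_congr (h1.left_iff (H.inv_mem c.2))]
  have hf : ∀ p : G, (Function.support fun q : G ⧸ H =>
      ind Y (q.out⁻¹ * p) - ind Y q.out⁻¹).Finite := fun p =>
    (((h1.fin p).insert ((1 : G) : G ⧸ H)).insert (p : G ⧸ H)).subset fun q hq => by
      have := supp (H := H) q.out p hq
      rwa [QuotientGroup.out_eq'] at this
  have e' : ∀ p w : G, ofSupportFinite _ (hf p) (w : G ⧸ H) = ind Y (w⁻¹ * p) - ind Y w⁻¹ :=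
    fun p w => e p w
  refine ⟨fun p => ofSupportFinite _ (hf p), ⟨fun p q => Finsupp.ext fun w => ?_,
    fun t ht => Finsupp.ext fun w => ?_⟩, e'⟩
  · induction w using QuotientGroup.induction_on with
    | H w =>
      rw [Finsupp.add_apply, smul_apply', MulAction.Quotient.smul_mk, e', e', e', smul_eq_mul,
        mul_inv_rev, inv_inv, mul_assoc]
      ring
  · induction w using QuotientGroup.induction_on with
    | H w => rw [e', gen_apply h hle, hu w⁻¹ (w⁻¹ * t) (by rwa [d_mul_right]), add_sub_cancel_left]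

theorem fine (h : Sys C X) (hG : Group.FG G) (hLP : ∀ Γ : Gen G, Γ.LP0) :
    ∃ (Γ : Gen G) (D : Subgroup G) (Y : Set G),
      (∀ p q, Γ.d p q ≤ 1 → p ∈ X → q ∉ opp C X) ∧ D ≤ C ∧ D.FG ∧ Sys D Y ∧
        ∀ p q, Γ.d p q ≤ 1 → ind Y q = ind Y p + ph D X p q := by
  obtain ⟨Γ, hJ, -⟩ := h.exists_gen hG ∅ (by simp)
  obtain ⟨ρ, hρ⟩ := hLP Γ
  obtain ⟨u, hu⟩ := hρ ℤ (fun p i => ph (sh Γ C (2 * ρ + 2)) X p (p * Γ.s i)) fun k => by
    have h1 : ∀ p i, Γ.d k p ≤ ρ → Γ.d k (p * Γ.s i) ≤ ρ + 1 := fun p i hd =>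
      (d_tri k p _).trans (add_le_add hd (d_gen p i))
    by_cases h2 : ∃ c ∈ sh Γ C (2 * ρ + 2), Γ.d k c ≤ ρ + 1
    · obtain ⟨c, hc, h3⟩ := h2
      have h4 : ∀ y, Γ.d k y ≤ ρ + 1 → (y ∈ sh Γ C (2 * ρ + 2) ↔ y ∈ C) := fun y hy =>
        sh_iff hc ((d_tri c k y).trans (by rw [d_comm c k]; omega))
      exact ⟨ind X, fun p i hd => ph_eq h hJ (d_gen p i) (h4 p (by omega)) (h4 _ (h1 p i hd))⟩
    · exact ⟨0, fun p i hd => (ph_zero (fun e => h2 ⟨p, e, by omega⟩)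
        fun e => h2 ⟨_, e, h1 p i hd⟩).trans (sub_self _).symm⟩
  have key : ∀ p q, Γ.d p q ≤ 1 →
      u q - u 1 = u p - u 1 + ph (sh Γ C (2 * ρ + 2)) X p q := fun p q hd => by
    rw [of_gen (φ := ph (sh Γ C (2 * ρ + 2)) X) (fun p q => (neg_sub _ _).symm) hd (hu p) (hu q)]
    ring
  have hS := sys_of (u := fun p => u p - u 1) h hJ (sub_self _) key
  have h0 : ∀ c ∈ sh Γ C (2 * ρ + 2), u c - u 1 = 0 := fun c hc =>
    by_contra fun e => hS.disj c e hc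
  have h1 : ∀ p, u p - u 1 = 0 ∨ u p - u 1 = 1 := fun p =>
    (conn_empty (Γ := Γ) 1 p).ind (P := fun p => u p - u 1 = 0 ∨ u p - u 1 = 1)
      (Or.inl (sub_self _)) fun a b _ _ hd e => by
        by_cases hb : b ∈ sh Γ C (2 * ρ + 2)
        · exact Or.inl (h0 b hb)
        by_cases ha : a ∈ sh Γ C (2 * ρ + 2)
        · rw [key a b hd, h0 a ha, ph, ind_pos ha, ind_neg hb]
          by_cases k : b ∈ X
          · exact Or.inr (by rw [ind_pos k]; ring)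
          · exact Or.inl (by rw [ind_neg k]; ring)
        · rwa [key a b hd, ph_zero ha hb, add_zero]
  have h2 : ∀ p, ind {p | u p - u 1 ≠ 0} p = u p - u 1 := fun p => (h1 p).elim
    (fun e => (ind_neg (show ¬ u p - u 1 ≠ 0 by omega)).trans e.symm)
    fun e => (ind_pos (show u p - u 1 ≠ 0 by omega)).trans e.symm
  exact ⟨Γ, _, _, hJ, sh_le, (Subgroup.fg_iff _).2
    ⟨_, rfl, (Gen.ball_finite 1 _).inter_of_left _⟩, hS, fun p q hd => by rw [h2, h2, key p q hd]⟩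

theorem inj {z : G → (G ⧸ M →₀ ℤ)} (hz : Zc Γ M X z) (tf : ∀ g : G, IsOfFinOrder g → g = 1)
    (hM : M ≤ C) (mal : ∀ c ∈ C, ∀ g ∈ M, g ≠ 1 → c⁻¹ * g * c ∈ M → c ∈ M) {g y : G} (hg : g ≠ 1)
    (h1 : z g = 0) (h2 : z (y⁻¹ * g * y) = 0) :
    Set.InjOn (Subgroup.quotientMapOfLE hM) (z y).support := by
  have e1 : ∀ w, z y (g⁻¹ • w) = z y w := fun w => by
    have a := hz.app g y w
    have b := hz.app y (y⁻¹ * g * y) w
    rw [show y * (y⁻¹ * g * y) = g * y by group, a, h1, h2] at b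
    simpa using b
  have e2 : ∀ (n : ℕ) w, z y (g⁻¹ ^ n • w) = z y w := fun n w => by
    induction n with
    | zero => simp
    | succ n ih => rw [pow_succ', mul_smul, e1, ih]
  intro w hw w' hw' e
  obtain ⟨a, b, hab, k⟩ := Set.Finite.exists_lt_map_eq_of_forall_mem
    (f := fun n : ℕ => (g⁻¹ ^ n • w, g⁻¹ ^ n • w'))
    (t := ((z y).support : Set (G ⧸ M)) ×ˢ ((z y).support : Set (G ⧸ M)))
    (fun n => ⟨mem_support_iff.2 (e2 n w ▸ mem_support_iff.1 hw),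
      mem_support_iff.2 (e2 n w' ▸ mem_support_iff.1 hw')⟩)
    ((z y).support.finite_toSet.prod (z y).support.finite_toSet)
  obtain ⟨n, rfl⟩ := Nat.exists_eq_add_of_lt hab
  simp only [Prod.mk.injEq, add_assoc, pow_add g⁻¹ a, mul_smul, smul_left_cancel_iff] at k
  obtain ⟨x, rfl⟩ := QuotientGroup.mk_surjective w
  obtain ⟨x', rfl⟩ := QuotientGroup.mk_surjective w'
  refine QuotientGroup.eq.2 (mal _ (QuotientGroup.eq.1 e) (x⁻¹ * (g⁻¹ ^ (n + 1) * x))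
    (QuotientGroup.eq.1 k.1) (fun l => hg (inv_eq_one.1 (tf _ (isOfFinOrder_iff_pow_eq_one.2
      ⟨n + 1, n.succ_pos, ?_⟩)))) ?_)
  · simpa [inv_mul_eq_one] using l
  · have := QuotientGroup.eq.1 k.2
    simpa [mul_assoc] using this

end FoP

open FoP

/-- An acylindrical system gives one whose edge group is the malnormal closure of a finitely
generated edge group. -/
theorem fold (h : Sys C X) (hG : Group.FG G) (hLP : ∀ Γ : Gen G, Γ.LP0)
    (tf : ∀ g : G, IsOfFinOrder g → g = 1) {k : ℕ} (ha : Ac k C X) :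
    ∃ (D M : Subgroup G) (Y Z : Set G), D.FG ∧ D ≤ M ∧ Sys D Y ∧ Sys M Z ∧ Ac (k + 2) M Z ∧
      (∀ N : Subgroup G, D ≤ N → N ≤ M →
        (∀ c ∈ M, ∀ g ∈ N, g ≠ 1 → c⁻¹ * g * c ∈ N → c ∈ N) → M ≤ N) ∧
      ∀ a b, ¬ (a ∈ Z ↔ b ∈ Z) → ∃ m ∈ M, ¬ (m⁻¹ * a ∈ Y ↔ m⁻¹ * b ∈ Y) := by
  classical
  obtain ⟨Γ, D, Y, hJ, hD, hfg, hY, hu⟩ := fine h hG hLP
  obtain ⟨M, hDM, hM, mal, hmin⟩ : ∃ M : Subgroup G, D ≤ M ∧ M ≤ C ∧
      (∀ c ∈ C, ∀ g ∈ M, g ≠ 1 → c⁻¹ * g * c ∈ M → c ∈ M) ∧ ∀ N : Subgroup G, D ≤ N → N ≤ M →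
        (∀ c ∈ M, ∀ g ∈ N, g ≠ 1 → c⁻¹ * g * c ∈ N → c ∈ N) → M ≤ N := by
    have mal : ∀ c ∈ C, ∀ g ∈ sInf {N : Subgroup G | D ≤ N ∧ ∀ c ∈ C, ∀ g ∈ N, g ≠ 1 →
        c⁻¹ * g * c ∈ N → c ∈ N}, g ≠ 1 → c⁻¹ * g * c ∈ sInf {N : Subgroup G | D ≤ N ∧
        ∀ c ∈ C, ∀ g ∈ N, g ≠ 1 → c⁻¹ * g * c ∈ N → c ∈ N} → c ∈ sInf {N : Subgroup G | D ≤ N ∧
        ∀ c ∈ C, ∀ g ∈ N, g ≠ 1 → c⁻¹ * g * c ∈ N → c ∈ N} := fun c hc g hg hne e =>
      Subgroup.mem_sInf.2 fun N hN => hN.2 c hc g (Subgroup.mem_sInf.1 hg N hN) hne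
        (Subgroup.mem_sInf.1 e N hN)
    refine ⟨_, le_sInf fun _ hN => hN.1, sInf_le ?_, mal, fun N h1 h2 h3 => sInf_le ?_⟩
    · exact ⟨hD, fun c hc _ _ _ _ => hc⟩
    · exact ⟨h1, fun c hc g hg hne e => h3 c (mal c hc g (h2 hg) hne (h2 e)) g hg hne e⟩
  obtain ⟨z1, a1, a2⟩ := of_sys h hD hY hu
  obtain ⟨z0, b1, b2⟩ := of_sys (Γ := Γ) h le_rfl h fun p q hd => by
    rw [ph_eq h hJ hd Iff.rfl Iff.rfl, add_sub_cancel]
  have hz := a1.push hDM
  set z := fun p => mapDomain (Subgroup.quotientMapOfLE hDM) (z1 p) with hzd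
  have val : ∀ g y, g ≠ 1 → z g = 0 → z (y⁻¹ * g * y) = 0 → ∀ w : G, z y (w : G ⧸ M) ≠ 0 →
      ind X (w⁻¹ * y) - ind X w⁻¹ ≠ 0 := fun g y hg h1 h2 w hw => by
    rwa [← b2, ← (hz.push hM).uniq b1 y, ← Subgroup.quotientMapOfLE_apply_mk hM,
      mapDomain_apply' _ _ subset_rfl (inj hz tf hM mal hg h1 h2) (mem_support_iff.2 hw)]
  let N : Subgroup G :=
    { carrier := {c | c ∈ M ∧ z c = 0}
      one_mem' := ⟨M.one_mem, by rw [hz.gen 1 (by simp), inv_one, sub_self]⟩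
      mul_mem' := fun {a b} ha hb => ⟨M.mul_mem ha.1 hb.1, by
        rw [hz.coc, ha.2, hb.2, mapDomain_zero, add_zero]⟩
      inv_mem' := fun {a} ha => ⟨M.inv_mem ha.1, by
        have := hz.coc a⁻¹ a
        rw [ha.2, mapDomain_zero, add_zero, inv_mul_cancel, hz.gen 1 (by simp), inv_one,
          sub_self] at this
        exact this.symm⟩ }
  have z0' : ∀ c ∈ M, z c = 0 := fun c hc => (hmin N (fun d hd => ⟨hDM hd, by
      have : z1 d = 0 := Finsupp.ext fun w => by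
        induction w using QuotientGroup.induction_on with
        | H w => rw [a2, ind_congr (hY.right_iff hd), sub_self, Finsupp.zero_apply]
      simp only [hzd, this, mapDomain_zero]⟩) (fun _ e => e.1)
    (fun c hc g hg hne e => ⟨hc, Finsupp.ext fun w => by
      induction w using QuotientGroup.induction_on with
      | H w => exact by_contra fun l => val g c hne hg.2 e.2 w l
                (sub_eq_zero.2 (ind_congr (h.right_iff (hM hc))))⟩) hc).2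
  have hS : Sys M {p | z p ((1 : G) : G ⧸ M) ≠ 0} := sys_fun (Γ := Γ) h hJ hM
    (by rw [z0' 1 M.one_mem, Finsupp.zero_apply]) (fun p q hd => by
      have e := hz.val (p⁻¹ * q) p⁻¹
      rw [hz.gen _ (by rwa [d_eq] at hd), gen_apply h hM, inv_inv, mul_inv_cancel_left] at e
      rw [e, add_sub_cancel])
    fun c hc p => by rw [hz.app, z0' c hc, Finsupp.zero_apply, add_zero]
  have sep : ∀ y w : G, ¬ (z w⁻¹ ((1 : G) : G ⧸ M) ≠ 0 ↔ z (w⁻¹ * y) ((1 : G) : G ⧸ M) ≠ 0) →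
      z y (w : G ⧸ M) ≠ 0 := fun y w e l => e (by rw [sub_eq_zero.1 ((hz.val y w).symm.trans l)])
  refine ⟨D, M, Y, _, hfg, hDM, hY, hS, fun y hy hk c hc hc' => by_contra fun hne => ?_, hmin,
    fun a b e => ?_⟩
  · refine hne (ha y (fun e => hy (mal y e c hc hne hc')) ?_ c (hM hc) (hM hc'))
    have hF := ((h.fin y).insert ((1 : G) : G ⧸ C)).insert (y : G ⧸ C)
    have h1 := Set.ncard_le_ncard_of_injOn (s := Sp M {p | z p ((1 : G) : G ⧸ M) ≠ 0} y)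
      (Subgroup.quotientMapOfLE hM) (by
        rintro _ ⟨w, rfl, -, -, e⟩
        exact supp w y (val c y hne (z0' c hc) (z0' _ hc') w (sep y w e)))
      ((inj hz tf hM mal hne (z0' c hc) (z0' _ hc')).mono (by
        rintro _ ⟨w, rfl, -, -, e⟩
        exact mem_support_iff.2 (sep y w e))) hF
    have h2 := (Set.ncard_insert_le (y : G ⧸ C) _).trans
      (Nat.succ_le_succ (Set.ncard_insert_le ((1 : G) : G ⧸ C) (Sp C X y)))
    unfold nn at hk ⊢
    omega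
  · have h1 := sep (a⁻¹ * b) a⁻¹ (by rwa [inv_inv, mul_inv_cancel_left])
    obtain ⟨q, hq, e1⟩ := Finset.mem_image.1 (mapDomain_support (mem_support_iff.2 h1))
    obtain ⟨x, rfl⟩ := QuotientGroup.mk_surjective q
    refine ⟨a * x, by simpa using QuotientGroup.eq.1 e1.symm, fun l => mem_support_iff.1 hq ?_⟩
    rw [a2]
    exact sub_eq_zero.2 (ind_congr (by simpa [mul_assoc] using l.symm))

end Pool.Agent.Lib.MP_d98eb9_al.W.J
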