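import Pool.Agent.Lib.MP_d98eb9_al.J.Min
import Pool.Agent.Lib.MP_d98eb9_al.J.Fold
import Pool.Agent.Lib.MP_d98eb9_al.J.Fgc

/-! Acylindrical splittings over arbitrary edge groups. -/

namespace Pool.Agent.Lib.MP_d98eb9_al.W.J

open Gen SysA BF

variable {G : Type} [Group G] {Γ : Gen G} {C D M : Subgroup G} {X Y Z W : Set G}

namespace AaP

theorem tail (h : Sys C X) (h1 : OE (⊤ : Subgroup G)) (hC : (C : Set G).Infinite) {y : G}
    (hy : y ∉ C) (hk : ∀ c ∈ C, y⁻¹ * c * y ∈ C → c = 1) (s : ℕ) {P : Set G}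
    (hP : {p | p ∈ tr y C ∧ {q | Γ.Conn (Γ.N s C) p q} ≠ P}.Finite) :
    ∃ P, Γ.Comp (Γ.N s C) P ∧ Γ.Near (Xb C X y) P := by
  have hO : (tr y (C : Set G)).Infinite := fun e => hC (tr_inv_tr y (C : Set G) ▸ tr_finite y⁻¹ e)
  have fin : ∀ {B : Set G}, Γ.Near B C → Γ.Near B (tr y C) → B.Finite := fun ⟨a, ha⟩ ⟨b, hb⟩ =>
    (inter_finite (Γ := Γ) hk (a + b)).subset fun p hp =>
      ⟨N_mono (by omega) subset_rfl (ha hp), N_mono (by omega) subset_rfl (hb hp)⟩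
  have fC : ∀ t, (tr y C ∩ Γ.N t C).Finite := fun t =>
    fin ⟨t, Set.inter_subset_right⟩ (Near.of_subset Set.inter_subset_left)
  have cl : ∀ {p q : G} {t : ℕ}, p ∉ Γ.N (s + t) C → Γ.d p q ≤ t → Γ.Conn (Γ.N s C) p q :=
    fun hp hd => conn_of_d (fun e => hp (N_N subset_rfl e)) hd
  obtain ⟨p, hp, hp'⟩ := hO.exists_notMem_finite (hP.union (fC s))
  have e : {q | Γ.Conn (Γ.N s C) p q} = P := by_contra fun e => hp' (Or.inl ⟨hp, e⟩)
  have hc : Γ.Comp (Γ.N s C) P := ⟨p, fun k => hp' (Or.inr ⟨hp, k⟩), e.symm⟩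
  obtain ⟨t, ht⟩ := near_edge (Γ := Γ) h hy (A := (Xb C X y)ᶜ) (fun _ ha => ha) 1
  have f1 : (Xb C X y ∩ Γ.N s C).Finite := fin ⟨s, Set.inter_subset_right⟩
    (near_edge h hy (fun c hc => not_mem_Xb h hy hc) s)
  have f2 : (Xb C X y \ P).Finite := by
    refine (OE.finite_of_fr (Γ := Γ) h1 ((f1.union (N_finite (Γ := Γ)
      (hP.union (fC (s + t))) t)).subset ?_)).resolve_right fun hf =>
        hC (hf.subset fun c hc k => not_mem_Xb h hy hc k.1)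
    rintro a ⟨ha, b, hd, hab⟩
    by_cases hb : b ∈ Xb C X y
    · have hbP : b ∈ P := by_contra fun k => hab (iff_of_true ha ⟨hb, k⟩)
      exact Or.inl ⟨ha.1, hc.adj hbP ha.2 (by rwa [d_comm])⟩
    obtain ⟨c, hcy, hca⟩ := ht ⟨ha.1, b, hb, by rwa [d_comm]⟩
    refine Or.inr ⟨c, by_contra fun k => ha.2 ?_, hca⟩
    have e1 : {q | Γ.Conn (Γ.N s C) c q} = P := by_contra fun e => k (Or.inl ⟨hcy, e⟩)
    exact e1.le (cl (fun e => k (Or.inr ⟨hcy, e⟩)) hca)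
  obtain ⟨l, hl⟩ := bdd_of_finite (Γ := Γ) f2 p
  refine ⟨P, hc, l, fun q hq => ?_⟩
  by_cases hqP : q ∈ P
  · exact subset_N _ _ hqP
  · exact ⟨p, e.le (Conn.refl _ _), hl q ⟨hq, hqP⟩⟩

theorem middle (h : Sys C X) {y : G} {a : ℕ} (hy : 2 * a < nn C X y) :
    ∃ w, sep C X w 1 y ∧ a ≤ nn C X w ∧ a ≤ nn C X (w⁻¹ * y) := by
  have tot : ∀ {p q v w : G}, sep C X v p q → sep C X w p q → v⁻¹ * w ∉ C →
      nn C X (v⁻¹ * p) ≠ nn C X (w⁻¹ * p) := fun {p q v w} hv hw e => by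
    have e' : w⁻¹ * v ∉ C := fun k => e (by simpa using C.inv_mem k)
    by_cases k1 : v⁻¹ * w ∈ X ↔ v⁻¹ * p ∈ X
    · by_cases k2 : w⁻¹ * v ∈ X ↔ w⁻¹ * p ∈ X
      · have a := sep.lt h (show sep C X v w q from ⟨e, hv.2.1, fun l => hv.2.2 (k1.symm.trans l)⟩)
        have b := sep.lt h (show sep C X w v q from ⟨e', hw.2.1, fun l => hw.2.2 (k2.symm.trans l)⟩)
        omega
      · exact (sep.lt h (show sep C X w v p from ⟨e', hw.1, k2⟩)).ne'
    · exact (sep.lt h (show sep C X v w p from ⟨e, hv.1, k1⟩)).ne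
  have cnt : ∀ p q : G, {z | z ∈ S2 C X p q ∧ nn C X (z.out⁻¹ * p) < a}.ncard ≤ a := fun p q => by
    have := Set.ncard_le_ncard_of_injOn (s := {z | z ∈ S2 C X p q ∧ nn C X (z.out⁻¹ * p) < a})
      (t := Set.Iio a) (fun z => nn C X (z.out⁻¹ * p)) (fun _ e => e.2) (fun z hz z' hz' e => by
        rw [← z.out_eq', ← z'.out_eq']
        exact QuotientGroup.eq.2 (by_contra fun l => tot
          ((mem_S2 h).1 (by rw [QuotientGroup.out_eq']; exact hz.1))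
          ((mem_S2 h).1 (by rw [QuotientGroup.out_eq']; exact hz'.1)) l e)) (Set.finite_Iio a)
    simpa using this
  by_contra hn
  have h2 : S2 C X 1 y ⊆ {z | z ∈ S2 C X 1 y ∧ nn C X (z.out⁻¹ * 1) < a} ∪
      {z | z ∈ S2 C X y 1 ∧ nn C X (z.out⁻¹ * y) < a} := fun z hz => by
    by_contra k
    refine hn ⟨z.out, (mem_S2 h).1 (by rwa [QuotientGroup.out_eq']),
      not_lt.1 fun l => k (Or.inl ⟨hz, by rwa [mul_one, h.nn_inv]⟩),
      not_lt.1 fun l => k (Or.inr ⟨by rwa [S2_symm], l⟩)⟩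
  have h3 := (Set.ncard_le_ncard h2 (((fin_S2 h 1 y).subset fun _ e => e.1).union
    ((fin_S2 h y 1).subset fun _ e => e.1))).trans (Set.ncard_union_le _ _)
  have h4 := cnt 1 y
  have h5 := cnt y 1
  rw [card_S2, inv_one, one_mul] at h3
  omega

theorem glue (tf : ∀ g : G, IsOfFinOrder g → g = 1) (hRC : Γ.RC 1 D) (hDM : D ≤ M)
    (hmin : ∀ N : Subgroup G, D ≤ N → N ≤ M →
      (∀ c ∈ M, ∀ g ∈ N, g ≠ 1 → c⁻¹ * g * c ∈ N → c ∈ N) → M ≤ N) {x : G}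
    (h0 : ∀ m ∈ M, x * m ∉ W) (hf : ∀ r, (tr x M ∩ Γ.N r W).Finite) {m : G} (hm : m ∈ M) :
    Γ.Conn W x (x * m) := by
  let N : Subgroup G :=
    { carrier := {c | c ∈ M ∧ ∀ m ∈ M, Γ.Conn W (x * m) (x * (m * c))}
      one_mem' := ⟨M.one_mem, fun m _ => by rw [mul_one]; exact Conn.refl _ _⟩
      mul_mem' := fun {a b} ha hb => ⟨M.mul_mem ha.1 hb.1, fun m hm => by
        rw [← mul_assoc m]
        exact (ha.2 m hm).trans (hb.2 _ (M.mul_mem hm ha.1))⟩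
      inv_mem' := fun {a} ha => ⟨M.inv_mem ha.1, fun m hm => by
        have := ha.2 _ (M.mul_mem hm (M.inv_mem ha.1))
        rw [inv_mul_cancel_right] at this
        exact this.symm⟩ }
  have := (hmin N (fun d hd => ⟨hDM hd, fun m hm => hRC {d | Γ.Conn W (x * m) (x * (m * d))}
    (fun a ha b hb e k => Conn.trans k (Conn.single (h0 _ (M.mul_mem hm (hDM ha)))
      (h0 _ (M.mul_mem hm (hDM hb))) (by simpa using e))) 1 D.one_mem d hd
      (by simpa using Conn.refl _ _)⟩) (fun _ e => e.1) (fun c hc g hg hne e => ⟨hc, fun m hm => by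
        obtain ⟨n, hn⟩ : ∃ n : ℕ, x * (m * g ^ n) ∉ Γ.N (Γ.d 1 c) W := by
          by_contra k
          exact Set.infinite_of_injective_forall_mem (f := fun n : ℕ => x * (m * g ^ n))
            (s := tr x M ∩ Γ.N (Γ.d 1 c) W)
            (fun a b l => injective_pow_iff_not_isOfFinOrder.2 (fun l => hne (tf g l))
              (mul_left_cancel (mul_left_cancel l)))
            (fun n => ⟨mul_mem_tr.2 (M.mul_mem hm (M.pow_mem hg.1 n)),
              by_contra fun l => k ⟨n, l⟩⟩) (hf (Γ.d 1 c))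
        have e1 := (N.pow_mem e n).2 _ (M.mul_mem hm hc)
        rw [show c⁻¹ * g * c = c⁻¹ * g * c⁻¹⁻¹ by rw [inv_inv], conj_pow,
          show x * (m * c * (c⁻¹ * g ^ n * c⁻¹⁻¹)) = x * (m * g ^ n) * c by group] at e1
        exact (((N.pow_mem hg n).2 m hm).trans (conn_of_d hn (d_mul_right _ _).le)).trans
          e1.symm⟩) hm).2 1 M.one_mem
  rwa [mul_one, one_mul] at this

theorem fgc_side (h1 : OE (⊤ : Subgroup G)) (tf : ∀ g : G, IsOfFinOrder g → g = 1) (hY : Sys D Y)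
    (hfg : D.FG) (hΓ : ∀ p q, Γ.d p q ≤ 1 → p ∈ Y → q ∉ opp D Y) (hRC : Γ.RC 1 D) :
    ∃ R, ∀ x ∈ Y, ∀ u : G → Set G, {p | p ∈ (D : Set G) ∪ Y ∧ ∃ q ∈ (D : Set G) ∪ Y,
      Γ.d p q ≤ 1 ∧ u p ≠ u q}.Finite → ∃ a, {p | Γ.Conn (Γ.N R D) x p ∧ u p ≠ a}.Finite := by
  have e : (D : Set G) ∪ Y = (opp D Y)ᶜ := Set.ext fun p => OneEndB.nmem_opp.symm
  obtain ⟨R, hR⟩ := fgc (Γ := Γ) (U := (opp D Y)ᶜ) h1 tf (OneEndA.infinite_C hY h1 Γ) hfg
    (fun p hp q hq => by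
      rw [compl_compl]
      exact (OneEndB.conn_one hY hΓ hRC hp).trans (OneEndB.conn_one hY hΓ hRC hq).symm)
    (fun c hc p hp => OneEndB.left_nmem hY hc hp) fun p hp q k =>
      k.ind (P := fun q => q ∈ (opp D Y)ᶜ) hp fun a b ha _ hd l =>
        hΓ a b hd ((OneEndB.nmem_opp.1 l).resolve_left ha)
  exact ⟨R, fun x hx u hu => hR x (fun l => l.2 hx) _ u (e ▸ hu)⟩

end AaP

open AaP

/-- Bounded directed separation for acylindrical systems over arbitrary edge groups. -/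
theorem done_ac_all (hG : IsPD 3 G) (s1 : ∀ Γ : Gen G, S1 Γ) (h : Sys C X) {k : ℕ}
    (ha : Ac k C X) : Done G := by
  have geo := fun Γ : Gen G => (exists_geo hG Γ).some
  have hfG := IsPD.fg hG
  obtain ⟨Γ0⟩ := exists_Gen hfG
  have h1 := (geo Γ0).oe
  have tf := (geo Γ0).tf
  obtain ⟨D, M, Y, Z, hfg, hDM, hY, hZ, hA, hmin, hsep⟩ :=
    fold h hfG (fun Γ => (geo Γ).lp0) tf ha
  obtain ⟨T, hT⟩ := id hfg
  obtain ⟨Γ, hΓ, hgen⟩ := hY.exists_gen hfG T fun t ht => hT ▸ Subgroup.subset_closure ht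
  have hRC : Γ.RC 1 D := OneEndA.rc_of_gen hT hgen
  obtain ⟨R1, hR1⟩ := fgc_side h1 tf hY hfg hΓ hRC
  obtain ⟨R2, hR2⟩ := fgc_side h1 tf hY.swap hfg (OneEndA.swap_gen hY hΓ) hRC
  obtain ⟨j, hj⟩ := hZ.nn_bdd Γ (R1 + R2)
  refine ind' hG (s1 Γ) (2 * (k + 2 + j + 1) + 1) M Z hZ fun y hy => by_contra fun hn =>
    hy.2 fun s => ?_
  obtain ⟨w, hw, w1, w2⟩ := middle hZ (y := y) (a := k + 2 + j + 1) (by omega)
  obtain ⟨m, hm, hx⟩ := hsep _ _ hw.2.2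
  have hw1 : w ∉ M := fun e => hw.1 (by simpa using e)
  rw [← mul_assoc, ← mul_assoc, ← mul_inv_rev, mul_one] at hx
  have hxw : ∀ a, a ∉ tr w (M : Set G) → (w * m)⁻¹ * a ∉ D := fun a l e => l (by
    have := M.mul_mem hm (hDM e)
    simpa [mul_assoc] using this)
  have hn2 : nn M Z ((w * m)⁻¹ * y) = nn M Z (w⁻¹ * y) := by
    rw [mul_inv_rev, mul_assoc, hZ.nn_left (M.inv_mem hm)]
  have hy2 : (w * m)⁻¹ * y ∉ M := fun e => hw.2.1 (by
    simpa [mul_assoc] using M.mul_mem hm e)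
  generalize w * m = x at hx hxw hn2 hy2
  have f1 := inter_finite (Γ := Γ) (hA w hw1 (by omega))
  have f2 := inter_finite (Γ := Γ) (hA _ hy2 (by omega))
  have out : ∀ a, Γ.Conn (tr w M) 1 a → x⁻¹ * a ∉ (D : Set G) ∪ far D Y x := fun a e => by
    have := e.ind (P := fun a => x⁻¹ * a ∉ D ∧ (x⁻¹ ∈ Y ↔ x⁻¹ * a ∈ Y))
      ⟨hxw 1 hw.1, by rw [mul_one]⟩ fun a b k1 k2 hd l => ⟨hxw b k2, l.2.trans
        ⟨fun k => (OneEndB.nmem_opp.1 (hΓ _ _ (by rwa [d_mul]) k)).resolve_left (hxw b k2),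
          fun k => (OneEndB.nmem_opp.1 (hΓ _ _ (by rwa [d_mul, d_comm]) k)).resolve_left l.1⟩⟩
    exact fun l => l.elim this.1 fun l => l.2 this.2
  have f3 : {p | p ∈ (D : Set G) ∪ far D Y x ∧ x * p ∈ Γ.N s M}.Finite := by
    refine (tr_finite x⁻¹ (f1 s)).subset ?_
    rintro p ⟨hp, c, hc, hd⟩
    refine mem_tr.2 ?_
    rw [inv_inv]
    refine ⟨⟨c, hc, hd⟩, by_contra fun l => out (x * p) ?_ (by simpa using hp)⟩
    have := glue (x := 1) (W := tr w M) tf hRC hDM hmin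
      (fun m hm l => hw1 (M.inv_mem_iff.1 ((M.mul_mem_cancel_right hm).1 (by simpa using l))))
      (fun r => (f1 r).subset fun p hp => ⟨subset_N _ _ (by simpa using hp.1), hp.2⟩) hc
    rw [one_mul] at this
    exact this.trans (conn_of_d l (by rwa [d_comm])).symm
  have f4 : {p | p ∈ (D : Set G) ∪ far D Y x ∧ ∃ q ∈ (D : Set G) ∪ far D Y x, Γ.d p q ≤ 1 ∧
      {z | Γ.Conn (Γ.N s M) (x * p) z} ≠ {z | Γ.Conn (Γ.N s M) (x * q) z}}.Finite := by
    refine (N_finite (Γ := Γ) f3 1).subset ?_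
    rintro p ⟨hp, q, hq, hd, e⟩
    by_contra l
    have k : Γ.Conn (Γ.N s M) (x * p) (x * q) := Conn.single
      (fun k => l (subset_N _ _ ⟨hp, k⟩)) (fun k => l ⟨q, ⟨hq, k⟩, by rwa [d_comm]⟩)
      (by rwa [d_mul])
    exact e (Set.ext fun _ => ⟨fun l => k.symm.trans l, fun l => k.trans l⟩)
  have hfar : x⁻¹ * y ∈ far D Y x := ⟨fun e => hy2 (hDM e), hx⟩
  obtain ⟨P, hP⟩ : ∃ P, {p | Γ.Conn (Γ.N (R1 + R2) D) (x⁻¹ * y) p ∧
      {z | Γ.Conn (Γ.N s M) (x * p) z} ≠ P}.Finite := by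
    rcases far_eq (x := x) (fun e => hxw 1 hw.1 (by simpa using e)) hY.disj with e | e <;>
      rw [e] at f4 hfar
    · exact (hR1 _ hfar _ f4).imp fun P l => l.subset fun p hp =>
        ⟨hp.1.mono (N_mono (by omega) subset_rfl), hp.2⟩
    · exact (hR2 _ hfar _ f4).imp fun P l => l.subset fun p hp =>
        ⟨hp.1.mono (N_mono (by omega) subset_rfl), hp.2⟩
  refine tail hZ h1 (OneEndA.infinite_C hZ h1 Γ) hy.1 (hA y hy.1 (by omega)) s (P := P)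
    ((tr_finite x hP).subset fun p hp => mem_tr.2 ⟨?_, by simpa using hp.2⟩)
  have := glue (x := x⁻¹ * y) (W := Γ.N (R1 + R2) D) tf hRC hDM hmin
    (fun m hm l => by
      have := hj _ m hm (N_mono le_rfl hDM l)
      omega)
    (fun r => (f2 (R1 + R2 + r)).subset fun p hp =>
      ⟨N_mono le_rfl hDM (N_N subset_rfl hp.2), subset_N _ _ hp.1⟩) hp.1
  rwa [mul_assoc, mul_inv_cancel_left] at this

open MulAction in
/-- Acylindrical minimal actions with arbitrary edge groups. -/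
theorem min_ac_all {V : Type} {T : SimpleGraph V} {a b : V} [MulAction G V] (hG : IsPD 3 G)
    (s1 : ∀ Γ : Gen G, S1 Γ) (h : MinTree G T) (hab : T.Adj a b) {k : ℕ}
    (hk : ∀ (g : G) u v, k ≤ T.dist u v → g • u = u → g • v = v → g = 1) : Done G := by
  refine done_ac_all hG s1 (MinP.sys h hab (MinP.stab h hab)) (k := k) fun y _ hy c hc e => ?_
  refine hk c _ _ (hy.trans (MinP.nn_le h.gt (MinP.stab h hab) y)) hc.1 ?_
  have := congrArg (fun v => y • v) (show (y⁻¹ * c * y) • a = a from e.1)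
  simpa [mul_smul] using this

end Pool.Agent.Lib.MP_d98eb9_al.W.J
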