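import Pool.Agent.Lib.MP_d98eb9_al.J.AcAll

/-! Acylindrical actions without a fixed vertex. -/

namespace Pool.Agent.Lib.MP_d98eb9_al.W.J

open SimpleGraph Pool.Agent.Shared.GroupTree W.Tree MulAction

variable {G : Type} [Group G] {V : Type} {T : SimpleGraph V} {a b : V} [MulAction G V]
  {C : Subgroup G}

namespace AfP

theorem good_edge (h : GTree G T) (hG : Group.FG G) (hn : ∀ v : V, ∃ g : G, g • v ≠ v) :
    ∃ a b, T.Adj a b ∧ (∃ x : G, Toward T a b (x • a)) ∧ ∃ x : G, Toward T b a (x • b) := by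
  have hT := h.tree
  have : Nonempty V := hT.connected.nonempty
  obtain ⟨S, hS⟩ := hG.out
  obtain ⟨a, ha⟩ : ∃ a : V, ∀ x : V, ∑ s ∈ S, T.dist a (s • a) ≤ ∑ s ∈ S, T.dist x (s • x) :=
    ⟨Function.argmin (fun x : V => ∑ s ∈ S, T.dist x (s • x)), fun t =>
      Function.argmin_le (fun x : V => ∑ s ∈ S, T.dist x (s • x)) t⟩
  obtain ⟨s, hs, hsa⟩ : ∃ s ∈ S, s • a ≠ a := by
    by_contra k
    obtain ⟨g, hg⟩ := hn a
    have : Subgroup.closure (S : Set G) ≤ stabilizer G a :=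
      (Subgroup.closure_le _).2 fun s hs => by_contra fun l => k ⟨s, hs, l⟩
    exact hg (this (hS ▸ Subgroup.mem_top g))
  obtain ⟨b, hb⟩ := exists_toward hT hsa.symm
  refine ⟨a, b, hb.1, ⟨s, hb⟩, by_contra fun k => ?_⟩
  have k1 : ∀ x : G, Toward T a b (x • b) := fun x =>
    toward_of_not hT hb.1.symm fun l => k ⟨x, l⟩
  have k2 : ∀ t : G, T.dist b (t • b) ≤ T.dist a (t • a) ∧
      (t • a ≠ a → T.dist b (t • b) < T.dist a (t • a)) := fun t => by
    have e1 := ((toward_iff h t).1 (k1 t⁻¹)).2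
    rw [dist_comm (u := t • b), dist_comm (u := t • a)] at e1
    by_cases e : Toward T a b (t • a)
    · have := e.2
      omega
    · have e2 := (toward_of_not hT hb.1 e).2
      refine ⟨by omega, fun l => absurd ?_ l⟩
      rcases Sym2.eq_iff.1 (edge_aux hT (h.adj t _ _ hb.1).symm (k1 t) e) with l | l
      · exact (h.noinv t a b hb.1 l.2 l.1).elim
      · exact l.2
  exact absurd (ha b) (not_le.2 (Finset.sum_lt_sum (fun t _ => (k2 t).1) ⟨s, hs, (k2 s).2 hsa⟩))

theorem sys (h : GTree G T) (hab : T.Adj a b) (s1 : ∃ x : G, Toward T a b (x • a))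
    (s2 : ∃ x : G, Toward T b a (x • b))
    (hC : ∀ g : G, g ∈ C ↔ s(g • a, g • b) = s(a, b)) :
    Sys C {x | x ∉ C ∧ Toward T a b (x • a)} := by
  have hT := h.tree
  have fix : ∀ c ∈ C, c • a = a ∧ c • b = b := fun c hc =>
    (Sym2.eq_iff.1 ((hC c).1 hc)).resolve_right fun e => h.noinv c a b hab e.1 e.2
  have he : ∀ x ∉ C, Toward T a b (x • a) ↔ Toward T a b (x • b) := fun x hx =>
    edge hT (h.adj x a b hab) (mt (hC x).2 hx)
  refine ⟨fun _ hx => hx.1, fun c hc x hx => ⟨mt (C.mul_mem_cancel_left hc).1 hx.1, ?_⟩,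
    fun c hc x hx => ⟨mt (C.mul_mem_cancel_right hc).1 hx.1, ?_⟩, fun x y hx hy hxy => ?_,
    fun y => ?_, ?_, ?_⟩
  · have := h.toward_smul c hx.2
    rwa [(fix c hc).1, (fix c hc).2, ← mul_smul] at this
  · rw [mul_smul, (fix c hc).1]
    exact hx.2
  · simp only [Set.mem_ofPred_eq, hx, hy, not_false_eq_true, true_and] at hxy
    have h1 : x⁻¹ * y ∉ C := fun e => hxy (by
      rw [← mul_inv_cancel_left x y, mul_smul, (fix _ e).1])
    simp only [Set.mem_ofPred_eq, h1, inv_mem_iff, hx, not_false_eq_true, true_and, mul_smul,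
      toward_iff h]
    exact nest hT (he x hx) hxy
  · have hf := finite_between hT (y • a) _ a rfl
    refine ((hf.prod hf).preimage (f := fun q : G ⧸ C => (q.out • a, q.out • b)) ?_).subset ?_
    · intro q _ q' _ e
      obtain ⟨e1, e2⟩ := Prod.ext_iff.1 e
      rw [← QuotientGroup.out_eq' q, ← QuotientGroup.out_eq' q', QuotientGroup.eq, hC, mul_smul,
        mul_smul, ← show q.out • a = q'.out • a from e1, ← show q.out • b = q'.out • b from e2,
        inv_smul_smul, inv_smul_smul]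
    · rintro _ ⟨x, rfl, hx, hy, hxy⟩
      obtain ⟨c, hc⟩ := QuotientGroup.mk_out_eq_mul C x
      simp only [Set.mem_ofPred_eq, hy, inv_mem_iff, hx, not_false_eq_true, true_and, mul_smul,
        toward_iff h] at hxy
      simp only [Set.mem_preimage, Set.mem_prod, Set.mem_ofPred_eq, hc, mul_smul, (fix c c.2).1,
        (fix c c.2).2]
      refine ⟨sep hT hxy, sep hT (b := x • a) ?_⟩
      rwa [flip hT (h.adj x a b hab), flip hT (h.adj x a b hab), not_iff_not]
  · obtain ⟨x, hx⟩ := s1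
    exact ⟨x, fun e => hx.ne (fix x e).1.symm, hx⟩
  · obtain ⟨x, hx⟩ := s2
    have hxC : x ∉ C := fun e => hx.ne (fix x e).2.symm
    exact ⟨x, hxC, fun e => (flip hT hab).1 hx ((he x hxC).1 e.2)⟩

end AfP

/-- Acylindrical actions without a fixed vertex. -/
theorem ac_free (hG : IsPD 3 G) (s1 : ∀ Γ : Gen G, S1 Γ) (h : GTree G T)
    (hn : ∀ v : V, ∃ g : G, g • v ≠ v) {k : ℕ}
    (hk : ∀ (g : G) u v, k ≤ T.dist u v → g • u = u → g • v = v → g = 1) : Done G := by
  obtain ⟨a, b, hab, h1, h2⟩ := AfP.good_edge h (IsPD.fg hG) hn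
  have hC : ∀ g : G, g ∈ stabilizer G a ⊓ stabilizer G b ↔ s(g • a, g • b) = s(a, b) := fun g =>
    ⟨fun e => by rw [e.1, e.2],
      fun e => (Sym2.eq_iff.1 e).resolve_right fun l => h.noinv g a b hab l.1 l.2⟩
  refine done_ac_all hG s1 (AfP.sys h hab h1 h2 hC) (k := k) fun y _ hy c hc e => ?_
  refine hk c _ _ (hy.trans (MinP.nn_le h hC y)) hc.1 ?_
  have := congrArg (fun v => y • v) (show (y⁻¹ * c * y) • a = a from e.1)
  simpa [mul_smul] using this

end Pool.Agent.Lib.MP_d98eb9_al.W.J
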