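import Pool.Agent.Lib.MP_d98eb9_al.J.St

/-! Bounds for directed separation. -/

namespace Pool.Agent.Lib.MP_d98eb9_al.W.J

open Gen SysA

variable {G : Type} [Group G] {Γ : Gen G} {C : Subgroup G} {X : Set G}

namespace BF

theorem nn_mul (h : Sys C X) (a b : G) : nn C X (a * b) ≤ nn C X a + nn C X b + 1 := by
  have e1 := card_S2 (C := C) (X := X) (a := 1) (b := a * b)
  have e2 := card_S2 (C := C) (X := X) (a := 1) (b := a)
  have e3 := card_S2 (C := C) (X := X) (a := a) (b := a * b)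
  rw [inv_one, one_mul] at e1 e2
  rw [inv_mul_cancel_left] at e3
  rw [← e1, ← e2, ← e3]
  have f := (fin_S2 h 1 a).union (fin_S2 h a (a * b))
  refine (Set.ncard_le_ncard (t := insert (a : G ⧸ C) (S2 C X 1 a ∪ S2 C X a (a * b))) ?_
    (f.insert _)).trans ((Set.ncard_insert_le _ _).trans
      (Nat.succ_le_succ (Set.ncard_union_le _ _)))
  rintro _ ⟨w, rfl, h1, h2, h3⟩
  by_cases e : w⁻¹ * a ∈ C
  · exact Or.inl (QuotientGroup.eq.mpr e)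
  by_cases k : w⁻¹ * 1 ∈ X ↔ w⁻¹ * a ∈ X
  · exact Or.inr (Or.inr ⟨w, rfl, e, h2, fun k' => h3 (k.trans k')⟩)
  · exact Or.inr (Or.inl ⟨w, rfl, h1, e, k⟩)

theorem tb_N (h : Sys C X) {A : Set G} (hA : TB C X A) (r : ℕ) : TB C X (Γ.N r A) := by
  obtain ⟨L, hL⟩ := hA
  obtain ⟨j, hj⟩ := ((Gen.ball_finite (Γ := Γ) 1 r).image (nn C X)).bddAbove
  refine ⟨L + j + 1, fun p ⟨a, ha, hd⟩ => ?_⟩
  have h1 := nn_mul h a (a⁻¹ * p)
  have h2 : nn C X (a⁻¹ * p) ≤ j := hj ⟨_, by rwa [d_eq] at hd, rfl⟩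
  have h3 := hL a ha
  rw [mul_inv_cancel_left] at h1
  omega

theorem sys_far (h : Sys C X) {y : G} (hy : y ∉ C) : Sys C (far C X y) := by
  rcases far_eq hy h.disj with e | e <;> rw [e]
  exacts [h, h.swap]

theorem nn_far (h : Sys C X) {y z : G} (hy : y ∉ C) (hz : z ∈ far C X y) :
    nn C X y < nn C X (y * z) ∧ nn C X z < nn C X (y * z) := by
  have hy' : y⁻¹ ∉ C := fun e => hy (C.inv_mem_iff.mp e)
  have h1 := h.nn_lt hz.1 hy' fun e => hz.2 e.symm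
  have h2 := h.nn_lt hy' hz.1 hz.2
  rw [← mul_inv_rev, h.nn_inv, h.nn_inv] at h1
  rw [inv_inv] at h2
  exact ⟨h1, h2⟩

theorem unb (h : Sys C X) (k : ℕ) : ∃ y ∈ X, k ≤ nn C X y := by
  induction k with
  | zero => exact h.ne.imp fun y hy => ⟨hy, Nat.zero_le _⟩
  | succ k ih =>
    obtain ⟨y, hy, hk⟩ := ih
    obtain ⟨z, hz⟩ := (sys_far h (h.disj y hy)).ne
    exact ⟨y * z, h.far_mem hy hz, hk.trans_lt (nn_far h (h.disj y hy) hz).1⟩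

theorem unb_far (h : Sys C X) {y : G} (hy : y ∉ C) (k : ℕ) : ∃ z ∈ far C X y, k ≤ nn C X z := by
  rcases far_eq hy h.disj with e | e <;> rw [e]
  · exact unb h k
  · simpa only [nn_opp] using unb h.swap k

theorem nn_Xb (h : Sys C X) {y p : G} (hy : y ∉ C) (hp : p ∈ Xb C X y) : nn C X y ≤ nn C X p := by
  rw [← mul_inv_cancel_left y p]
  rcases hp with hp | hp
  · rw [h.nn_right hp]
  · exact (nn_far h hy hp).1.le

/-- A closed side is coarsely connected. -/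
theorem rc_side (h : Sys C X) (hfg : C.FG) : ∃ ρ, Γ.RC ρ ((C : Set G) ∪ X) := by
  obtain ⟨r, hr⟩ := (fg_iff_rc (Γ := Γ)).mp hfg
  obtain ⟨t, ht⟩ := h.fr_near Γ
  refine ⟨r + t + 1, fun A hA => ?_⟩
  have key : ∀ p ∈ (C : Set G) ∪ X, ∃ c ∈ C, (p ∈ A ↔ c ∈ A) := by
    rintro p (hp | hp)
    · exact ⟨p, hp, Iff.rfl⟩
    have hW : Γ.Comp Xᶜ {q | Γ.Conn Xᶜ p q} := ⟨p, fun e => e hp, rfl⟩
    obtain ⟨b, ⟨q, hd, hn⟩, hb, -⟩ := exists_fr (Γ := Γ) (U := {q | Γ.Conn Xᶜ p q}) (q := 1)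
      (Conn.refl _ p) fun e => hW.out e fun k => h.disj 1 k C.one_mem
    have hbX : b ∈ X := not_not.mp (hW.out hb)
    obtain ⟨c, hc, hcb⟩ := ht (mem_fr hbX (hW.adj hb (by tauto) hd) hd)
    refine ⟨c, hc, Iff.trans ?_ ⟨hA b (Or.inr hbX) c (Or.inl hc) (by rw [d_comm]; omega),
      hA c (Or.inl hc) b (Or.inr hbX) (by omega)⟩⟩
    exact Conn.ind (P := fun x => p ∈ A ↔ x ∈ A) hb Iff.rfl fun a b ha hb hd e => e.trans
      ⟨hA a (Or.inr (not_not.mp ha)) b (Or.inr (not_not.mp hb)) (by omega),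
        hA b (Or.inr (not_not.mp hb)) a (Or.inr (not_not.mp ha)) (by rw [d_comm]; omega)⟩
  intro p hp q hq hpA
  obtain ⟨a, ha, e⟩ := key p hp
  obtain ⟨b, hb, e'⟩ := key q hq
  exact e'.mpr (hr A (fun x hx y hy hd => hA x (Or.inl hx) y (Or.inl hy) (by omega)) a ha b hb
    (e.mp hpA))

theorem rc_Xb (h : Sys C X) (hfg : C.FG) : ∃ ρ, ∀ y, y ∉ C → Γ.RC ρ (Xb C X y) := by
  obtain ⟨a, ha⟩ := rc_side (Γ := Γ) h hfg
  obtain ⟨b, hb⟩ := rc_side (Γ := Γ) h.swap hfg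
  refine ⟨a + b, fun y hy => RC.tr ?_ y⟩
  rcases far_eq hy h.disj with e | e <;> rw [e]
  exacts [ha.mono (by omega), hb.mono (by omega)]

theorem conn_rc {Z D : Set G} {r : ℕ} (h : Γ.RC r Z) (hD : ∀ x ∈ Z, x ∉ Γ.N r D) {p q : G}
    (hp : p ∈ Z) (hq : q ∈ Z) : Γ.Conn D p q :=
  h {x | Γ.Conn D p x} (fun x hx _ _ hd e => Conn.trans e (conn_of_d (hD x hx) hd)) p hp q hq
    (Conn.refl _ _)

/-- The part of a far side near an outside set is near the edge. -/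
theorem near_edge (h : Sys C X) {y : G} (hy : y ∉ C) {A : Set G} (hA : ∀ a ∈ A, a ∉ Xb C X y)
    (r : ℕ) : Γ.Near (Xb C X y ∩ Γ.N r A) (tr y C) := by
  obtain ⟨t, ht⟩ := (sys_far h hy).fr_near Γ
  refine ⟨t + r, fun p ⟨hp, a, ha, hd⟩ => ?_⟩
  rw [← tr_N]
  rcases hp with hp | hp
  · exact subset_N _ _ hp
  · exact N_N ht (mem_N_fr hp ⟨y⁻¹ * a, fun e => hA a ha (Or.inr e), by rwa [d_mul]⟩)

/-- The edge is near the part of its far side outside a bounded set. -/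
theorem edge_near (h : Sys C X) {y : G} (hy : y ∉ C) {B : Set G} (hB : TB C X B) :
    Γ.Near (tr y C) (Xb C X y \ B) := by
  obtain ⟨L, hL⟩ := hB
  obtain ⟨z, hz, hk⟩ := unb_far h hy L
  refine ⟨Γ.d 1 z, fun p hp => ?_⟩
  have h1 : y⁻¹ * p * z ∈ far C X y := (sys_far h hy).left _ hp z hz
  have h2 := (nn_far h hy h1).2
  rw [h.nn_left hp, mul_assoc, mul_inv_cancel_left] at h2
  refine ⟨p * z, ⟨Or.inr (by rwa [← mul_assoc]), fun e => ?_⟩, by rw [d_comm, d_mul_right]⟩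
  have := hL _ e
  omega

end BF

open BF

theorem bfp (Y : Geo Γ) : BFP Γ := by
  intro C A X h hfg hCA hA hfp hb
  obtain ⟨R, hR⟩ := Y.stable hA hfp fun ⟨r, hr⟩ => by
    obtain ⟨L, hL⟩ := tb_N (Γ := Γ) h hb r
    obtain ⟨y, -, hy⟩ := unb h (L + 1)
    exact absurd (hL y (hr (Set.mem_univ y))) (by omega)
  obtain ⟨ρ, hρ⟩ := rc_Xb (Γ := Γ) h hfg
  obtain ⟨L, hL⟩ := tb_N (Γ := Γ) h hb (R + ρ)
  refine ⟨L + 1, fun y hy => by_contra fun hn => hy.2 fun s => ?_⟩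
  have out : ∀ p ∈ Xb C X y, p ∉ Γ.N (R + ρ) A := fun p hp e => by
    have := hL p e
    have := nn_Xb h hy.1 hp
    omega
  obtain ⟨r, hr⟩ := hR s
  have hn := edge_near (Γ := Γ) h hy.1 (tb_N (Γ := Γ) h hb (r + s))
  obtain ⟨p, hp⟩ : (Xb C X y \ Γ.N (r + s) A).Nonempty := by
    obtain ⟨t, ht⟩ := hn
    obtain ⟨p, hp, -⟩ := ht (show y ∈ tr y C by simp)
    exact ⟨p, hp⟩
  have hsub : Xb C X y \ Γ.N (r + s) A ⊆ {q | Γ.Conn (Γ.N s C) p q} := fun q hq =>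
    (hr p q (fun e => hp.2 (N_mono (by omega) subset_rfl e))
      (fun e => hq.2 (N_mono (by omega) subset_rfl e))
      (conn_rc (hρ y hy.1) (fun x hx e => out x hx (N_N subset_rfl e)) hp.1 hq.1)).mono
        (N_mono le_rfl hCA)
  refine ⟨_, ⟨p, fun e => hp.2 (N_mono (by omega) hCA e), rfl⟩, Near.trans ?_
    (((near_edge h hy.1 (fun a ha e => out a e (subset_N _ _ ha)) (r + s)).trans
      (hn.trans (Near.of_subset hsub))).union (Near.of_subset hsub))⟩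
  exact Near.of_subset (Set.inter_union_sdiff _ _).ge

theorem BF.inter_finite {y : G} (hy : ∀ c ∈ C, y⁻¹ * c * y ∈ C → c = 1) (r : ℕ) :
    (Γ.N r C ∩ Γ.N r (tr y C)).Finite := by
  refine (((Gen.ball_finite (Γ := Γ) 1 r).prod (Gen.ball_finite (Γ := Γ) 1 r)).biUnion
    (t := fun g => {p | p * g.1⁻¹ ∈ C ∧ y⁻¹ * (p * g.2⁻¹) ∈ C})
    fun g _ => Set.Subsingleton.finite fun p hp q hq => ?_).subset ?_
  · have h1 := C.mul_mem hp.1 (C.inv_mem hq.1)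
    have h2 := C.mul_mem hp.2 (C.inv_mem hq.2)
    rw [show p * g.1⁻¹ * (q * g.1⁻¹)⁻¹ = p * q⁻¹ by group] at h1
    rw [show y⁻¹ * (p * g.2⁻¹) * (y⁻¹ * (q * g.2⁻¹))⁻¹ = y⁻¹ * (p * q⁻¹) * y by group] at h2
    exact mul_inv_eq_one.mp (hy _ h1 h2)
  · rintro p ⟨⟨a, ha, hd⟩, b, hb, hd'⟩
    rw [d_eq] at hd hd'
    exact Set.mem_biUnion (x := (a⁻¹ * p, b⁻¹ * p)) ⟨hd, hd'⟩
      ⟨by simpa using ha, by simpa using hb⟩

theorem BF.not_mem_Xb (h : Sys C X) {y c : G} (hy : y ∉ C) (hc : c ∈ C) : c ∉ Xb C X y := by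
  rintro (e | e)
  · exact hy (C.inv_mem_iff.mp ((C.mul_mem_cancel_right hc).mp e))
  · exact e.2 (h.right_iff hc).symm

theorem bac (Y : Geo Γ) : BAC Γ := by
  intro C X k h hfg hoe hk
  refine ⟨k, fun y hy => by_contra fun hn => hy.2 fun s => ?_⟩
  have fin : ∀ {B : Set G}, Γ.Near B C → Γ.Near B (tr y C) → B.Finite := fun ⟨a, ha⟩ ⟨b, hb⟩ =>
    (inter_finite (Γ := Γ) (hk y (not_lt.mp hn)) (a + b)).subset fun p hp =>
      ⟨N_mono (by omega) subset_rfl (ha hp), N_mono (by omega) subset_rfl (hb hp)⟩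
  have fC : ∀ t, (tr y C ∩ Γ.N t C).Finite := fun t =>
    fin ⟨t, Set.inter_subset_right⟩ (Near.of_subset Set.inter_subset_left)
  have cl : ∀ {p q : G} {t : ℕ}, p ∉ Γ.N (s + t) C → Γ.d p q ≤ t → Γ.Conn (Γ.N s C) p q :=
    fun hp hd => conn_of_d (fun e => hp (N_N subset_rfl e)) hd
  obtain ⟨r, hr⟩ := (fg_iff_rc (Γ := Γ)).mp hfg
  have hO := (oes_iff (Γ := Γ).mpr hoe).tr y
  obtain ⟨P, hP⟩ := hO.ae_const (hr.tr y) (fun p => {q | Γ.Conn (Γ.N s C) p q}) fun t =>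
    (fC (s + t)).subset fun p ⟨hp, q, _, hd, hne⟩ => ⟨hp, by_contra fun e => hne (Set.ext fun _ =>
      ⟨fun k => (cl e hd).symm.trans k, fun k => (cl e hd).trans k⟩)⟩
  obtain ⟨p, hp, hp'⟩ := hO.1.exists_notMem_finite (hP.union (fC s))
  have e : {q | Γ.Conn (Γ.N s C) p q} = P := by_contra fun e => hp' (Or.inl ⟨hp, e⟩)
  have hc : Γ.Comp (Γ.N s C) P := ⟨p, fun k => hp' (Or.inr ⟨hp, k⟩), e.symm⟩
  obtain ⟨t, ht⟩ := near_edge (Γ := Γ) h hy.1 (A := (Xb C X y)ᶜ) (fun _ ha => ha) 1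
  have f1 : (Xb C X y ∩ Γ.N s C).Finite := fin ⟨s, Set.inter_subset_right⟩
    (near_edge h hy.1 (fun c hc => not_mem_Xb h hy.1 hc) s)
  have f2 : (Xb C X y \ P).Finite := by
    refine (OE.finite_of_fr (Γ := Γ) Y.oe ((f1.union (N_finite (Γ := Γ)
      (hP.union (fC (s + t))) t)).subset ?_)).resolve_right fun hf =>
        hoe.1 (hf.subset fun c hc k => not_mem_Xb h hy.1 hc k.1)
    rintro a ⟨ha, b, hd, hab⟩
    by_cases hb : b ∈ Xb C X y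
    · have hbP : b ∈ P := by_contra fun k => hab (iff_of_true ha ⟨hb, k⟩)
      exact Or.inl ⟨ha.1, hc.adj hbP ha.2 (by rwa [d_comm])⟩
    obtain ⟨c, hcy, hca⟩ := ht ⟨ha.1, b, hb, by rwa [d_comm]⟩
    refine Or.inr ⟨c, by_contra fun k => ha.2 ?_, hca⟩
    have e1 : {q | Γ.Conn (Γ.N s C) c q} = P := by_contra fun e => k (Or.inl ⟨hcy, e⟩)
    exact e1.le (cl (fun e => k (Or.inr ⟨hcy, e⟩)) hca)
  obtain ⟨l, hl⟩ := bdd_of_finite (Γ := Γ) f2 p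
  refine ⟨P, hc, l, fun q hq => ?_⟩
  by_cases hqP : q ∈ P
  · exact subset_N _ _ hqP
  · exact ⟨p, e.le (Conn.refl _ _), hl q ⟨hq, hqP⟩⟩

end Pool.Agent.Lib.MP_d98eb9_al.W.J
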