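import Pool.Agent.Lib.MP_d98eb9_al.J.St

/-! Basic lemmas on far sides, bounded sets and ends. -/

namespace Pool.Agent.Lib.MP_d98eb9_al.W.J

open Gen SysA Pool.Agent.Lib.MP_1d6a3f_al

variable {G : Type} [Group G] {Γ : Gen G} {C : Subgroup G} {X A D D' Y Y' Y1 Y2 Y3 Z Z' P Q U : Set G}
  {x y z c : G}

theorem nn_mul (h : Sys C X) (a b : G) : nn C X (a * b) ≤ nn C X a + nn C X b + 1 := by
  have e : S2 C X 1 (a * b) ⊆ insert (a : G ⧸ C) (S2 C X 1 a ∪ S2 C X a (a * b)) := by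
    rintro _ ⟨w, rfl, h1, h2, h3⟩
    by_cases hw : w⁻¹ * a ∈ C
    · exact Or.inl (QuotientGroup.eq.mpr hw)
    by_cases e : w⁻¹ * 1 ∈ X ↔ w⁻¹ * a ∈ X
    · exact Or.inr (Or.inr ⟨w, rfl, hw, h2, fun e' => h3 (e.trans e')⟩)
    · exact Or.inr (Or.inl ⟨w, rfl, h1, hw, e⟩)
  have h1 := Set.ncard_le_ncard e (((fin_S2 h 1 a).union (fin_S2 h a (a * b))).insert _)
  have h2 := Set.ncard_insert_le (a : G ⧸ C) (S2 C X 1 a ∪ S2 C X a (a * b))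
  have h3 := Set.ncard_union_le (S2 C X 1 a) (S2 C X a (a * b))
  rw [card_S2] at h1
  rw [card_S2, card_S2] at h3
  simp only [inv_one, one_mul, inv_mul_cancel_left] at h1 h3
  omega

theorem TB.near (h : Sys C X) (hD : TB C X D) (hA : Γ.Near A D) : TB C X A := by
  obtain ⟨L, hL⟩ := hD
  obtain ⟨r, hr⟩ := hA
  obtain ⟨j, hj⟩ := ((Gen.ball_finite (Γ := Γ) 1 r).image (nn C X)).bddAbove
  refine ⟨L + j + 1, fun a ha => ?_⟩
  obtain ⟨b, hb, hd⟩ := hr ha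
  have h1 := nn_mul h b (b⁻¹ * a)
  have h2 := hL b hb
  have h3 : nn C X (b⁻¹ * a) ≤ j := hj ⟨_, by rwa [d_eq] at hd, rfl⟩
  rw [mul_inv_cancel_left] at h1
  omega

theorem TB.mono (hD : TB C X D) (hA : A ⊆ D) : TB C X A := hD.imp fun _ h a ha => h a (hA ha)

theorem TB.N (h : Sys C X) (hD : TB C X D) (r : ℕ) : TB C X (Γ.N r D) := hD.near h (near_N r D)

theorem TB.tr (h : Sys C X) (hD : TB C X D) (g : G) : TB C X (tr g D) := by
  obtain ⟨L, hL⟩ := hD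
  refine ⟨nn C X g + L + 1, fun a ha => ?_⟩
  have h1 := nn_mul h g (g⁻¹ * a)
  have h2 := hL _ ha
  rw [mul_inv_cancel_left] at h1
  omega

theorem TB.union (h1 : TB C X A) (h2 : TB C X D) : TB C X (A ∪ D) := by
  obtain ⟨a, ha⟩ := h1
  obtain ⟨b, hb⟩ := h2
  exact ⟨a + b, fun p hp => hp.elim (fun e => (ha p e).trans (by omega))
    fun e => (hb p e).trans (by omega)⟩

theorem tb_base (h : Sys C X) : TB C X C :=
  ⟨nn C X 1, fun c hc => by rw [← h.nn_right hc 1, one_mul]⟩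

theorem tb_coset (h : Sys C X) (y : G) : TB C X (tr y C) := (tb_base h).tr h y

theorem tb_opp : TB C (opp C X) A ↔ TB C X A := by simp only [TB, nn_opp]

theorem not_near (h : Sys C X) (hD : TB C X D) (hY : ¬ TB C X Y) : ¬ Γ.Near Y D :=
  fun e => hY (hD.near h e)

theorem mem_Xb : y ∈ Xb C X x ↔ x⁻¹ * y ∈ C ∨ x⁻¹ * y ∈ far C X x := Iff.rfl

theorem self_mem_Xb (x : G) : x ∈ Xb C X x := Or.inl (by simp [C.one_mem])

theorem coset_sub_Xb (x : G) : tr x (C : Set G) ⊆ Xb C X x := fun _ h => Or.inl h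

theorem mul_mem_Xb (hz : z ∈ far C X x) : x * z ∈ Xb C X x := Or.inr (by simpa using hz)

theorem Xb_not_mem (h : Sys C X) (hx : x ∉ C) (hy : y ∈ Xb C X x) : y ∉ C := by
  rcases hy with hy | hy
  · exact fun e => hx (by simpa using C.mul_mem e (C.inv_mem hy))
  · simpa using h.not_mem hy.2

theorem far_left (h : Sys C X) (hc : c ∈ C) : c * z ∈ far C X x ↔ z ∈ far C X x := by
  simp only [far, Set.mem_ofPred_eq, C.mul_mem_cancel_left hc, h.left_iff hc]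

theorem far_right' (h : Sys C X) (hc : c ∈ C) : z * c ∈ far C X x ↔ z ∈ far C X x := by
  simp only [far, Set.mem_ofPred_eq, C.mul_mem_cancel_right hc, h.right_iff hc]

theorem Xb_right (h : Sys C X) (hc : c ∈ C) : Xb C X (x * c) = Xb C X x := by
  ext p
  rw [mem_Xb, mem_Xb, h.far_right hc, mul_inv_rev, mul_assoc, far_left h (C.inv_mem hc),
    C.mul_mem_cancel_left (C.inv_mem hc)]

theorem mem_Xb_right (h : Sys C X) (hc : c ∈ C) : y * c ∈ Xb C X x ↔ y ∈ Xb C X x := by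
  rw [mem_Xb, mem_Xb, ← mul_assoc, far_right' h hc, C.mul_mem_cancel_right hc]

theorem Xb_sub (h : Sys C X) (hx : x ∉ C) (hy : y ∈ Xb C X x) : Xb C X y ⊆ Xb C X x := by
  obtain ⟨z, rfl⟩ : ∃ z, y = x * z := ⟨x⁻¹ * y, by simp⟩
  rw [mem_Xb, inv_mul_cancel_left] at hy
  rcases hy with hy | hy
  · exact (Xb_right h hy).le
  intro w hw
  obtain ⟨u, rfl⟩ : ∃ u, w = x * z * u := ⟨(x * z)⁻¹ * w, by group⟩
  rw [mem_Xb, inv_mul_cancel_left] at hw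
  rw [mul_assoc]
  exact mul_mem_Xb (hw.elim (fun e => (far_right' h e).mpr hy) fun e => h.far_far hx hy e)

theorem Xb_sub_X (h : Sys C X) (hx : x ∈ X) : Xb C X x ⊆ X := fun y hy => by
  rcases hy with hy | hy
  · simpa using h.right _ hy x hx
  · simpa using h.far_mem hx hy

theorem far_opp (hx : x ∉ C) : far C (opp C X) x = far C X x := by
  have : x⁻¹ ∉ C := fun e => hx (C.inv_mem_iff.mp e)
  ext z
  simp only [far, opp, Set.mem_ofPred_eq]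
  tauto

theorem Xb_opp (hx : x ∉ C) : Xb C (opp C X) x = Xb C X x := by rw [Xb, Xb, far_opp hx]

theorem Xb_sub_opp (h : Sys C X) (hx : x ∈ opp C X) : Xb C X x ⊆ opp C X :=
  Xb_opp (X := X) hx.1 ▸ Xb_sub_X h.swap hx

theorem Xb_tr (e : y⁻¹ ∈ X ↔ y⁻¹ * x ∈ X) : tr x (Xb C X (x⁻¹ * y)) = Xb C X y := by
  rw [Xb, Xb, tr_tr, mul_inv_cancel_left]
  simp only [far, mul_inv_rev, inv_inv, e]

theorem Xb_left (h : Sys C X) (hc : c ∈ C) : tr c (Xb C X x) = Xb C X (c * x) := by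
  have := Xb_tr (C := C) (X := X) (x := c) (y := c * x) (h.right_iff hc).symm
  rwa [inv_mul_cancel_left] at this

/-- The far side of an edge beyond `xC`. -/
theorem Xb_far (h : Sys C X) (hx : x ∉ C) (hz : z ∈ far C X x) :
    tr x (Xb C X z) = Xb C X (x * z) := by
  have := Xb_tr (C := C) (X := X) (x := x) (y := x * z) (by
    have := h.nest z x⁻¹ hz.1 (fun e => hx (C.inv_mem_iff.mp e)) fun e => hz.2 e.symm
    simpa [mul_assoc] using this)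
  rwa [inv_mul_cancel_left] at this

theorem Xb_of_mem (hx : x⁻¹ ∈ X) : Xb C X x = tr x Xᶜ ∪ tr x C := by
  ext p
  simp only [mem_Xb, far, Set.mem_ofPred_eq, Set.mem_union, mem_tr, Set.mem_compl_iff,
    SetLike.mem_coe]
  tauto

theorem Xb_of_mem' (h : Sys C X) (hx : x⁻¹ ∈ X) : Xb C X x = tr x Xᶜ := by
  rw [Xb_of_mem hx]
  exact Set.union_eq_left.mpr fun p hp e => h.disj _ e hp

theorem Xb_of_not_mem (hx : x⁻¹ ∉ X) : Xb C X x = tr x (opp C X)ᶜ := by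
  ext p
  simp only [mem_Xb, far, opp, Set.mem_ofPred_eq, mem_tr, Set.mem_compl_iff]
  tauto

theorem stab_Xb (h : Sys C X) {k : G} (hk : tr k (tr x (C : Set G)) = tr x C) :
    tr k (Xb C X x) = Xb C X x := by
  have h1 : x⁻¹ * k * x ∈ C := by
    have : k * x ∈ tr k (tr x (C : Set G)) := by simp [C.one_mem]
    rw [hk] at this
    simpa [mul_assoc] using this
  ext p
  have e : x⁻¹ * p = x⁻¹ * k * x * (x⁻¹ * (k⁻¹ * p)) := by group
  rw [mem_tr, mem_Xb, mem_Xb, e, far_left h h1, C.mul_mem_cancel_left h1]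

theorem fr_Xb (h : Sys C X) (x : G) : Γ.Near (Γ.fr (Xb C X x)) (tr x C) := by
  by_cases hx : x⁻¹ ∈ X
  · rw [Xb_of_mem' h hx, ← tr_fr, fr_compl]
    exact (h.fr_near Γ).tr x
  · rw [Xb_of_not_mem hx, ← tr_fr, fr_compl]
    exact (h.swap.fr_near Γ).tr x

theorem nn_far (h : Sys C X) (hx : x ∉ C) (hz : z ∈ far C X x) : nn C X x < nn C X (x * z) := by
  have h1 := h.nn_lt hz.1 (fun e => hx (C.inv_mem_iff.mp e)) fun e => hz.2 e.symm
  rwa [← mul_inv_rev, h.nn_inv, h.nn_inv] at h1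

/-- Bounded steps that lead away from the base edge. -/
theorem exists_step (h : Sys C X) (Γ : Gen G) :
    ∃ κ, ∀ p, ∃ z ∈ far C X p, Γ.d p (p * z) ≤ κ := by
  obtain ⟨a, ha⟩ := h.ne
  obtain ⟨b, hb⟩ := h.ne'
  refine ⟨Γ.d 1 a + Γ.d 1 b, fun p => ?_⟩
  by_cases hp : p⁻¹ ∈ X
  · exact ⟨b, ⟨hb.1, fun e => hb.2 (e.mp hp)⟩, by rw [d_mul_right]; omega⟩
  · exact ⟨a, ⟨h.disj a ha, fun e => hp (e.mpr ha)⟩, by rw [d_mul_right]; omega⟩

/-- Every point is close to an unbounded component inside its far side. -/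
theorem walk (h : Sys C X) (hZ : TB C X Z) : ∃ c, ∀ p, p ∉ C → ∃ p' ∈ Xb C X p, Γ.d p p' ≤ c ∧
    p' ∉ Z ∧ ¬ TB C X (Xb C X p ∩ {q | Γ.Conn Z p' q}) := by
  obtain ⟨κ, hκ⟩ := exists_step h Γ
  choose σ h1 h2 using hκ
  obtain ⟨L, hL⟩ := hZ.N (Γ := Γ) h κ
  refine ⟨(L + 1) * κ, fun p hp => ?_⟩
  let f : ℕ → G := fun k => (fun q => q * σ q)^[k] p
  have hf : ∀ k, f (k + 1) = f k * σ (f k) := fun k => Function.iterate_succ_apply' _ _ _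
  have key : ∀ k, f k ∈ Xb C X p ∧ k ≤ nn C X (f k) ∧ Γ.d p (f k) ≤ k * κ := fun k => by
    induction k with
    | zero => exact ⟨self_mem_Xb p, Nat.zero_le _, by simp [f]⟩
    | succ k ih =>
      have h3 := nn_far h (Xb_not_mem h hp ih.1) (h1 (f k))
      have h4 := d_tri (Γ := Γ) p (f k) (f k * σ (f k))
      have h5 := h2 (f k)
      rw [hf]
      exact ⟨Xb_sub h hp ih.1 (mul_mem_Xb (h1 _)), by omega, by rw [Nat.succ_mul]; omega⟩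
  have out : ∀ k, f (L + 1 + k) ∉ Γ.N κ Z := fun k e => by
    have := hL _ e
    have := (key (L + 1 + k)).2.1
    omega
  have con : ∀ k, Γ.Conn Z (f (L + 1)) (f (L + 1 + k)) := fun k => by
    induction k with
    | zero => exact Conn.refl _ _
    | succ k ih => exact ih.trans (conn_of_d (out k) (by rw [← add_assoc, hf]; exact h2 _))
  refine ⟨f (L + 1), (key _).1, (key _).2.2, fun e => out 0 (subset_N _ _ e), fun ⟨M, hM⟩ => ?_⟩
  have := hM _ ⟨(key (L + 1 + M)).1, con M⟩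
  have := (key (L + 1 + M)).2.1
  omega

theorem not_tb_Xb (h : Sys C X) (Γ : Gen G) (hx : x ∉ C) : ¬ TB C X (Xb C X x) := by
  obtain ⟨c, hc⟩ := walk (Γ := Γ) (Z := ∅) h ⟨0, by simp⟩
  obtain ⟨_, -, -, -, e⟩ := hc x hx
  exact fun e' => e (e'.mono Set.inter_subset_left)

theorem comp_side (h : Γ.Comp Z P) (hU : Γ.fr U ⊆ Z) : P ⊆ U ∨ P ⊆ Uᶜ := by
  by_cases h1 : ∃ p ∈ P, p ∈ U
  · obtain ⟨p, hp, hpU⟩ := h1
    exact Or.inl fun q hq => Conn.mem ((h.eq hp).le hq) (fun x hx => hU hx.2) hpU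
  · exact Or.inr fun q hq hU => h1 ⟨q, hq, hU⟩

theorem comp_up (h : Γ.Comp Z P) (hZ : ∀ p ∈ P, p ∉ Z') : ∃ Q, Γ.Comp Z' Q ∧ P ⊆ Q := by
  obtain ⟨p, hp⟩ := h.ne
  exact ⟨_, ⟨p, hZ p hp, rfl⟩, fun q hq => (h.conn hp hq).mono fun x hx e => hZ x e hx⟩

theorem comp_up' {r s : ℕ} (h : Γ.Comp (Γ.N s D) P) (hrs : r ≤ s) :
    ∃ Q, Γ.Comp (Γ.N r D) Q ∧ P ⊆ Q :=
  comp_up h fun _ hp e => h.out hp (N_mono hrs subset_rfl e)

theorem near_two (h : Γ.Comp Z P) (h' : Γ.Comp Z Q) (hne : P ≠ Q) (h1 : Γ.Near A P)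
    (h2 : Γ.Near A Q) : Γ.Near A Z :=
  (h1.fr (h2.trans (Near.of_subset fun _ hq hp => hne (h.disj h' hp hq)))).trans ⟨1, h.fr_subset⟩

theorem comp_uniq {s : ℕ} (h : Γ.Comp (Γ.N s D) P) (h' : Γ.Comp (Γ.N s D) Q) (hA : ¬ Γ.Near A D)
    (h1 : Γ.Near A P) (h2 : Γ.Near A Q) : P = Q :=
  by_contra fun hne => hA ((near_two h h' hne h1 h2).trans (near_N _ _))

/-- The components that carry a deep set are nested. -/
theorem comp_sub {r s : ℕ} (h : Γ.Comp (Γ.N s D) P) (h' : Γ.Comp (Γ.N r D) Q) (hrs : r ≤ s)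
    (hA : ¬ Γ.Near A D) (h1 : Γ.Near A P) (h2 : Γ.Near A Q) : P ⊆ Q := by
  obtain ⟨Q', a, b⟩ := comp_up' h hrs
  exact comp_uniq a h' hA (h1.trans (Near.of_subset b)) h2 ▸ b

theorem End1.mono (h : End1 Γ D Y) (hY : Γ.Near Y' Y) : End1 Γ D Y' :=
  fun s => (h s).imp fun _ e => ⟨e.1, hY.trans e.2⟩

theorem End1.sub (h : End1 Γ D Y) (hY : Y' ⊆ Y) : End1 Γ D Y' := h.mono (Near.of_subset hY)

theorem End1.mon0 (h : End1 Γ D Y) (hD : Γ.Near D' D) : End1 Γ D' Y := fun t => by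
  obtain ⟨a, ha⟩ := hD
  obtain ⟨P, h1, h2⟩ := h (a + t)
  obtain ⟨Q, h3, h4⟩ := comp_up (Z' := Γ.N t D') h1 fun p hp e => h1.out hp (N_N ha e)
  exact ⟨Q, h3, h2.trans (Near.of_subset h4)⟩

/-- Monotonicity and the separation lemma. -/
theorem End1.mon (h : End1 Γ D Y) (hY : ¬ Γ.Near Y D) (hU : Γ.Near (Γ.fr U) D) (h1 : Γ.Near Y U)
    (h2 : Γ.Near D' Uᶜ) : End1 Γ D' Y := fun t => by
  obtain ⟨a, ha⟩ := h2
  obtain ⟨b, hb⟩ := hU
  obtain ⟨P, h3, h4⟩ := h (b + (a + t))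
  have h5 : P ⊆ U := (comp_side h3 (hb.trans (N_mono (by omega) subset_rfl))).resolve_right
    fun e => hY ((h1.fr (h4.trans (Near.of_subset e))).trans ⟨b, hb⟩)
  obtain ⟨Q, h6, h7⟩ := comp_up (Z' := Γ.N t D') h3 fun p hp e =>
    h3.out hp (N_N hb (mem_N_fr (h5 hp) (N_N ha e)))
  exact ⟨Q, h6, h4.trans (Near.of_subset h7)⟩

theorem End1.tr (h : End1 Γ D Y) (g : G) : End1 Γ (tr g D) (tr g Y) := fun s => by
  obtain ⟨P, h1, h2⟩ := h s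
  exact ⟨_, tr_N (Γ := Γ) g s D ▸ h1.tr g, h2.tr g⟩

theorem End1.two (h1 : End1 Γ D Y1) (h2 : End1 Γ D Y2) (h : ¬ End1 Γ D (Y1 ∪ Y2)) :
    ∃ s P Q, Γ.Comp (Γ.N s D) P ∧ Γ.Comp (Γ.N s D) Q ∧ P ≠ Q ∧ Γ.Near Y1 P ∧ Γ.Near Y2 Q := by
  by_contra hn
  refine h fun s => ?_
  obtain ⟨P, a, b⟩ := h1 s
  obtain ⟨Q, c, d⟩ := h2 s
  obtain rfl : P = Q := by_contra fun e => hn ⟨s, P, Q, a, c, e, b, d⟩
  exact ⟨P, a, b.union d⟩

theorem End1.trans (h1 : End1 Γ D (Y1 ∪ Y2)) (h2 : End1 Γ D (Y2 ∪ Y3)) (h : ¬ Γ.Near Y2 D) :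
    End1 Γ D (Y1 ∪ Y3) := fun s => by
  obtain ⟨P, a, b⟩ := h1 s
  obtain ⟨Q, c, d⟩ := h2 s
  obtain rfl := comp_uniq a c h ((Near.of_subset Set.subset_union_right).trans b)
    ((Near.of_subset Set.subset_union_left).trans d)
  exact ⟨P, a, ((Near.of_subset Set.subset_union_left).trans b).union
    ((Near.of_subset Set.subset_union_right).trans d)⟩

/-- The separation lemma for two different ends. -/
theorem End1.sep {s : ℕ} (h : End1 Γ D Y2) (hY : ¬ Γ.Near Y2 D) (hP : Γ.Comp (Γ.N s D) P)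
    (hQ : Γ.Comp (Γ.N s D) Q) (hne : P ≠ Q) (h1 : Γ.Near D' P) (h2 : Γ.Near Y2 Q) :
    End1 Γ D' Y2 :=
  h.mon hY (Near.trans ⟨1, hQ.fr_subset⟩ (near_N _ _)) h2
    (h1.trans (Near.of_subset fun _ hp hq => hne (hP.disj hQ hp hq)))

/-- Uniformity. -/
theorem unif (h : Sys C X) (hD : TB C X D) (s : ℕ) : ∃ c, ∀ p, p ∉ C → ∀ P,
    Γ.Comp (Γ.N s D) P → Γ.Near (Xb C X p) P → p ∈ Γ.N c P := by
  obtain ⟨c, hc⟩ := walk (Γ := Γ) h (hD.N (Γ := Γ) h s)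
  refine ⟨c, fun p hp P h1 h2 => ?_⟩
  obtain ⟨q, -, a, b, e⟩ := hc p hp
  obtain rfl := comp_uniq h1 ⟨q, b, rfl⟩ (not_near h hD e)
    ((Near.of_subset Set.inter_subset_left).trans h2) (Near.of_subset Set.inter_subset_right)
  exact ⟨q, Conn.refl _ _, by rwa [d_comm]⟩

theorem End1.uni (h : Sys C X) (hD : TB C X D) (hY : ∀ p ∈ Y, p ∉ C) (hne : Y.Nonempty)
    (he : ∀ p ∈ Y, ∀ q ∈ Y, End1 Γ D (Xb C X p ∪ Xb C X q)) : End1 Γ D Y := fun s => by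
  obtain ⟨p, hp⟩ := hne
  obtain ⟨P, a, b⟩ := he p hp p hp s
  obtain ⟨c, hc⟩ := unif (Γ := Γ) h hD s
  refine ⟨P, a, c, fun q hq => ?_⟩
  obtain ⟨Q, a', b'⟩ := he p hp q hq s
  obtain rfl := comp_uniq a a' (not_near h hD (not_tb_Xb h Γ (hY p hp)))
    ((Near.of_subset Set.subset_union_left).trans b)
    ((Near.of_subset Set.subset_union_left).trans b')
  exact hc q (hY q hq) P a ((Near.of_subset Set.subset_union_right).trans b')

/-- Deep points have unbounded far sides inside their component. -/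
theorem deep_pt (h : Sys C X) (hD : TB C X D) (t : ℕ) : ∃ c, ∀ P, Γ.Comp (Γ.N t D) P → ∀ p ∈ P,
    p ∉ C → p ∉ Γ.N c D → ¬ TB C X (Xb C X p ∩ P) := by
  obtain ⟨c, hc⟩ := walk (Γ := Γ) h (hD.N (Γ := Γ) h t)
  refine ⟨t + c, fun P hP p hp h1 h2 => ?_⟩
  obtain ⟨q, -, a, b, e⟩ := hc p h1
  have h3 : q ∈ P := (hP.eq hp).ge (conn_of_d (fun e' => h2 (N_N subset_rfl e')) a)
  rwa [← hP.eq h3] at e

theorem deep_not_tb (h : Sys C X) {t : ℕ} (hP : Γ.Comp (Γ.N t C) P) (hx : x ∉ C)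
    (hd : ¬ Γ.Near (Xb C X x ∩ P) C) : ¬ TB C X (Xb C X x ∩ P) := by
  obtain ⟨c, hc⟩ := deep_pt (Γ := Γ) h (tb_base h) t
  obtain ⟨p, hp, e⟩ := Set.not_subset.mp fun e => hd ⟨c, e⟩
  exact fun e' => hc P hP p hp.2 (Xb_not_mem h hx hp.1) e
    (e'.mono (Set.inter_subset_inter_left _ (Xb_sub h hx hp.1)))

theorem deep_edge (h : Sys C X) {t : ℕ} (hP : Γ.Comp (Γ.N t C) P) (hd : ¬ Γ.Near P C) :
    ∃ z ∈ P, ¬ Γ.Near (Xb C X z ∩ P) C := by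
  obtain ⟨c, hc⟩ := deep_pt (Γ := Γ) h (tb_base h) t
  obtain ⟨p, hp, e⟩ := Set.not_subset.mp fun e => hd ⟨c, e⟩
  exact ⟨p, hp, not_near h (tb_base h) (hc P hP p hp (fun e' => e (subset_N _ _ e')) e)⟩

/-- A deep intersection stays deep in one component of every larger level. -/
theorem deeper (h : Sys C X) {t s : ℕ} (hP : Γ.Comp (Γ.N t C) P) (hx : x ∉ C) (hts : t ≤ s)
    (hd : ¬ Γ.Near (Xb C X x ∩ P) C) :
    ∃ Q, Γ.Comp (Γ.N s C) Q ∧ Q ⊆ P ∧ ¬ Γ.Near (Xb C X x ∩ Q) C := by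
  obtain ⟨c, hc⟩ := deep_pt (Γ := Γ) h (tb_base h) s
  obtain ⟨p, hp, e⟩ := Set.not_subset.mp fun e => hd ⟨s + c, e⟩
  have hQ : Γ.Comp (Γ.N s C) _ := ⟨p, fun e' => e (N_mono (by omega) subset_rfl e'), rfl⟩
  obtain ⟨P', a, b⟩ := comp_up' hQ hts
  obtain rfl := a.disj hP (b (Conn.refl _ _)) hp.2
  exact ⟨_, hQ, b, not_near h (tb_base h) fun e' => hc _ hQ p (Conn.refl _ _)
    (Xb_not_mem h hx hp.1) (fun e'' => e (N_mono (by omega) subset_rfl e''))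
      (e'.mono (Set.inter_subset_inter_left _ (Xb_sub h hx hp.1)))⟩

/-- Every edge is deep in a component of every level, and close to it. -/
theorem exists_deep (h : Sys C X) (t : ℕ) : ∃ c, ∀ x, x ∉ C → ∃ P, Γ.Comp (Γ.N t C) P ∧
    ¬ Γ.Near (Xb C X x ∩ P) C ∧ ∃ p ∈ Xb C X x ∩ P, Γ.d x p ≤ c := by
  obtain ⟨c, hc⟩ := walk (Γ := Γ) h ((tb_base h).N (Γ := Γ) h t)
  refine ⟨c, fun x hx => ?_⟩
  obtain ⟨q, a, b, d, e⟩ := hc x hx
  exact ⟨_, ⟨q, d, rfl⟩, not_near h (tb_base h) e, q, ⟨a, Conn.refl _ _⟩, b⟩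

/-- Points of a component that are near `D` are near its frontier. -/
theorem near_fr {s : ℕ} (hP : Γ.Comp (Γ.N s D) P) (a : ℕ) : P ∩ Γ.N a D ⊆ Γ.N a (Γ.fr P) :=
  fun _ hp => mem_N_fr hp.1 (N_mono le_rfl (fun _ hq e => hP.out e (subset_N _ _ hq)) hp.2)

theorem fixE_of_end {K : Subgroup G} (h : End1 Γ D Y) (hY : ¬ Γ.Near Y D)
    (hK : ∀ k ∈ K, tr k D = D ∧ tr k Y = Y) (hn : Γ.Near K D) : ∃ P : ℕ → Set G, ∀ r,
      (Γ.Comp (Γ.N r K) (P r) ∧ P (r + 1) ⊆ P r ∧ ∀ k ∈ K, tr k (P r) = P r) ∧ Γ.Near Y (P r) := by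
  choose P h1 h2 using h.mon0 hn
  have hY' : ¬ Γ.Near Y K := fun e => hY (e.trans hn)
  refine ⟨P, fun r => ⟨⟨h1 r, comp_sub (h1 _) (h1 _) (Nat.le_succ r) hY' (h2 _) (h2 _),
    fun k hk => ?_⟩, h2 r⟩⟩
  have a := (h1 r).tr k
  have b := (h2 r).tr k
  rw [tr_N, tr_subgroup hk] at a
  rw [(hK k hk).2] at b
  exact comp_uniq a (h1 r) hY' b (h2 r)

theorem fixE_of_end' {K : Subgroup G} (h : End1 Γ K Y) (hY : ¬ Γ.Near Y K)
    (hK : ∀ k ∈ K, tr k Y = Y) : FixE Γ K :=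
  (fixE_of_end h hY (fun k hk => ⟨tr_subgroup hk, hK k hk⟩) (Near.refl _)).imp fun _ e r => (e r).1

theorem FixE.mono {K K' : Subgroup G} (h : FixE Γ K) (hK : K' ≤ K) : FixE Γ K' := by
  obtain ⟨P, hP⟩ := h
  choose Q h1 h2 using fun r => comp_up (Z' := Γ.N r K') (hP r).1
    fun p hp e => (hP r).1.out hp (N_mono le_rfl hK e)
  refine ⟨Q, fun r => ⟨h1 r, ?_, fun k hk => ?_⟩⟩
  · obtain ⟨Q', a, b⟩ := comp_up' (h1 (r + 1)) (Nat.le_succ r)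
    obtain ⟨p, hp⟩ := (hP (r + 1)).1.ne
    exact a.disj (h1 r) (b (h2 _ hp)) (h2 _ ((hP r).2.1 hp)) ▸ b
  · have a := (h1 r).tr k
    rw [tr_N, tr_subgroup hk] at a
    obtain ⟨p, hp⟩ := (hP r).1.ne
    exact a.disj (h1 r) (tr_mono k (h2 r) (((hP r).2.2 k (hK hk)).ge hp)) (h2 r hp)

theorem near_inf {J J' : Subgroup G} (h : Γ.Near A J) (h' : Γ.Near A J') :
    Γ.Near A (J ⊓ J' : Subgroup G) := by
  classical
  obtain ⟨r, hr⟩ := h
  obtain ⟨s, hs⟩ := h'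
  have hex : ∀ b : G × G, ∃ t : G, ∀ a, a * b.1⁻¹ ∈ J → a * b.2⁻¹ ∈ J' → a * t⁻¹ ∈ J ⊓ J' := by
    intro b
    by_cases e : ∃ a, a * b.1⁻¹ ∈ J ∧ a * b.2⁻¹ ∈ J'
    · obtain ⟨t, h1, h2⟩ := e
      exact ⟨t, fun a h3 h4 => ⟨by simpa [mul_assoc] using J.mul_mem h3 (J.inv_mem h1),
        by simpa [mul_assoc] using J'.mul_mem h4 (J'.inv_mem h2)⟩⟩
    · exact ⟨1, fun a h3 h4 => absurd ⟨a, h3, h4⟩ e⟩
  choose t ht using hex
  obtain ⟨l, hl⟩ := bdd_of_finite (Γ := Γ)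
    (((Gen.ball_finite (Γ := Γ) 1 r).prod (Gen.ball_finite (Γ := Γ) 1 s)).image t) 1
  refine ⟨l, fun a ha => ?_⟩
  obtain ⟨j, hj, hd⟩ := hr ha
  obtain ⟨j', hj', hd'⟩ := hs ha
  rw [d_eq] at hd hd'
  refine ⟨_, ht (j⁻¹ * a, j'⁻¹ * a) a (by simpa using hj) (by simpa using hj'), ?_⟩
  rw [d_eq]
  simpa using hl _ ⟨(j⁻¹ * a, j'⁻¹ * a), ⟨hd, hd'⟩, rfl⟩

theorem mem_blk_top {k : G} : k ∈ blk ⊤ A ↔ tr k A = A := ⟨fun h => h.2, fun h => ⟨trivial, h⟩⟩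

theorem blk_le_top (C : Subgroup G) (A : Set G) : blk C A ≤ blk ⊤ A := fun _ h => ⟨trivial, h.2⟩

theorem near_coset (y : G) : Γ.Near (tr y (C : Set G)) (blk ⊤ (tr y (C : Set G))) := by
  refine ⟨Γ.d 1 y, fun p hp => ⟨p * y⁻¹, mem_blk_top.mpr ?_, by rw [d_eq]; simp⟩⟩
  rw [tr_tr, show p * y⁻¹ * y = y * (y⁻¹ * p) by group, ← tr_tr, tr_subgroup hp]

theorem near_of_fix {K : Subgroup G} (hK : ∀ k ∈ K, tr k A = A) (hne : A.Nonempty) :
    Γ.Near K A :=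
  near_of_inv (fun c hc _ ha => (hK c hc).le (mul_mem_tr.mpr ha)) hne

theorem coset_near (y : G) : Γ.Near (blk ⊤ (tr y (C : Set G))) (tr y (C : Set G)) :=
  near_of_fix (fun _ hk => hk.2) ⟨y, by simp [C.one_mem]⟩

theorem finiteIndex_of_near {J L : Subgroup G} (h : Γ.Near J L) (hL : L ≤ J) :
    (L.subgroupOf J).FiniteIndex := by
  obtain ⟨r, hr⟩ := h
  have : Finite {b : J | Γ.d 1 (b : G) ≤ r} :=
    ((Gen.ball_finite (Γ := Γ) 1 r).preimage Subtype.val_injective.injOn).to_subtype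
  have : Finite (J ⧸ L.subgroupOf J) := by
    refine Finite.of_surjective (α := {b : J | Γ.d 1 (b : G) ≤ r}) (fun b => ((b.1⁻¹ : J) : _)) ?_
    rintro ⟨j⟩
    obtain ⟨l, hl, hd⟩ := hr (J.inv_mem j.2)
    refine ⟨⟨⟨l⁻¹ * (j : G)⁻¹, J.mul_mem (J.inv_mem (hL hl)) (J.inv_mem j.2)⟩, by rwa [d_eq] at hd⟩,
      QuotientGroup.eq.mpr ?_⟩
    simpa [Subgroup.mem_subgroupOf] using hl
  exact Subgroup.finiteIndex_of_finite_quotient

theorem fp2_of_near {K J : Subgroup G} (s1 : S1 Γ) (hK : FixE Γ K) (h : Γ.Near J K) (hfg : J.FG) :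
    IsFP2 J := by
  have hi := finiteIndex_of_near (near_inf (Near.refl (J : Set G)) h) inf_le_left
  have f1 := (Group.fg_iff_subgroup_fg J).mpr hfg
  have f2 : (J ⊓ K).FG := (Group.fg_iff_subgroup_fg _).mp (Group.fg_of_surjective
    (f := (Subgroup.subgroupOfEquivOfLe (inf_le_left : J ⊓ K ≤ J)).toMonoidHom)
    (Subgroup.subgroupOfEquivOfLe inf_le_left).surjective)
  exact IsFP2.of_finiteIndex (Subgroup.inclusion inf_le_left) (Subgroup.inclusion_injective _)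
    (by rwa [Subgroup.inclusion_range]) f1 (s1 _ f2 (hK.mono inf_le_right))

theorem done_of_near {K H : Subgroup G} (hG : IsPD 3 G) (s1 : S1 Γ) (hK : FixE Γ K) (h : Sys H X)
    (hn : Γ.Near H K) : Done G :=
  (split_pd hG h.splits fun _ hJ hfg _ _ =>
    fp2_of_near s1 hK ((Near.of_subset hJ).trans hn) hfg).imp fun _ e => e.2

theorem dsep_opp : DSep Γ C (opp C X) y ↔ DSep Γ C X y :=
  and_congr_right fun hy => by rw [Xb_opp hy]

omit [Group G] in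
theorem mem_cls {R : G → G → Prop} : x ∈ cls X R y ↔ x ∈ X ∧ R y x := Iff.rfl

theorem Br.cls_eq {R : G → G → Prop} (h : Br C X R) (e : R x y) : cls X R x = cls X R y :=
  Set.ext fun _ => and_congr_right fun _ =>
    ⟨fun k => h.eqv.trans (h.eqv.symm e) k, fun k => h.eqv.trans e k⟩

theorem Br.Xb_sub {R : G → G → Prop} (h : Br C X R) (hS : Sys C X) (hx : x ∈ cls X R y) :
    Xb C X x ⊆ cls X R y :=
  fun z hz => ⟨Xb_sub_X hS hx.1 hz, h.eqv.trans hx.2 (h.xb x hx.1 z hz)⟩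

theorem Br.tr_cls {R : G → G → Prop} (h : Br C X R) (hS : Sys C X) (hc : c ∈ C) :
    tr c (cls X R y) = cls X R (c * y) := by
  ext p
  refine and_congr (hS.left_iff (C.inv_mem hc)) ⟨fun e => ?_, fun e => ?_⟩
  · simpa using h.hl c hc _ _ e
  · simpa using h.hl _ (C.inv_mem hc) _ _ e

theorem Br.unfold {R : G → G → Prop} (h : Br C X R) (hS : Sys C X) (h2 : DD X R R) (h3 : D3 C X R)
    (hx : x ∈ X) : Sys (blk C (cls X R x)) (cls X R x) :=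
  hS.unfold h.eqv h.hl (fun _ hc y hy => h.xb y hy _ (Or.inl (by simpa using hc)))
    (fun y hy _ hz => h.xb y hy _ (mul_mem_Xb hz)) h2 h3 hx

end Pool.Agent.Lib.MP_d98eb9_al.W.J
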