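import Pool.Agent.Lib.MP_d98eb9_al.W.Main

/-! From tree splittings to systems: distances, elliptic subgroups, acylindricity. -/

namespace Pool.Agent.Lib.MP_d98eb9_al.W.J

open Pool.Agent.Lib.MP_1d6a3f_al

variable {G : Type} [Group G] {C : Subgroup G} {X : Set G}

namespace BrP

open SimpleGraph Pool.Agent.Shared.GroupTree W.Tree SysA FG Gen

section

variable {V : Type} {T : SimpleGraph V} {a b : V} [MulAction G V]

/-- The edges that separate two vertices. -/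
def E (C : Subgroup G) (T : SimpleGraph V) (a b p q : V) : Set (G ⧸ C) :=
  {z | ∃ x : G, (x : G ⧸ C) = z ∧ ¬ (Toward T (x • a) (x • b) p ↔ Toward T (x • a) (x • b) q)}

theorem card_E (h : GTree G T) (ho : ∀ x y : V, T.Adj x y → ∃ g : G, s(g • a, g • b) = s(x, y))
    (hC : ∀ g : G, g ∈ C ↔ s(g • a, g • b) = s(a, b)) (q : V) : ∀ (n : ℕ) (p : V),
    T.dist p q = n → (E C T a b p q).Finite ∧ (E C T a b p q).ncard ≤ n := by
  intro n
  induction n with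
  | zero =>
    intro p e
    obtain rfl := (dist_zero_iff h.tree).1 e
    have : E C T a b p p = ∅ := Set.eq_empty_of_forall_notMem fun _ ⟨_, _, k⟩ => k Iff.rfl
    simp [this]
  | succ n ih =>
    intro p e
    obtain ⟨w, hw⟩ := exists_toward h.tree (x := p) (y := q) fun k => by simp [k] at e
    obtain ⟨h1, h2⟩ := ih w (by have := hw.2; omega)
    obtain ⟨g, hg⟩ := ho p w hw.1
    have h3 : E C T a b p q ⊆ insert (g : G ⧸ C) (E C T a b w q) := by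
      rintro _ ⟨x, rfl, hx⟩
      by_cases k : s(p, w) = s(x • a, x • b)
      · refine Or.inl (QuotientGroup.eq.2 ((hC _).2 ?_))
        have := congrArg (Sym2.map fun v => x⁻¹ • v) (hg.trans k)
        simpa only [Sym2.map_mk, inv_smul_smul, mul_smul] using this
      · exact Or.inr ⟨x, rfl, fun l => hx ((edge h.tree hw.1 k).trans l)⟩
    exact ⟨(h1.insert _).subset h3, (Set.ncard_le_ncard h3 (h1.insert _)).trans
      ((Set.ncard_insert_le _ _).trans (by omega))⟩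

theorem nn_le (h : GTree G T) (ho : ∀ x y : V, T.Adj x y → ∃ g : G, s(g • a, g • b) = s(x, y))
    (hC : ∀ g : G, g ∈ C ↔ s(g • a, g • b) = s(a, b)) (y : G) :
    nn C {x | x ∉ C ∧ Toward T a b (x • a)} y ≤ T.dist a (y • a) := by
  obtain ⟨h1, h2⟩ := card_E h ho hC (y • a) _ a rfl
  refine (Set.ncard_le_ncard ?_ h1).trans h2
  rintro _ ⟨x, rfl, hx, hy, hxy⟩
  simp only [Set.mem_ofPred_eq, hy, inv_mem_iff, hx, not_false_eq_true, true_and, mul_smul,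
    toward_iff h] at hxy
  exact ⟨x, rfl, hxy⟩

theorem exists_path (h : GTree G T) {g : G} {v : V} (hv : g • v = v) : ∀ (k : ℕ) (u : V),
    k ≤ T.dist u v → g • u = u → ∃ (w : V) (p : T.Walk u w), p.length = k ∧
      T.dist w v + k = T.dist u v ∧ ∀ x ∈ p.support, g • x = x := by
  intro k
  induction k with
  | zero => exact fun u _ hu => ⟨u, Walk.nil, rfl, rfl, by simpa using hu⟩
  | succ k ih =>
    intro u hk hu
    obtain ⟨w, hw⟩ := exists_toward h.tree (x := u) (y := v) fun e => by simp [e] at hk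
    have := hw.2
    obtain ⟨z, p, h1, h2, h3⟩ := ih w (by omega) (h.fix_toward hw hu hv)
    refine ⟨z, Walk.cons hw.1 p, by simp [h1], by omega, fun x hx => ?_⟩
    rcases List.mem_cons.1 hx with rfl | hx
    exacts [hu, h3 x hx]

end

theorem nn_mul (h : Sys C X) (a b : G) : nn C X (a * b) ≤ nn C X a + nn C X b + 1 := by
  have e : S2 C X 1 (a * b) ⊆ insert (a : G ⧸ C) (S2 C X 1 a ∪ S2 C X a (a * b)) := by
    rintro _ ⟨w, rfl, h1, h2, h3⟩
    by_cases hw : w⁻¹ * a ∈ C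
    · exact Or.inl (QuotientGroup.eq.mpr hw)
    by_cases k : w⁻¹ * 1 ∈ X ↔ w⁻¹ * a ∈ X
    · exact Or.inr (Or.inr ⟨w, rfl, hw, h2, fun l => h3 (k.trans l)⟩)
    · exact Or.inr (Or.inl ⟨w, rfl, h1, hw, k⟩)
  have h1 := Set.ncard_le_ncard e (((fin_S2 h _ _).union (fin_S2 h _ _)).insert _)
  have h2 := Set.ncard_insert_le (a : G ⧸ C) (S2 C X 1 a ∪ S2 C X a (a * b))
  have h3 := Set.ncard_union_le (S2 C X 1 a) (S2 C X a (a * b))
  simp only [card_S2, inv_one, one_mul, inv_mul_cancel_left] at h1 h2 h3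
  omega

theorem right_inv {Γ : Gen G} {u : G → ℤ} {r : ℕ} (h : Sys C X)
    (hJ : ∀ p q, Γ.d p q ≤ 1 → p ∈ X → q ∉ opp C X)
    (hu : ∀ p q, Γ.d p q ≤ 1 → u q = u p + ph (sh Γ C r) X p q) {g : G} (hd : Γ.d 1 g ≤ r)
    (hg : ∀ p, p * g ∈ X ↔ p ∈ X) (p : G) : u (p * g) = u p := by
  have A : ∀ c ∈ sh Γ C r, ∀ y, Γ.d c y ≤ r → u y = u c + ind X y := fun c hc y hy =>
    (geo hy).ind (P := fun y => u y = u c + ind X y)
      (by rw [ind_neg fun e => h.disj c e (sh_le hc), add_zero]) fun a b ha hb hd e => by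
        rw [hu a b hd, ph_eq h hJ hd (sh_iff hc (not_not.1 ha).1) (sh_iff hc (not_not.1 hb).1), e]
        ring
  by_cases h1 : ∃ c ∈ sh Γ C r, Γ.d p c ≤ r ∧ Γ.d c (p * g) ≤ r
  · obtain ⟨c, hc, h2, h3⟩ := h1
    rw [A c hc _ h3, A c hc p (by rwa [d_comm]), ind_congr (hg p)]
  · exact (geo ((d_mul_right p g).trans_le hd)).ind (P := fun y => u y = u p) rfl
      fun a b ha hb hd e => by
        rw [hu a b hd, ph_zero (fun k => h1 ⟨a, k, not_not.1 ha⟩)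
          (fun k => h1 ⟨b, k, not_not.1 hb⟩), add_zero, e]

theorem exists_fg (h : Sys C X) (hG : Group.FG G) (hLP : ∀ Γ : Gen G, Γ.LP0) {T : Set G}
    (hT : T.Finite) (hX : ∀ t ∈ T, ∀ p, p * t ∈ X ↔ p ∈ X) :
    ∃ C' : Subgroup G, C' ≤ C ∧ C'.FG ∧ ∃ X', Sys C' X' ∧ ∀ t ∈ T, ∀ p, p * t ∈ X' ↔ p ∈ X' := by
  obtain ⟨Γ, hJ, -⟩ := h.exists_gen hG ∅ (by simp)
  obtain ⟨ρ, hρ⟩ := hLP Γ
  obtain ⟨m, hm⟩ := (hT.image (Γ.d 1)).bddAbove
  obtain ⟨u, hu⟩ := hρ ℤ (fun p i => ph (sh Γ C (2 * ρ + 2 + m)) X p (p * Γ.s i)) fun k => by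
    have h1 : ∀ p i, Γ.d k p ≤ ρ → Γ.d k (p * Γ.s i) ≤ ρ + 1 := fun p i hd =>
      (d_tri k p _).trans (add_le_add hd (d_gen p i))
    by_cases h2 : ∃ c ∈ sh Γ C (2 * ρ + 2 + m), Γ.d k c ≤ ρ + 1
    · obtain ⟨c, hc, h3⟩ := h2
      have h4 : ∀ y, Γ.d k y ≤ ρ + 1 → (y ∈ sh Γ C (2 * ρ + 2 + m) ↔ y ∈ C) := fun y hy =>
        sh_iff hc ((d_tri c k y).trans (by rw [d_comm c k]; omega))
      exact ⟨ind X, fun p i hd => ph_eq h hJ (d_gen p i) (h4 p (by omega)) (h4 _ (h1 p i hd))⟩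
    · exact ⟨0, fun p i hd => (ph_zero (fun e => h2 ⟨p, e, by omega⟩)
        fun e => h2 ⟨_, e, h1 p i hd⟩).trans (sub_self _).symm⟩
  have key : ∀ p q, Γ.d p q ≤ 1 →
      u q - u 1 = u p - u 1 + ph (sh Γ C (2 * ρ + 2 + m)) X p q := fun p q hd => by
    rw [of_gen (φ := ph (sh Γ C (2 * ρ + 2 + m)) X) (fun p q => (neg_sub _ _).symm) hd (hu p)
      (hu q)]
    ring
  refine ⟨sh Γ C (2 * ρ + 2 + m), sh_le, (Subgroup.fg_iff _).2
    ⟨_, rfl, (Gen.ball_finite 1 _).inter_of_left _⟩, _,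
    sys_of (u := fun p => u p - u 1) h hJ (sub_self _) key, fun t ht p => ?_⟩
  have := right_inv (u := fun p => u p - u 1) h hJ key
    ((hm ⟨t, ht, rfl⟩).trans (Nat.le_add_left _ _)) (hX t ht) p
  simp only [Set.mem_ofPred_eq, this]

theorem fga {V : Type} {T : SimpleGraph V} {a b : V} [MulAction G V] (h : GTree G T)
    (hab : T.Adj a b) (hn : ∀ v : V, ∃ g : G, g • v ≠ v)
    (ho : ∀ x y : V, T.Adj x y → ∃ g : G, s(g • a, g • b) = s(x, y))
    (hC : ∀ g : G, g ∈ C ↔ s(g • a, g • b) = s(a, b)) (hG : Group.FG G)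
    (hLP : ∀ Γ : Gen G, Γ.LP0) {A : Subgroup G} (hA : A.FG) {g : G}
    (hv : ∀ x ∈ A, x • g • a = g • a) :
    ∃ C' : Subgroup G, C' ≤ C ∧ C'.FG ∧ ∃ X', Sys C' X' ∧ ∃ L, ∀ x ∈ A, nn C' X' x ≤ L := by
  obtain ⟨S, rfl, hS⟩ := (Subgroup.fg_iff _).1 hA
  have fix : ∀ c ∈ C, ¬ Toward T a b (c • a) := fun c hc e => e.ne
    ((Sym2.eq_iff.1 ((hC c).1 hc)).resolve_right fun e => h.noinv c a b hab e.1 e.2).1.symm
  obtain ⟨C', h1, h2, X', h3, h4⟩ := exists_fg (W.Tree.main h hab hn ho hC) hG hLP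
    (hS.image fun x => g⁻¹ * x * g) (by
      rintro _ ⟨x, hx, rfl⟩ p
      have e : (p * (g⁻¹ * x * g)) • a = p • a := by
        simp only [mul_smul, hv x (Subgroup.subset_closure hx), inv_smul_smul]
      exact ⟨fun k => ⟨fun l => fix _ l (e ▸ k.2), e ▸ k.2⟩,
        fun k => ⟨fun l => fix _ l (e ▸ k.2), e ▸ k.2⟩⟩)
  refine ⟨C', h1, h2, X', h3, nn C' X' g + nn C' X' g⁻¹ + 2, fun x hx => ?_⟩
  have h5 : ∀ p, p * (g⁻¹ * x * g) ∈ X' ↔ p ∈ X' := by
    induction hx using Subgroup.closure_induction with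
    | mem x hx => exact h4 _ ⟨x, hx, rfl⟩
    | one => simp
    | mul x y _ _ hx hy =>
      intro p
      rw [show p * (g⁻¹ * (x * y) * g) = p * (g⁻¹ * x * g) * (g⁻¹ * y * g) by group, hy, hx]
    | inv x _ hx =>
      intro p
      rw [← hx, show p * (g⁻¹ * x⁻¹ * g) * (g⁻¹ * x * g) = p by group]
  have h6 : nn C' X' (g⁻¹ * x * g) = 0 := by
    rw [nn, Set.eq_empty_of_forall_notMem (s := Sp C' X' _) fun _ ⟨y, _, _, _, k⟩ => k (h5 _).symm,
      Set.ncard_empty]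
  have h7 := nn_mul h3 g (g⁻¹ * x * g)
  have h8 := nn_mul h3 (g * (g⁻¹ * x * g)) g⁻¹
  rw [show g * (g⁻¹ * x * g) * g⁻¹ = x by group] at h8
  omega

end BrP

open Pool.Agent.Shared.GroupTree

/-- The system of a tree splitting. -/
theorem bridge (S : TreeSplitting C) :
    ∃ X, Sys C X ∧ ∀ y, nn C X y ≤ S.T.dist S.x₀ (S.ρ y S.x₀) := by
  let := MulAction.compHom S.V S.ρ
  have h : GTree G S.T := ⟨S.isTree, S.adj, fun g x y h e e' => S.no_inversion g x y h ⟨e, e'⟩⟩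
  exact ⟨_, Tree.main h S.adj₀ S.no_fixed S.one_orbit S.stabilizer,
    BrP.nn_le h S.one_orbit S.stabilizer⟩

/-- A finitely generated elliptic subgroup stays elliptic in a splitting over a finitely generated
subgroup of the edge group. -/
theorem bridge_fg (S : TreeSplitting C) (hG : Group.FG G) (hLP : ∀ Γ : Gen G, Γ.LP0)
    {A : Subgroup G} (hA : A.FG) (hE : S.Elliptic A) :
    ∃ C' : Subgroup G, C' ≤ C ∧ C'.FG ∧ ∃ X', Sys C' X' ∧ ∃ L, ∀ x ∈ A, nn C' X' x ≤ L := by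
  let := MulAction.compHom S.V S.ρ
  have h : GTree G S.T := ⟨S.isTree, S.adj, fun g x y h e e' => S.no_inversion g x y h ⟨e, e'⟩⟩
  obtain ⟨v, hv⟩ := hE
  obtain ⟨x, hx⟩ := S.no_fixed v
  obtain ⟨w, hw⟩ := exists_toward S.isTree (Ne.symm hx)
  obtain ⟨g, hg⟩ := S.one_orbit v w hw.1
  rcases Sym2.eq_iff.1 hg with ⟨rfl, -⟩ | ⟨-, rfl⟩
  · exact BrP.fga h S.adj₀ S.no_fixed S.one_orbit S.stabilizer hG hLP hA hv
  · exact BrP.fga h S.adj₀.symm S.no_fixed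
      (fun x y e => (S.one_orbit x y e).imp fun _ k => Sym2.eq_swap.trans k)
      (fun g => (S.stabilizer g).trans ⟨fun k => Sym2.eq_swap.trans (k.trans Sym2.eq_swap),
        fun k => Sym2.eq_swap.trans (k.trans Sym2.eq_swap)⟩) hG hLP hA hv

/-- Elements that fix two vertices at distance at least `k` are trivial. -/
theorem bridge_ac (S : TreeSplitting C) {k : ℕ}
    (hk : ∀ g u v, k ≤ S.T.dist u v → S.ρ g u = u → S.ρ g v = v → g = 1) :
    ∃ X, Sys C X ∧ ∀ y, k ≤ nn C X y → ∀ c ∈ C, y⁻¹ * c * y ∈ C → c = 1 := by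
  obtain ⟨X, h1, h2⟩ := bridge S
  have fix : ∀ c ∈ C, S.ρ c S.x₀ = S.x₀ := fun c hc =>
    ((Sym2.eq_iff.1 ((S.stabilizer c).1 hc)).resolve_right (S.no_inversion c _ _ S.adj₀)).1
  refine ⟨X, h1, fun y hy c hc e => hk c _ _ (hy.trans (h2 y)) (fix c hc) ?_⟩
  have := congrArg (S.ρ y) (fix _ e)
  simpa [map_mul] using this

/-- The same with segments of `k` edges. -/
theorem bridge_seg (S : TreeSplitting C) {k : ℕ}
    (hk : ∀ (g : G) (u v : S.V) (p : S.T.Walk u v), p.IsPath → p.length = k →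
      (∀ w ∈ p.support, S.ρ g w = w) → g = 1) :
    ∃ X, Sys C X ∧ ∀ y, k ≤ nn C X y → ∀ c ∈ C, y⁻¹ * c * y ∈ C → c = 1 := by
  let := MulAction.compHom S.V S.ρ
  have h : GTree G S.T := ⟨S.isTree, S.adj, fun g x y h e e' => S.no_inversion g x y h ⟨e, e'⟩⟩
  refine bridge_ac S fun g u v hd hu hv => ?_
  obtain ⟨w, p, h1, h2, h3⟩ := BrP.exists_path h (g := g) hv k u hd hu
  have h4 := dist_tri S.isTree u w v
  have h5 := SimpleGraph.dist_le p
  exact hk g u w p (p.isPath_of_length_eq_dist (by omega)) h1 h3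

end Pool.Agent.Lib.MP_d98eb9_al.W.J
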