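import Pool.Agent.Lib.MP_d98eb9_al.J.Part

/-! A class of the least closed partition lies in one end of every admissible set. -/

namespace Pool.Agent.Lib.MP_d98eb9_al.W.J.PartP

open Gen Filter

variable {G : Type} [Group G] {Γ : Gen G} {C : Subgroup G} {X D Y P Q A : Set G}
  {x y z p q c a b x0 : G} {l r s t t0 t1 u : ℕ} {ρ : ℕ → G} {R R' : G → G → Prop}

/-- `D` is admissible for the class of `x0` of level `t1`. -/
structure Adm (Γ : Gen G) (C : Subgroup G) (X : Set G) (R : G → G → Prop) (t1 : ℕ) (x0 : G)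
    (D : Set G) : Prop where
  tb : TB C X D
  a1 : ∀ z ∈ cls X (Rt Γ C X R t1) x0, End1 Γ D (Xb C X z)
  a2 : ∀ s, ∃ r, ∀ z ∈ cls X (Rt Γ C X R t1) x0, ∀ P, Tie Γ C X R t1 z P →
    ∀ p ∈ P, p ∈ Γ.N s D → p ∈ Γ.N r C
  a3 : ∀ z ∈ cls X (Rt Γ C X R t1) x0, ∀ P, Tie Γ C X R t1 z P → ∀ s P1, P1 ⊆ P →
    Γ.Comp (Γ.N s C) P1 → ¬ Γ.Near P1 C → ¬ Pocket Γ C X D P1

/-- The far sides of two edges are near the same components. -/
def Same (Γ : Gen G) (C : Subgroup G) (X D : Set G) (a b : G) : Prop :=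
  ∀ u Q, Γ.Comp (Γ.N u D) Q → (Γ.Near (Xb C X a) Q ↔ Γ.Near (Xb C X b) Q)

/-- The refinement by the ends of `D`. -/
def Ref (Γ : Gen G) (C : Subgroup G) (X : Set G) (R : G → G → Prop) (t1 : ℕ) (x0 : G) (D : Set G)
    (x y : G) : Prop :=
  R x y ∧ ∀ c ∈ C, c * x ∈ cls X (Rt Γ C X R t1) x0 → Same Γ C X D (c * x) (c * y)

theorem cls_step (B : Br C X R) (hx : x ∈ cls X R x0) (k : R x y) : y ∈ cls X R x0 :=
  ⟨B.resp _ _ k hx.1, B.eqv.trans hx.2 k⟩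

theorem Ref.same (k : Ref Γ C X R t1 x0 D x y) (hx : x ∈ cls X (Rt Γ C X R t1) x0) :
    Same Γ C X D x y := by simpa using k.2 1 C.one_mem (by simpa using hx)

theorem br_ref (h : Sys C X) (B : Br C X R) (K : Adm Γ C X R t1 x0 D) :
    Br C X (Ref Γ C X R t1 x0 D) := by
  have B1 := br_rt (Γ := Γ) h B t1
  refine ⟨⟨fun x => ⟨B.eqv.refl x, fun _ _ _ _ _ _ => Iff.rfl⟩,
    fun k => ⟨B.eqv.symm k.1, fun c hc hy u Q hQ => (k.2 c hc (cls_step B1 hy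
      (.of (B.hl c hc _ _ (B.eqv.symm k.1)))) u Q hQ).symm⟩,
    fun k k' => ⟨B.eqv.trans k.1 k'.1, fun c hc hx u Q hQ => (k.2 c hc hx u Q hQ).trans
      (k'.2 c hc (cls_step B1 hx (.of (B.hl c hc _ _ k.1))) u Q hQ)⟩⟩,
    fun c hc x y k => ⟨B.hl c hc _ _ k.1, fun c' hc' hx => ?_⟩,
    fun x hx y hy => ⟨B.xb x hx y hy, fun c hc hcx u Q hQ => ?_⟩, fun _ _ k => B.resp _ _ k.1⟩
  · rw [← mul_assoc] at hx
    rw [← mul_assoc, ← mul_assoc]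
    exact k.2 _ (C.mul_mem hc' hc) hx
  · have h1 : c * y ∈ Xb C X (c * x) := by rw [xb_left h hc]; exact mul_mem_tr.mpr hy
    have h2 := Near.of_subset (Γ := Γ) (xb_xb h (h.disj _ hcx.1) h1)
    refine ⟨h2.trans, fun e => ?_⟩
    obtain ⟨P, h3, h4⟩ := K.a1 _ hcx u
    rwa [uniq h K.tb (xb_sub h hcx.1 h1) hQ h3 e (h2.trans h4)]

theorem near_ref (h : Sys C X) (K : Adm Γ C X R t1 x0 D)
    (ha : a ∈ cls X (Rt Γ C X R t1) x0) (hQ : Γ.Comp (Γ.N u D) Q) (hn : Γ.Near (Xb C X a) Q) :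
    Γ.Near (cls X (Ref Γ C X R t1 x0 D) a) Q :=
  uni h K.tb hQ (fun _ hp => hp.1) fun _ hp => (hp.2.same ha u Q hQ).mp hn

/-- A component that is tied to a refined class lies on the side of the class. -/
theorem tie_side (h : Sys C X) (B : Br C X R) (K : Adm Γ C X R t1 x0 D) (hX : Γ.fr X ⊆ Γ.N t1 C)
    (u : ℕ) : ∃ t, t1 ≤ t ∧ ∀ a ∈ cls X (Rt Γ C X R t1) x0, ∀ P,
      Tie Γ C X (Ref Γ C X R t1 x0 D) t a P → ∀ Q, Γ.Comp (Γ.N u D) Q →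
        (Γ.Near (Xb C X a) Q ↔ P ⊆ Q) := by
  obtain ⟨r, hr⟩ := K.a2 u
  have B' := br_ref h B K
  refine ⟨t1 + r, by omega, fun a ha P hP => ?_⟩
  obtain ⟨P0, h1, h2⟩ := comp_up (t := t1) (by omega) hP.1
  have h3 : Tie Γ C X R t1 a P0 := (hP.mono fun _ _ k => k.1).up hX h1 h2
  have h4 : ∀ p ∈ P, p ∉ Γ.N u D := fun p hp e =>
    hP.1.out hp (N_mono (by omega) subset_rfl (hr a ha P0 h3 p (h2 hp) e))
  obtain ⟨Q0, h5, h6⟩ := K.a1 a ha u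
  have h7 := near_ref h K ha h5 h6
  obtain ⟨l, hl⟩ := exists_ray h Γ
  have key : ∃ p ∈ P, p ∈ Q0 := by
    rcases hP.2.2 with e | ⟨s, P1, e1, e2, e3, e4⟩
    · obtain ⟨k, hk⟩ := spec (Γ := Γ) h (tb_base h) l (t1 + r)
      obtain ⟨z, hz, hz'⟩ := Set.not_subset.mp fun e' => e ⟨k, e'⟩
      obtain ⟨ρ, hρ⟩ := hl z hz.1.1
      obtain ⟨P', e1, e2, -, e3⟩ := hk z ρ hρ
      obtain ⟨i, e4, e5⟩ := e2.ex (hρ.tnear h K.tb h5 ((hz.1.2.same ha u Q0 h5).mp h6))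
      exact ⟨_, e1.disj hP.1 (e3 hz') hz.2 ▸ e4, e5⟩
    · by_contra hn
      have e5 : Disjoint P1 Q0 := Set.disjoint_left.mpr fun p hp hq => hn ⟨p, e1 hp, hq⟩
      obtain ⟨ρ, hρ⟩ := hl a ha.1
      refine K.a3 a ha P0 h3 s P1 (e1.trans h2) e2 e3 ⟨((e4.trans h7).fr
        ⟨1, (fr_subset P1).trans (N_mono le_rfl e5.subset_compl_right)⟩).trans ⟨_, fr_comp h5⟩,
        _, _, Q0, u, near_blk h B' e4 ⟨_, fr_comp e2⟩, fun k hk => hk.2, fun v => ?_,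
        fun ⟨L, hL⟩ => ?_, h5, h7, e5⟩
      · obtain ⟨Q1, f1, f2⟩ := K.a1 a ha v
        exact ⟨Q1, f1, near_ref h K ha f1 f2⟩
      · have := hL _ (xb_cls h B' (self_cls B' ha.1) (hρ.mem (L + 1)))
        have := hρ.far (L + 1)
        omega
  obtain ⟨p, hp, hp'⟩ := key
  exact fun Q hQ => ⟨fun e => uniq h K.tb ha.1 h5 hQ h6 e ▸ comp_sub hP.1 h4 h5 hp hp',
    fun e => h5.disj hQ hp' (e hp) ▸ h6⟩

theorem cl_ref (h : Sys C X) (M : Cl Γ C X t0 R) (K : Adm Γ C X R t1 x0 D) (ht : t0 ≤ t1)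
    (hX : Γ.fr X ⊆ Γ.N t1 C) : Cl Γ C X t0 (Ref Γ C X R t1 x0 D) := by
  have B := M.br
  have B' := br_ref h B K
  have B1 := br_rt (Γ := Γ) h B t1
  have le : ∀ x y, Ref Γ C X R t1 x0 D x y → R x y := fun _ _ k => k.1
  refine ⟨B', fun x hx y hy e => ?_, fun x y e => ⟨M.r5 x y fun t ht => (e t ht).mono le,
    fun c hc hx u Q hQ => ?_⟩⟩
  · have k := M.r1 x hx y hy fun e' =>
      e (end_mono e' (Near.of_subset (cls_mono le y)) (Near.refl _))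
    refine ⟨k, fun c hc hcx u Q hQ => ?_⟩
    have hcy := cls_step B1 hcx (.of (B.hl c hc _ _ k))
    obtain ⟨Q1, h1, h2⟩ := K.a1 _ hcy u
    have h3 : Γ.Near (Xb C X (c * x)) Q1 := by_contra fun hn => e (by
      have := end_tr (sep_end (K.a1 _ hcx) h1 hn (near_ref h K hcy h1 h2)) c⁻¹
      rwa [cls_tr h B' hc, xb_left h hc, tr_inv_tr, tr_inv_tr] at this)
    exact ⟨fun e => uniq h K.tb hcx.1 h1 hQ h3 e ▸ h2, fun e => uniq h K.tb hcy.1 h1 hQ h2 e ▸ h3⟩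
  · obtain ⟨t, h1, h2⟩ := tie_side h B K hX u
    have key : ∀ a b, Rt Γ C X (Ref Γ C X R t1 x0 D) t a b → a ∈ cls X (Rt Γ C X R t1) x0 →
        (Γ.Near (Xb C X a) Q ↔ Γ.Near (Xb C X b) Q) := by
      have st : ∀ a b, Rt Γ C X (Ref Γ C X R t1 x0 D) t a b → Rt Γ C X R t1 a b :=
        fun a b k => (k.mono le).anti hX h1
      intro a b k
      induction k with
      | rel a b k =>
        intro ha
        have hb := cls_step B1 ha (st a b (.rel _ _ k))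
        rcases k with k | ⟨-, -, P, k1, k2⟩
        · exact k.same ha u Q hQ
        · exact (h2 a ha P k1 Q hQ).trans (h2 b hb P k2 Q hQ).symm
      | refl a => exact fun _ => Iff.rfl
      | symm a b k ih => exact fun hb => (ih (cls_step B1 hb (B1.eqv.symm (st a b k)))).symm
      | trans a b z k _ ih ih' => exact fun ha => (ih ha).trans (ih' (cls_step B1 ha (st a b k)))
    exact key _ _ ((br_rt h B' t).hl c hc _ _ (e t (ht.trans h1))) hx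

theorem const (h : Sys C X) (hx : x ∈ X) (K : Adm Γ C X (R0 Γ C X t0) t1 x D) (ht : t0 ≤ t1)
    (hX : Γ.fr X ⊆ Γ.N t1 C) : End1 Γ D (cls X (R0 Γ C X t0) x) := fun u => by
  have hx' := self_cls (br_rt (Γ := Γ) h (cl_R0 (Γ := Γ) (t0 := t0) h).br t1) hx
  obtain ⟨Q, h1, h2⟩ := K.a1 x hx' u
  exact ⟨Q, h1, (Near.of_subset (cls_mono (fun _ _ k => k _ (cl_ref h (cl_R0 h) K ht hX)) x)).trans
    (near_ref h K hx' h1 h2)⟩

theorem adm12 (h : Sys C X) (M : Cl Γ C X t0 R) (hX : Γ.fr X ⊆ Γ.N t C) (hy : y ∈ X)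
    (hn : ¬ Rt Γ C X R t x y) (hD : TB C X D) (hc : Γ.Near D (cls X R y)) :
    Adm Γ C X R t x D := by
  have nt : ∀ z ∈ cls X (Rt Γ C X R t) x, ∀ P, Tie Γ C X R t z P → ¬ Tie Γ C X R t y P :=
    fun z hz P h1 h2 => hn (.trans _ _ _ hz.2 (Rt.tie hz.1 hy h1 h2))
  refine ⟨hD, fun z hz => end_mono (by_contra fun e => hn (.trans _ _ _ hz.2
    (Rt.of (M.r1 z hz.1 y hy e)))) hc (Near.refl _), fun s => ?_,
    fun z hz P hP s P1 h1 h2 h3 h4 => nt z hz P hP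
      ⟨hP.1, hP.2.1, Or.inr ⟨s, P1, h1, h2, h3, h4.1.trans hc⟩⟩⟩
  obtain ⟨a, ha⟩ := hc
  obtain ⟨k, hk⟩ := tie_far h hX
  refine ⟨t + 1 + k + (a + s), fun z hz P hP p hp e => by_contra fun hp' => ?_⟩
  obtain ⟨b, hb, hd⟩ := N_N ha e
  exact nt z hz P hP (hk R M.br y b hb P hP.1
    (ball_comp hP.1 hp (fun e => hp' (N_mono (by omega) subset_rfl e)) hd)
    fun e => hp' (N_mono (by omega) subset_rfl (mem_N_of_d e hd)))

theorem adm3 (h : Sys C X) (hX : Γ.fr X ⊆ Γ.N t C) (hy : y ∉ X)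
    (h1 : ∀ z ∈ X, End1 Γ (tr y C) (Xb C X z))
    (h2 : ∀ s P, Γ.Comp (Γ.N s C) P → P ⊆ X → ¬ Γ.Near P C → ¬ Pocket Γ C X (tr y C) P) :
    Adm Γ C X R t x (tr y C) :=
  ⟨tb_coset h y, fun z hz => h1 z hz.1, fun s => ⟨t + s, fun _ _ _ hP _ hp e =>
    N_N hX (mem_N_fr (hP.2.1 hp) (N_mono (B := Xᶜ) le_rfl
      (fun b hb hbX => hy (by simpa using h.right _ (C.inv_mem hb) b hbX)) e))⟩,
    fun _ _ _ hP s P1 k1 k2 k3 => h2 s P1 k2 (k1.trans hP.2.1) k3⟩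

end Pool.Agent.Lib.MP_d98eb9_al.W.J.PartP

namespace Pool.Agent.Lib.MP_d98eb9_al.W.J

open PartP Gen

theorem part {G : Type} [Group G] (Γ : Gen G) : PART Γ := by
  intro C X h
  obtain ⟨t0, h0⟩ := h.fr_near Γ
  have hX : ∀ t, t0 ≤ t → Γ.fr X ⊆ Γ.N t C := fun t ht => h0.trans (N_mono ht subset_rfl)
  have M := cl_R0 (Γ := Γ) (t0 := t0) h
  refine ⟨PartP.R0 Γ C X t0, fun t => Rt Γ C X (PartP.R0 Γ C X t0) (t0 + t), M.br,
    fun t => br_rt h M.br _,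
    fun t t2 ht x y k => k.anti (hX _ (by omega)) (by omega),
    fun x y => ⟨fun k t => .of k, fun k => M.r5 x y fun t ht => ?_⟩,
    fun t => dd_rt h M.br (hX _ (by omega)), fun t => d3_rt h M.br (hX _ (by omega)),
    fun t => frb_rt h M.br (hX _ (by omega)), fun x hx g hg hn D hD hc => ?_,
    fun x hx y hy h1 h2 => const h hx (adm3 h h0 hy h1 h2) le_rfl h0,
    fun w hw => p4 h M h0 hw⟩
  · simpa only [Nat.add_sub_cancel' ht] using k (t - t0)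
  · obtain ⟨t, ht, k⟩ := ex_level M hn
    exact const h hx (adm12 h M (hX t ht) hg k hD hc) ht (hX t ht)

end Pool.Agent.Lib.MP_d98eb9_al.W.J
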