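import Pool.Agent.Lib.MP_d98eb9_al.J.Basic

/-! Block EXC: the exceptional case. -/

namespace Pool.Agent.Lib.MP_d98eb9_al.W.J

open Gen Pool.Agent.Lib.MP_1d6a3f_al

variable {G : Type} [Group G] {Γ : Gen G} {C : Subgroup G} {X A B P Q U V Z : Set G}

namespace ExcP

/-- A far side that is near `V` starts uniformly near `V`. -/
theorem side_uni (h : Sys C X) (hV : TB C X (Γ.fr V)) :
    ∃ c, ∀ z, z ∉ C → Γ.Near (Xb C X z) V → z ∈ Γ.N c V := by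
  obtain ⟨c, hc⟩ := walk (Γ := Γ) h hV
  refine ⟨c, fun z hz hn => ?_⟩
  obtain ⟨p, -, hd, hp, ht⟩ := hc z hz
  refine ⟨p, by_contra fun hpV => ht (hV.near (Γ := Γ) h ?_), by rwa [d_comm]⟩
  refine ((Near.of_subset Set.inter_subset_left).trans hn).fr (Near.of_subset fun q hq => ?_)
  exact Conn.mem (U := Vᶜ) hq.2 (fun x hx => fr_compl (Γ := Γ) V ▸ hx.2) hpV

/-- The stabiliser of `P` and of a connected set outside `P` is finitely generated. -/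
theorem fg_of_pocket (h0 : Γ.LP0) {S : Subgroup G} {Z Z' : Set G} (hP : Γ.Comp Z P)
    (hQ : Γ.Comp Z' Q) (hd : Disjoint P Q) (hS : ∀ k ∈ S, tr k P = P ∧ tr k Q = Q)
    (hn : Γ.Near (Γ.fr P) S) : S.FG := by
  obtain ⟨r, hr⟩ := h0.rc_fr
  obtain ⟨q, hq⟩ := hQ.ne
  obtain ⟨p, hp⟩ := hP.ne
  have hq' : q ∉ P := fun e => Set.disjoint_left.mp hd e hq
  obtain ⟨V, hV, hQV⟩ := comp_up (Z' := P) hQ fun x hx e => Set.disjoint_left.mp hd e hx
  have h1 := hr V (fun a ha b hb => hV.conn ha hb) fun a ha b hb =>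
    hV.conn' ⟨p, hp⟩ (fun x hx y hy => hP.conn hx hy) ha hb
  have h2 : Γ.fr V ⊆ Γ.fr P := fun a ⟨b, hab, e⟩ => by
    by_cases ha : a ∈ V
    · exact mem_fr' (hV.adj ha (by tauto) hab) (hV.out ha) (by rwa [d_comm])
    · have hb : b ∈ V := by tauto
      exact mem_fr (hV.adj hb ha (by rwa [d_comm])) (hV.out hb) hab
  obtain ⟨b, hb, -, -⟩ := exists_fr (Γ := Γ) (hQV hq) fun e => hV.out e hp
  refine fg_of_near h1 ((Near.of_subset h2).trans hn) (near_of_fix (fun k hk => ?_) ⟨b, hb⟩)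
  have h3 := hV.tr k
  rw [(hS k hk).1] at h3
  rw [tr_fr, h3.disj hV (mul_mem_tr.mpr (hQV hq)) (hQV ((hS k hk).2.le (mul_mem_tr.mpr hq)))]

theorem near_blk {s : ℕ} (hP : Γ.Comp (Γ.N s C) P) : Γ.Near (Γ.fr P) (blk C P) := by
  refine Near.trans ⟨1, fr_subset_inner P⟩ (near_of_stab (J := C)
    ((Near.of_subset Set.inter_subset_right).trans (Near.trans ⟨1, hP.fr_subset⟩ (near_N _ _)))
    fun c hc a ha hca => ⟨hc, ?_⟩)
  have h3 := hP.tr c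
  rw [tr_N, tr_subgroup hc] at h3
  exact h3.disj hP (mul_mem_tr.mpr ha.1) hca.1

/-- One side of a half-space lies on one side of `B`. -/
theorem nest_aux (h : Sys C X) (hV : Γ.Side {V}) (hA : Γ.Near A V) (hB : Γ.Near (Γ.fr B) Vᶜ)
    (tb : TB C X (Γ.fr V))
    (hY : ∀ p ∈ A, ∃ Y, ¬ TB C X Y ∧ Y ⊆ A ∧ ∀ v ∈ Y, (v ∈ B ↔ p ∈ B)) : A ⊆ B ∨ A ⊆ Bᶜ := by
  obtain ⟨s, hs⟩ := hV.dich rfl hB
  have key : ∀ Y W : Set G, Y ⊆ A → Γ.core s V ⊆ W → Y ⊆ Wᶜ → TB C X Y := fun Y W h1 h2 h3 => by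
    obtain ⟨c, hc⟩ := hA
    refine tb.near (Γ := Γ) h ⟨c + s, fun v hv => by_contra fun hn => ?_⟩
    by_cases hv' : v ∈ V
    · exact h3 hv (h2 ⟨hv', fun e => hn (N_mono (by omega) subset_rfl e)⟩)
    · exact hn (N_mono (by omega) subset_rfl (mem_N_fr' hv' (hc (h1 hv))))
  refine hs.imp (fun e p hp => by_contra fun hn => ?_) fun e p hp hn => ?_
  · obtain ⟨Y, h1, h2, h3⟩ := hY p hp
    exact h1 (key Y B h2 e fun v hv k => hn ((h3 v hv).mp k))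
  · obtain ⟨Y, h1, h2, h3⟩ := hY p hp
    exact h1 (key Y Bᶜ h2 e fun v hv k => k ((h3 v hv).mpr hn))

/-- A union of branches that is parallel to a half-space is nested with its translates. -/
theorem nest_tr (h : Sys C X) (hZX : Z ⊆ X)
    (hb : ∀ w, w ∉ C → ∀ p ∈ Xb C X w, (p ∈ Z ↔ w ∈ Z)) (hU : Γ.HS U) (h1 : Γ.Near Z U)
    (h2 : Γ.Near Zᶜ Uᶜ) (hf : Γ.Near (Γ.fr U) C) (g : G) : Nest Z (tr g Z) := by
  have tb : TB C X (Γ.fr U) := (tb_base h).near h hf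
  have hr : ∀ a, ∀ c ∈ C, (a * c ∈ Z ↔ a ∈ Z) := fun a c hc => by
    by_cases ha : a ∈ C
    · exact ⟨fun e => (h.disj _ (hZX e) (C.mul_mem ha hc)).elim,
        fun e => (h.disj _ (hZX e) ha).elim⟩
    · exact hb a ha _ (Or.inl (by simpa using hc))
  have hco : ∀ p ∈ tr g (C : Set G), (p ∈ Z ↔ g ∈ Z) := fun p hp => by
    simpa using hr g _ hp
  have hfz : Γ.Near (Γ.fr (tr g Z)) (tr g C) := by
    rw [← tr_fr]
    exact (((Near.trans ⟨1, fr_subset Z⟩ h1).fr (Near.trans ⟨1, fr_subset' Z⟩ h2)).trans hf).tr g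
  have hY : ∀ p, ¬ (p ∈ Z ↔ g ∈ Z) → ∃ Y, ¬ TB C X Y ∧
      ∀ v ∈ Y, (v ∈ Z ↔ p ∈ Z) ∧ (v ∈ tr g Z ↔ p ∈ tr g Z) := fun p hp => by
    have k1 : g⁻¹ * p ∉ C := fun e => hp (hco p e)
    refine ⟨tr g (Xb C X (g⁻¹ * p)), fun e => not_tb_Xb h Γ k1 ?_, fun v hv => ⟨?_, hb _ k1 _ hv⟩⟩
    · simpa [tr_inv_tr] using e.tr h g⁻¹
    by_cases hpC : p ∈ C
    · have k2 : p ∉ Z := fun e => h.disj p (hZX e) hpC
      have k3 : g ∈ X := hZX (by tauto)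
      have k4 : (g⁻¹ * p)⁻¹ ∈ X := by simpa using h.left _ (C.inv_mem hpC) g k3
      rw [Xb_of_mem' h k4, tr_tr, mul_inv_cancel_left] at hv
      exact ⟨fun e => (hv (h.left _ (C.inv_mem hpC) v (hZX e))).elim, fun e => (k2 e).elim⟩
    · have k2 : p⁻¹ ∈ X ↔ p⁻¹ * g ∈ X := by_contra fun e =>
        hp (hb p hpC g (Or.inr ⟨fun k => k1 (by simpa using C.inv_mem k), e⟩)).symm
      rw [Xb_tr k2] at hv
      exact hb p hpC v hv
  by_cases hg : g ∈ Z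
  · have := nest_aux (A := Zᶜ) (B := tr g Z) h hU.2 h2
      (hfz.trans (by
        rw [compl_compl]
        exact (Near.of_subset fun p hp => (hco p hp).mpr hg).trans h1))
      (by rwa [fr_compl]) fun p hp => by
        obtain ⟨Y, a, b⟩ := hY p fun e => hp (e.mpr hg)
        exact ⟨Y, a, fun v hv e => hp ((b v hv).1.mp e), fun v hv => (b v hv).2⟩
    exact Or.inr (Or.inr this)
  · have := nest_aux (A := Z) (B := tr g Z) h hU.1 h1
      (hfz.trans ((Near.of_subset fun p hp e => hg ((hco p hp).mp e)).trans h2)) tb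
      fun p hp => by
        obtain ⟨Y, a, b⟩ := hY p fun e => hg (e.mp hp)
        exact ⟨Y, a, fun v hv => (b v hv).1.mpr hp, fun v hv => (b v hv).2⟩
    exact this.imp_right Or.inl

theorem balls (hV : Γ.Side {V}) (hA : Γ.Near Aᶜ Vᶜ) (ρ : ℕ) : ∃ p, ∀ q, Γ.d p q ≤ ρ → q ∈ A := by
  obtain ⟨c, hc⟩ := hA
  obtain ⟨p, hp⟩ := hV.core_ne rfl (c + ρ)
  refine ⟨p, fun q hq => by_contra fun e => hp.2 (mem_N_fr hp.1 (mem_N_of_d (hc e) ?_))⟩
  rwa [d_comm]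

end ExcP

open ExcP

theorem exc (hG : IsPD 3 G) (h0 : Γ.LP0) (s1 : S1 Γ) (hon : HON Γ) (nest : NEST Γ) : EXC Γ := by
  rintro C X h y hE s P hP hPX hPd ⟨hPD, K, Y, Q, r, hPK, hKY, hY, hYt, hQ, hYQ, hPQ⟩
  have hYD : ¬ Γ.Near Y (tr y C) := not_near h (tb_coset h y) hYt
  set S : Subgroup G := (blk C P ⊓ blk ⊤ (tr y (C : Set G))) ⊓ K with hS
  have a1 : Γ.Near (Γ.fr P) S :=
    near_inf (near_inf (near_blk hP) (hPD.trans (near_coset y))) hPK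
  have a2 : ∀ k ∈ S, tr k (tr y (C : Set G)) = tr y C ∧ tr k Y = Y :=
    fun k hk => ⟨hk.1.2.2, hKY k hk.2⟩
  have a3 : Γ.Near S (tr y C) := (Near.of_subset fun k hk => hk.1.2).trans (coset_near y)
  have a4 : S ≤ C := fun k hk => hk.1.1.1
  obtain ⟨E, hE'⟩ := fixE_of_end hY hYD a2 a3
  have fx : FixE Γ S := ⟨E, fun t => (hE' t).1⟩
  have a5 : S.FG := fg_of_pocket h0 hP hQ hPQ (fun k hk => ⟨hk.1.1.2, by
    have k1 := hQ.tr k
    have k2 := hYQ.tr k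
    rw [tr_N, (a2 k hk).1] at k1
    rw [(a2 k hk).2] at k2
    exact comp_uniq k1 hQ hYD k2 hYQ⟩) a1
  obtain ⟨U, T, hT, hU, hUP, hTU, hUT⟩ := hon S P a5
    (fun K' hK hfg => s1 K' hfg (fx.mono hK)) a1
    (fun e => hPd (e.trans (Near.of_subset a4))) fun t =>
      ⟨E t, (hE' t).1.1, (hE' t).1.2.2, fun e => hYD ((((hE' t).2.trans e).fr
        (hYQ.trans (Near.of_subset fun q hq k => Set.disjoint_left.mp hPQ k hq))).trans hPD)⟩
  have b1 : Γ.Near (Γ.fr U) S := hUT.trans (Near.of_subset hT)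
  have b2 : Γ.Near (Γ.fr U) C := b1.trans (Near.of_subset a4)
  have tb : TB C X (Γ.fr U) := (tb_base h).near h b2
  have di : ∀ z ∈ X, Γ.Near (Xb C X z) U ∨ Γ.Near (Xb C X z) Uᶜ := fun z hz => by
    obtain ⟨a, ha⟩ := b1.trans a3
    obtain ⟨W, k1, k2⟩ := hE z hz a
    exact (comp_side k1 ha).imp (fun e => k2.trans (Near.of_subset e))
      fun e => k2.trans (Near.of_subset e)
  set Z : Set G := {z | z ∈ X ∧ Γ.Near (Xb C X z) U} with hZ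
  have z1 : Γ.Near Z U := (side_uni (Γ := Γ) h tb).imp fun c hc z hz => hc z (h.disj z hz.1) hz.2
  have z2 : Γ.Near Zᶜ Uᶜ := by
    obtain ⟨c, hc⟩ := side_uni (Γ := Γ) (V := Uᶜ) h (by rwa [fr_compl])
    refine ⟨c, fun z hz => ?_⟩
    by_cases hzX : z ∈ X
    · exact hc z (h.disj z hzX) ((di z hzX).resolve_left fun e => hz ⟨hzX, e⟩)
    · exact subset_N _ _ fun e => hzX (hPX (hUP e))
  have z3 : ∀ w, w ∉ C → ∀ p ∈ Xb C X w, (p ∈ Z ↔ w ∈ Z) := fun w hw p hp => by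
    have k1 := Near.of_subset (Γ := Γ) (Xb_sub h hw hp)
    by_cases hwX : w ∈ X
    · refine ⟨fun e => ⟨hwX, (di w hwX).resolve_right fun e' => ?_⟩,
        fun e => ⟨Xb_sub_X h hwX hp, k1.trans e.2⟩⟩
      exact not_tb_Xb h Γ (h.disj p e.1) (tb.near h (e.2.fr (k1.trans e')))
    · exact ⟨fun e => ((Xb_sub_opp h ⟨hw, hwX⟩ hp).2 e.1).elim, fun e => (hwX e.1).elim⟩
  have z4 : Γ.Near (Γ.fr Z) (Γ.fr U) :=
    (Near.trans ⟨1, fr_subset Z⟩ z1).fr (Near.trans ⟨1, fr_subset' Z⟩ z2)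
  have z5 : T ≤ blk ⊤ Z := fun k hk => mem_blk_top.mpr (Set.ext fun p => by
    have hc := C.inv_mem (a4 (hT hk))
    refine and_congr (h.left_iff hc) ?_
    rw [← Xb_left h hc]
    refine ⟨fun e => ?_, fun e => ?_⟩
    · have := e.tr k
      rwa [tr_tr_inv, hTU k hk] at this
    · have := e.tr k⁻¹
      rwa [hTU _ (T.inv_mem hk)] at this)
  have p1 := balls (A := Z) hU.1 z2
  have p2 := balls (A := Zᶜ) hU.2 (by rwa [compl_compl, compl_compl])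
  obtain ⟨X', hX'⟩ := nest Z (nest_tr h (fun _ e => e.1) z3 hU z1 z2 b2)
    ((z4.trans hUT).trans (Near.of_subset z5)) p1 p2
  obtain ⟨a, ha⟩ := p1 0
  obtain ⟨b, hb⟩ := p2 0
  obtain ⟨f, hf, -, -⟩ := exists_fr (Γ := Γ) (ha a (by simp)) (hb b (by simp))
  exact done_of_near hG s1 fx hX' ((near_of_fix (fun k hk => by rw [tr_fr, hk.2]) ⟨f, hf⟩).trans
    (z4.trans b1))

end Pool.Agent.Lib.MP_d98eb9_al.W.J
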