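import Pool.Agent.Lib.MP_d98eb9_al.J.St

/-! An honest half-space opposite to a fixed end. -/

namespace Pool.Agent.Lib.MP_d98eb9_al.W

open MonoidAlgebra

variable {G : Type} [Group G] {Γ : Gen G}

namespace HonP

/-- Cocycles have potentials near a subgroup of type `FP_2`. -/
theorem pot (X : Geo Γ) {J : Subgroup G} (hfg : J.FG) (hfp : IsFP2 J) (r : ℕ) :
    ∃ r', ∀ φ : Fr G Γ.n →+ ℤ, (∀ g k, g ∈ Γ.N r' J → φ (X.d1 (e g k)) = 0) →
      ∃ u : G → ℤ, ∀ g i, g ∈ Γ.N r J → φ (e g i) = u (g * Γ.s i) - u g := by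
  classical
  obtain ⟨k, t, ht⟩ := exists_gen_family hfg
  choose γ hγ using fun g : G =>
    (exists_chain (Γ := Γ) (Gen.conn_empty 1 g)).imp fun _ h => h.1
  choose π hπ using fun b : J => (exact_bd t ht (single b 1 - single 1 1)).1 (by simp)
  let A : Fr J k →+ Fr G Γ.n := ofFun fun c κ => (single (c : G) 1 : ZG G) • γ (t κ)
  have hA : ∀ (c : J) x, A ((single c 1 : ZG J) • x) = (single (c : G) 1 : ZG G) • A x :=
    fun c => fr_ext (φ := A.comp (DistribSMul.toAddMonoidHom _ (single c 1 : ZG J)))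
      (ψ := (DistribSMul.toAddMonoidHom _ (single (c : G) 1 : ZG G)).comp A) fun g i => by
        simp [A, smul_e, smul_smul, single_mul_single]
  have hb : ∀ x, bd Γ.s (A x) = lsum (fun c : J => (single (c : G) 1 : ZG G)) (bd t x) :=
    fr_ext (φ := (bd Γ.s).toAddMonoidHom.comp A)
      (ψ := (lsum fun c : J => (single (c : G) 1 : ZG G)).comp (bd t).toAddMonoidHom)
      fun g i => by simp [A, bd_e, hγ, mul_sub, single_mul_single]
  obtain ⟨T0, hT0⟩ := (hfp.ker_finite t ht).fg_top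
  let z : G × Fin Γ.n × J → Fr G Γ.n := fun x => γ x.1 + e x.1 x.2.1
    - (single (x.2.2 : G) 1 : ZG G) • γ ((x.2.2 : G)⁻¹ * (x.1 * Γ.s x.2.1)) - A (π x.2.2)
  have hI : ({f | Γ.d 1 f ≤ r + 1} ×ˢ (Set.univ : Set (Fin Γ.n)) ×ˢ
      (Subtype.val ⁻¹' {b | Γ.d 1 b ≤ 2 * r + 3} : Set J)).Finite :=
    (Gen.ball_finite 1 _).prod (Set.finite_univ.prod
      ((Gen.ball_finite 1 _).preimage Subtype.val_injective.injOn))
  obtain ⟨ρ, hρ⟩ := Acyc.cyc X ((T0.finite_toSet.image fun κ => A κ.1).union (hI.image z)) (by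
    rintro _ (⟨κ, -, rfl⟩ | ⟨x, -, rfl⟩)
    · rw [hb, LinearMap.mem_ker.1 κ.2, map_zero]
    · simp [z, hb, hγ, hπ, bd_e, mul_sub, single_mul_single])
  refine ⟨ρ, fun φ hy => ?_⟩
  have h0 := fun x hx (c : J) => hρ x hx φ c fun h k hd => hy h k ⟨c, c.2, hd⟩
  have hK : ∀ κ ∈ Submodule.span (ZG J) (T0 : Set (LinearMap.ker (bd t))),
      ∀ c : J, φ (A ((single c 1 : ZG J) • κ.1)) = 0 := by
    intro κ hκ
    induction hκ using Submodule.span_induction with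
    | mem κ hκ => exact fun c => by rw [hA, h0 _ (Or.inl ⟨κ, hκ, rfl⟩)]
    | zero => simp
    | add a b _ _ ha hb => exact fun c => by simp [ha c, hb c]
    | smul s κ _ hκ =>
      intro c
      induction s using ind1 with
      | h0 => simp
      | hadd a b ha hb =>
        rw [add_smul, Submodule.coe_add, smul_add, map_add, map_add, ha, hb, add_zero]
      | hneg a ha =>
        rw [Submodule.coe_smul] at ha ⊢
        rw [neg_smul, smul_neg, map_neg, map_neg, ha, neg_zero]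
      | hs g => rw [Submodule.coe_smul, smul_smul, single_mul_single, mul_one, hκ]
  obtain ⟨v, hv⟩ := exists_pot t ht (φ.comp A) fun x hx => by
    have := hK ⟨x, hx⟩ (hT0 ▸ Submodule.mem_top) 1
    rwa [← one_def, one_smul] at this
  have hv' : ∀ a b : J, φ ((single (a : G) 1 : ZG G) • A (π b)) = v (a * b) - v a := by
    intro a b
    have := hv ((single a 1 : ZG J) • π b)
    rw [AddMonoidHom.comp_apply, hA, (bd t).map_smul, hπ] at this
    simpa [mul_sub, single_mul_single] using this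
  have ex : ∀ g, ∃ a : J, g ∈ Γ.N (r + 1) J → Γ.d a g ≤ r + 1 := fun g => by
    by_cases hg : g ∈ Γ.N (r + 1) J
    · obtain ⟨a, h1, h2⟩ := hg
      exact ⟨⟨a, h1⟩, fun _ => h2⟩
    · exact ⟨1, fun h => absurd h hg⟩
  choose a ha using ex
  refine ⟨fun g => v (a g) + φ ((single (a g : G) 1 : ZG G) • γ ((a g : G)⁻¹ * g)),
    fun g i hg => ?_⟩
  have g1 : g ∈ Γ.N (r + 1) J := Gen.N_mono (Nat.le_succ r) subset_rfl hg
  have g2 : g * Γ.s i ∈ Γ.N (r + 1) J := Gen.mem_N_of_d hg (Gen.d_gen g i)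
  have h1 := h0 _ (Or.inr ⟨((a g : G)⁻¹ * g, i, (a g)⁻¹ * a (g * Γ.s i)),
    ⟨(Gen.d_eq _ _).symm.trans_le (ha g g1), trivial, by
      have d1 := Γ.d_tri (a g) g (a (g * Γ.s i))
      have d2 := Γ.d_tri g (g * Γ.s i) (a (g * Γ.s i))
      have d3 := Γ.d_gen g i
      have d4 := ha g g1
      have d5 := ha _ g2
      rw [Gen.d_comm] at d5
      exact (Gen.d_eq _ _).symm.trans_le (by omega)⟩, rfl⟩) (a g)
  simp only [z, smul_sub, smul_add, map_sub, map_add, hv', smul_e, smul_smul, single_mul_single,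
    Subgroup.coe_mul, Subgroup.coe_inv, mul_inv_cancel_left, mul_one, mul_inv_rev, inv_inv,
    mul_assoc] at h1
  linarith

theorem cross {J W : Set G} {R : ℕ} (hR : Γ.fr W ⊆ Γ.N R J) {s : ℕ} {g h : G} (hgh : Γ.d g h ≤ s)
    (hne : ¬ (g ∈ W ↔ h ∈ W)) : h ∈ Γ.N (R + s) J := by
  refine Gen.N_N hR ?_
  by_cases h1 : h ∈ W
  · exact Gen.mem_N_fr h1 ⟨g, fun h2 => hne (iff_of_true h2 h1), hgh⟩
  · exact Gen.mem_N_fr' h1 ⟨g, by_contra fun h2 => hne (iff_of_false h2 h1), hgh⟩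

/-- Potentials on the complement of `W`. -/
theorem pot' (X : Geo Γ) {J : Subgroup G} (hfg : J.FG) (hfp : IsFP2 J) {W : Set G} {R : ℕ}
    (hR : Γ.fr W ⊆ Γ.N R J) (r : ℕ) :
    ∃ r', ∀ φ : Fr G Γ.n →+ ℤ, (∀ g k, g ∈ Γ.N r' J ∪ Wᶜ → φ (X.d1 (e g k)) = 0) →
      ∃ u : G → ℤ, ∀ g i, g ∈ Γ.N r J ∪ Wᶜ → φ (e g i) = u (g * Γ.s i) - u g := by
  classical
  obtain ⟨ρ, hρ⟩ := loc_map Γ X.d1
  obtain ⟨r', h⟩ := pot X hfg hfp (r + (R + ρ))
  refine ⟨r', fun φ hφ => ?_⟩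
  obtain ⟨u, hu⟩ := h φ fun g k hg => hφ g k (Or.inl hg)
  let y1 : Fr G Γ.n →+ ℤ := φ - (lsum u).comp (bd Γ.s).toAddMonoidHom
  have e1 : ∀ g i, y1 (e g i) = φ (e g i) - (u (g * Γ.s i) - u g) := fun g i => by
    change φ _ - lsum u (bd Γ.s _) = _
    rw [Loc.lsum_bd_e]
  have e2 : ∀ g i, g ∈ Γ.N (r + (R + ρ)) J → y1 (e g i) = 0 := fun g i hg => by
    rw [e1, hu g i hg, sub_self]
  have e3 : ∀ x, y1 (X.d1 x) = φ (X.d1 x) := fun x => by
    change φ _ - lsum u (bd Γ.s _) = _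
    rw [X.ex1.apply_apply_eq_zero, map_zero, sub_zero]
  let z : Fr G Γ.n →+ ℤ := ofFun fun g i => if g ∈ W then 0 else y1 (e g i)
  have e4 : ∀ g i, z (e g i) = if g ∈ W then 0 else y1 (e g i) := fun g i => ofFun_e _ g i
  obtain ⟨w, hw⟩ := exists_pot Γ.s Γ.gen z fun x hx => by
    obtain ⟨x, rfl⟩ := (X.ex1 x).mp hx
    refine fr_ext (φ := z.comp X.d1.toAddMonoidHom) (ψ := 0) (fun g k => ?_) x
    change z (X.d1 (e g k)) = 0
    by_cases hg : g ∈ W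
    · refine hρ ℤ z g k fun p i hp => ?_
      rw [e4]
      split_ifs with h8
      · rfl
      · exact e2 p i (Gen.N_mono (by omega) subset_rfl (cross hR hp fun h9 => h8 (h9.1 hg)))
    · rw [← hφ g k (Or.inr hg), ← e3, ← sub_eq_zero]
      refine hρ ℤ (z - y1) g k fun p i hp => ?_
      rw [AddMonoidHom.sub_apply, e4]
      split_ifs with h8
      · rw [e2 p i (Gen.N_mono (by omega) subset_rfl (cross hR hp fun h9 => hg (h9.2 h8))),
          sub_self]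
      · exact sub_self _
  refine ⟨fun g => u g + w g, fun g i hg => ?_⟩
  have e5 := hw (e g i)
  have e6 := e1 g i
  rw [Loc.lsum_bd_e, e4] at e5
  split_ifs at e5 with h8
  · rw [e2 g i (Gen.N_mono (by omega) subset_rfl (hg.resolve_right fun h => h h8))] at e6
    linarith
  · linarith

open Gen in
/-- A fixed end outside `W` makes the potentials almost constant. -/
theorem acyc (X : Geo Γ) {J : Subgroup G} (hfg : J.FG) (hfp : IsFP2 J) {W : Set G} {R : ℕ}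
    (hR : Γ.fr W ⊆ Γ.N R J)
    (hE : ∀ r, ∃ Q, Γ.Comp (Γ.N r J) Q ∧ (∀ k ∈ J, tr k Q = Q) ∧ ¬ Q ⊆ W) (r : ℕ) :
    ∃ r', ∀ y : Fr G Γ.n →ₗ[ZG G] ZG G, (∀ g k, g ∈ Γ.N r' J ∪ Wᶜ → co y (X.d1 (e g k)) = 0) →
      ∃ θ : ZG G →ₗ[ZG G] ZG G, ∀ g i, g ∈ Γ.N r J →
        co y (e g i) = co θ (bd Γ.s (e g i)) := by
  classical
  obtain ⟨R1, h1⟩ := (fg_iff_rc (Γ := Γ)).mp hfg
  obtain ⟨r0, a0, a1, a2⟩ : ∃ r0, R ≤ r0 ∧ R1 ≤ r0 ∧ r + 1 ≤ r0 := ⟨R + R1 + r + 1, by omega⟩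
  obtain ⟨r', h⟩ := pot' X hfg hfp hR r0
  refine ⟨r', fun y hy => ?_⟩
  obtain ⟨u, hu⟩ := h (co y) hy
  have hB := co_finite y
  set B := {g | ∃ i, co y (e g i) ≠ 0} with eB
  obtain ⟨b, hb⟩ := bdd_of_finite (Γ := Γ) hB 1
  obtain ⟨Q, q1, q2, q3⟩ := hE (r0 + b)
  obtain ⟨x, hx⟩ := q1.ne
  have hx0 : x ∉ Γ.N r0 J := fun h => q1.out hx (N_mono (by omega) subset_rfl h)
  have hE' : Γ.Comp (Γ.N r0 J) {q | Γ.Conn (Γ.N r0 J) x q} := ⟨x, hx0, rfl⟩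
  set E := {q | Γ.Conn (Γ.N r0 J) x q} with eE
  have hQE : Q ⊆ E := fun q hq => ((q1.eq hx).le hq).mono (N_mono (by omega) subset_rfl)
  have hxJ : ∀ c ∈ J, c * x ∈ Q := fun c hc => (q2 c hc).le (mul_mem_tr.mpr hx)
  have hEW : E ⊆ Wᶜ := fun p hp hpW => q3 fun q hq =>
    Conn.mem ((hE'.eq hp).le (hQE hq)) (fun z hz => N_mono a0 subset_rfl (hR hz.2)) hpW
  have hEJ : ∀ c ∈ J, tr c E = E := fun c hc => by
    have := hE'.tr c
    rw [tr_N, tr_subgroup hc] at this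
    exact this.disj hE' (mul_mem_tr.mpr (Conn.refl _ _)) (hQE (hxJ c hc))
  have const : ∀ {Z p q}, Γ.Conn Z p q → (∀ a, a ∉ Z → a ∈ Γ.N r0 J ∪ E ∧ a ∉ B) → u q = u p :=
    fun {Z p q} hc hZ => hc.ind (P := fun a => u a = u p) rfl fun a a' ha ha' hd e0 => by
      have k : ∀ a, a ∉ Z → ∀ i, u (a * Γ.s i) = u a := fun a ha i => by
        have k1 := hu a i ((hZ a ha).1.imp id fun h => hEW h)
        have k2 : co y (e a i) = 0 := by_contra fun h => (hZ a ha).2 ⟨i, h⟩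
        omega
      rcases d_le_one.mp hd with h | ⟨i, h | h⟩
      · rw [h, e0]
      · rw [h, k a ha, e0]
      · rw [← e0, h, k a' ha']
  have c1 : ∀ q ∈ Q, u q = u x := fun q hq => const (q1.conn hx hq) fun a ha =>
    have ha' : a ∈ Q := not_not.mp ha
    ⟨Or.inr (hQE ha'), fun h => q1.out ha' ⟨1, J.one_mem, (hb a h).trans (by omega)⟩⟩
  have c2 : ∀ p ∈ Γ.N r0 J, ∀ q ∈ E, Γ.Conn (Γ.N r0 J ∪ E)ᶜ p q := fun p hp q hq => by
    obtain ⟨a, ⟨a', hd, hn⟩, ha, -⟩ := exists_fr (Γ := Γ) hq fun h => hE'.out h hp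
    have ha' := hE'.adj ha (by tauto) hd
    have k1 : Γ.Conn (Γ.N r0 J ∪ E)ᶜ p a' :=
      (conn_N h1 a1 hp ha').mono fun z hz h => hz (Or.inl h)
    have k2 : Γ.Conn (Γ.N r0 J ∪ E)ᶜ a' a :=
      Conn.single (fun h => h (Or.inl ha')) (fun h => h (Or.inr ha)) (by rwa [d_comm])
    exact (k1.trans k2).trans ((hE'.conn ha hq).mono fun z hz h => hz (Or.inr h))
  obtain ⟨l, hl⟩ := bdd_conn (Γ := Γ) (J := J) (Z := (Γ.N r0 J ∪ E)ᶜ) (fun c hc => by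
    rw [tr_compl]
    congr 1
    change tr c (Γ.N r0 J) ∪ tr c E = _
    rw [tr_N, tr_subgroup hc, hEJ c hc]) r0 (r0 + Γ.d 1 x)
  have c3 : ∀ p ∈ Γ.N r0 J, p ∉ Γ.N l B → u p = u x := fun p hp hp' => by
    obtain ⟨c, hc, hd⟩ := id hp
    have d1 := d_tri (Γ := Γ) p c (c * x)
    rw [d_mul_right, d_comm p c] at d1
    rw [← c1 _ (hxJ c hc)]
    refine (const (hl p hp (c * x) (by omega) (c2 p hp _ (hQE (hxJ c hc)))) fun a ha =>
      ⟨not_not.mp fun h => ha (Or.inl h), fun h => hp' ⟨a, h, ?_⟩⟩).symm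
    rw [d_comm]
    exact not_lt.mp fun h => ha (Or.inr h)
  obtain ⟨θ, hθ⟩ := exists_co0 (lsum fun g => if g ∈ Γ.N r0 J then u g - u x else 0)
    ((N_finite (Γ := Γ) hB l).subset fun g hg => by
      simp only [Set.mem_ofPred_eq, lsum_single, one_smul] at hg
      split_ifs at hg with h2
      · exact by_contra fun h3 => hg (by rw [c3 g h2 h3, sub_self])
      · exact absurd rfl hg)
  refine ⟨θ, fun g i hg => ?_⟩
  have g1 : g ∈ Γ.N r0 J := N_mono (by omega) subset_rfl hg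
  have g2 : g * Γ.s i ∈ Γ.N r0 J := N_mono a2 subset_rfl (mem_N_of_d hg (d_gen g i))
  rw [hθ, Loc.lsum_bd_e, if_pos g1, if_pos g2, hu g i (Or.inl g1)]
  ring

/-- The other side of a deep component is connected far from the stabiliser. -/
theorem other (X : Geo Γ) {J S : Subgroup G} (hfg : J.FG) (hfp : IsFP2 J) {W : Set G}
    (hE : ∀ r, ∃ Q, Γ.Comp (Γ.N r J) Q ∧ (∀ k ∈ J, tr k Q = Q) ∧ ¬ Q ⊆ W)
    (hfg' : S.FG) (hinf : ¬ Γ.Near Set.univ S)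
    (hS : ∀ c ∈ S, c ∈ J ∧ tr c W = W) (hW : Γ.Near (Γ.fr W) J) (hd : ¬ Γ.Near W J)
    (hc : ∀ r, ∃ r', ∀ p ∈ W, ∀ q ∈ W, p ∉ Γ.N r' J → q ∉ Γ.N r' J → Γ.Conn (Γ.N r J) p q)
    (r : ℕ) : ∃ r', ∀ p q, p ∉ Γ.N r' S → q ∉ Γ.N r' S → Γ.Conn W p q →
      Γ.Conn (Γ.N r S) p q := by
  classical
  obtain ⟨k, t, ht⟩ := exists_gen_family hfg'
  obtain ⟨D⟩ := X.dual S
  have := Gen.infinite_quot hinf
  have := X.ker_proj S t ht
  obtain ⟨R, hR⟩ := hW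
  obtain ⟨ρ1, hρ1⟩ := loc_map Γ X.d1
  obtain ⟨ρ, hρ⟩ := D.ν_loc
  obtain ⟨r1, hr1⟩ := acyc X hfg hfp hR hE (R + ρ1)
  obtain ⟨r2, hr2⟩ := hc (r1 + R + ρ)
  obtain ⟨x0, x1, x2⟩ := Set.not_subset.1 fun h => hd ⟨r2, h⟩
  have hW : ∀ c ∈ S, ∀ g, c * g ∈ W ↔ g ∈ W := fun c hc g => by
    rw [← mul_mem_tr (g := c) (p := g), (hS c hc).2]
  choose γ hγ hγ' using fun κ => exists_chain (Γ := Γ) (Z := Γ.N (r1 + R + ρ) J ∪ Wᶜ)
    ((hr2 x0 x1 (t κ * x0) ((hW _ (t κ).2 _).2 x1) x2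
      fun h => x2 ((Gen.mul_mem_N (hS _ (t κ).2).1).1 h)).inside
      (fun _ h => Gen.N_mono (by omega) subset_rfl (hR h.2)) x1
      fun _ h => h.1.resolve_right fun h' => h' h.2)
  let α1 : (Fin k →₀ ZG S) →ₗ[ZG S] Du X.w S (Fr G X.m) :=
    Finsupp.linearCombination (ZG S) fun κ => ofFun D.ν (γ κ)
  have h1 : ∀ v, D.e1 (α1 v) = bd t v • D.q x0 := fun v => by
    have h2 : ∀ x, D.e1 (ofFun D.ν x) = lsum D.q (bd Γ.s x) :=
      fr_ext (φ := D.e1.toAddMonoidHom.comp (ofFun D.ν))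
        (ψ := (lsum D.q).comp (bd Γ.s).toAddMonoidHom) fun g i => by simp [D.e1_ν, bd_e]
    induction v using Finsupp.induction_linear with
    | zero => simp
    | add a b ha hb => rw [map_add, map_add, map_add, add_smul, ha, hb]
    | single κ s =>
      simp only [α1, bd, Finsupp.linearCombination_single, map_smul, h2, smul_eq_mul, mul_smul,
        sub_smul, one_smul, D.q_smul]
      rw [← bd, hγ, map_sub, lsum_single, lsum_single, one_smul, one_smul]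
  have h2 : ∀ v, α1 v ∈ Acyc.van X.w S X.m (Γ.N r1 J ∪ Wᶜ) fun c hc g hg =>
      hg.imp (Gen.mul_mem_N (hS c hc).1).2 fun h h' => h ((hW c hc g).1 h') := fun v => by
    rw [Finsupp.linearCombination_apply]
    refine Submodule.sum_mem _ fun κ _ => Submodule.smul_mem _ _ fun h hh l => ?_
    refine hγ' κ ℤ (AddMonoidHom.mk' (fun x => co (ofFun D.ν x).ev (e h l))
      fun a b => by simp [co_apply]) fun g i hg => ?_
    change co (ofFun D.ν (e g i)).ev (e h l) = 0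
    rw [ofFun_e]
    by_contra h0
    have h3 := hρ g i h l h0
    rw [Gen.d_comm] at h3
    refine hg (Or.inl ?_)
    rcases hh with h4 | h4
    · exact Gen.N_mono (by omega) subset_rfl (Gen.mem_N_of_d h4 h3)
    · exact Gen.N_mono (by omega) subset_rfl
        (cross hR h3 fun h5 => h4 (h5.2 (by_contra fun h6 => hg (Or.inr h6))))
  let M := Acyc.van X.w S Γ.n Wᶜ fun c hc g h h' => h ((hW c hc g).1 h')
  let f := Du.map X.w S X.d1 ∘ₗ M.subtype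
  have h3 : ∀ κ : LinearMap.ker (bd t), (α1 ∘ₗ (LinearMap.ker (bd t)).subtype) κ
      ∈ LinearMap.range f := fun κ => by
    obtain ⟨y, hy⟩ := (D.ex2 (α1 κ)).1 (by rw [h1, LinearMap.mem_ker.1 κ.2, zero_smul])
    have h4 : ∀ x, co y.ev (X.d1 x) = co (α1 κ).ev x := fun x => by rw [← hy]; rfl
    obtain ⟨θ, hθ⟩ := hr1 y.ev fun g l hg => by rw [h4, h2 _ g hg]
    let y1 := y.ev - θ ∘ₗ bd Γ.s
    have h5 : ∀ g i, g ∈ Γ.N (R + ρ1) J → co y1 (e g i) = 0 := fun g i hg => by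
      rw [Acyc.co_sub, hθ g i hg]
      exact sub_self _
    have h6 : ∀ x, co y1 (X.d1 x) = co (α1 κ).ev x := fun x => by
      rw [Acyc.co_sub, h4, co_apply (θ ∘ₗ _), LinearMap.comp_apply,
        X.ex1.apply_apply_eq_zero, map_zero]
      simp
    obtain ⟨y2, h7⟩ := exists_co (ofFun fun g i => if g ∈ W then co y1 (e g i) else 0)
      ((co_finite y1).subset fun g ⟨i, hi⟩ => ⟨i, fun h => hi (by simp [h])⟩)
    refine ⟨⟨Du.mk X.w S y2, fun g hg i => ?_⟩, Du.ext fun x => ?_⟩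
    · rw [Du.ev_mk, h7, ofFun_e, if_neg hg]
    · refine DFunLike.congr_fun (co_ext (q := y2 ∘ₗ X.d1) (q' := (α1 κ).ev) (fr_ext fun g l => ?_)) x
      change co y2 (X.d1 (e g l)) = _
      by_cases hg : g ∈ W
      · rw [← h6, ← sub_eq_zero]
        refine hρ1 ℤ (co y2 - co y1) g l fun h i hh => ?_
        rw [AddMonoidHom.sub_apply, h7, ofFun_e]
        split_ifs with h8
        · exact sub_self _
        · rw [h5 h i (cross hR hh fun h9 => h8 (h9.1 hg)), sub_self]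
      · rw [h2 _ g (Or.inr hg)]
        refine hρ1 ℤ (co y2) g l fun h i hh => ?_
        rw [h7, ofFun_e]
        split_ifs with h8
        · exact h5 h i (cross hR hh fun h9 => hg (h9.2 h8))
        · rfl
  obtain ⟨α2, h4⟩ := Module.projective_lifting_property f.rangeRestrict
    (LinearMap.codRestrict _ _ h3) f.surjective_rangeRestrict
  exact Alpha.conn (D := D) ⟨x0, α1, M.subtype ∘ₗ α2, h1, fun κ =>
    congrArg Subtype.val (DFunLike.congr_fun h4 κ)⟩ ht (fun c hc g hg => (hW c hc g).2 hg)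
    (fun κ g i hg => (α2 κ).2 g hg i) r

open Gen

variable {C : Subgroup G} {W : Set G} {R : ℕ}

/-- A deep component of the complement of a large neighbourhood of `C`, opposite to a fixed
end. -/
structure Dp (Γ : Gen G) (C : Subgroup G) (R : ℕ) (W : Set G) : Prop where
  st : ∀ r, ∃ r', ∀ p q, p ∉ Γ.N r' C → q ∉ Γ.N r' C → Γ.Conn (Γ.N R C) p q → Γ.Conn (Γ.N r C) p q
  rc : Γ.RC R C
  comp : Γ.Comp (Γ.N R C) W
  deep : ¬ Γ.Near W C
  fix : ∀ r, ∃ Q, Γ.Comp (Γ.N r C) Q ∧ (∀ k ∈ C, tr k Q = Q) ∧ ¬ Q ⊆ W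

namespace Dp

theorem out (h : Dp Γ C R W) {p : G} (hp : p ∈ C) : p ∉ W :=
  fun h' => h.comp.out h' (subset_N _ _ hp)

theorem deep' (h : Dp Γ C R W) : ¬ Γ.Near Wᶜ C := fun ⟨r, hr⟩ => by
  obtain ⟨Q, q1, -, q3⟩ := h.fix r
  obtain ⟨p, hp, hp'⟩ := Set.not_subset.mp q3
  exact q1.out hp (hr hp')

theorem fr_sub (h : Dp Γ C R W) : Γ.fr W ⊆ Γ.N (R + 1) C :=
  h.comp.fr_subset.trans (N_N subset_rfl)

theorem near_blk (h : Dp Γ C R W) : Γ.Near (Γ.fr W) (blk C W) :=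
  Near.trans ⟨1, fr_subset_inner W⟩ (near_of_stab (J := C) ⟨_, fun _ hp => h.fr_sub hp.2⟩
    fun c hc _ ha hca => ⟨hc, by
      have := h.comp.tr c
      rw [tr_N, tr_subgroup hc] at this
      exact this.disj h.comp (by simpa using ha.1) hca.1⟩)

theorem conn' (h : Dp Γ C R W) {p q : G} (hp : p ∉ W) (hq : q ∉ W) : Γ.Conn W p q :=
  h.comp.conn' ⟨1, subset_N _ _ C.one_mem⟩ (fun _ hp _ hq => conn_N h.rc le_rfl hp hq) hp hq

theorem fr_ne (h : Dp Γ C R W) : (Γ.fr W).Nonempty := by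
  obtain ⟨p, hp⟩ := h.comp.ne
  obtain ⟨b, hb, -⟩ := exists_fr (Γ := Γ) hp (h.out C.one_mem)
  exact ⟨b, hb⟩

theorem blk_near (h : Dp Γ C R W) : Γ.Near (blk C W) (Γ.fr W) :=
  near_of_inv (fun c hc a ha => by
    rw [← hc.2, ← tr_fr]
    simpa using ha) h.fr_ne

theorem app (h : Dp Γ C R W) {U : Set G} (hU : U = W ∨ U = Wᶜ) (r : ℕ) :
    Γ.Near (Γ.fr U) (Γ.core r U) := by
  have e : Γ.fr U = Γ.fr W := by rcases hU with rfl | rfl <;> simp [fr_compl]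
  have e2 : ¬ Γ.Near U C := by
    rcases hU with rfl | rfl
    exacts [h.deep, h.deep']
  rw [e]
  refine h.near_blk.trans (near_of_inv (fun c hc a ha => ?_) ?_)
  · have : tr c U = U := by
      rcases hU with rfl | rfl
      exacts [hc.2, by rw [tr_compl, hc.2]]
    rw [← this, ← tr_core]
    simpa using ha
  · by_contra hn
    exact e2 ⟨R + 1 + r, fun p hp => by_contra fun hp' => hn ⟨p, mem_core hp (e ▸ h.fr_sub) hp'⟩⟩

theorem st' (h : Dp Γ C R W) (r : ℕ) : ∃ r', ∀ p ∈ W, ∀ q ∈ W, p ∉ Γ.N r' C → q ∉ Γ.N r' C →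
    Γ.Conn (Γ.N r C) p q :=
  (h.st r).imp fun _ hr p hp q hq h1 h2 => hr p q h1 h2 ((h.comp.eq hp).le hq)

theorem fg (h : Dp Γ C R W) (Y : Geo Γ) : (blk C W).FG := by
  obtain ⟨r0, hr0⟩ := Y.lp0.rc_fr
  exact fg_of_near (hr0 W (fun _ hp _ hq => h.comp.conn hp hq)
    fun _ hp _ hq => h.conn' hp hq) h.near_blk h.blk_near

theorem hs (h : Dp Γ C R W) (Y : Geo Γ) (hfg : C.FG) (hfp : IsFP2 C) : Γ.HS W := by
  refine ⟨⟨by simpa using h.fr_ne, fun r => by simpa [Near] using h.app (Or.inl rfl) r, fun r => ?_⟩,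
    by simpa [fr_compl] using h.fr_ne, fun r => by simpa [Near] using h.app (Or.inr rfl) r,
    fun r => ?_⟩
  · obtain ⟨s, hs⟩ := h.st' (R + 1 + r)
    have key : ∀ p ∈ Γ.core s W, p ∉ Γ.N s C := fun p hp => core_not_mem (r := 0)
      (by simpa using hp) fun x hx => subset_N _ _ (h.out hx)
    refine ⟨s, fun U hU p hp q hq => ?_⟩
    obtain rfl : U = W := hU
    exact (hs p hp.1 q hq.1 (key p hp) (key q hq)).mono (N_N h.fr_sub)
  · obtain ⟨a, ha⟩ := h.near_blk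
    obtain ⟨b, hb⟩ := h.blk_near
    obtain ⟨s, hs⟩ := other Y hfg hfp h.fix (h.fg Y)
      (fun hn => h.deep ((Near.of_subset (Set.subset_univ _)).trans
        (hn.trans (Near.of_subset (blk_le C W))))) (fun c hc => hc) ⟨_, h.fr_sub⟩ h.deep h.st'
      (a + r)
    refine ⟨b + s, fun U hU p hp q hq => ?_⟩
    obtain rfl : U = Wᶜ := hU
    rw [Gen.core, fr_compl] at hp hq
    rw [fr_compl]
    exact (hs p q (fun h => hp.2 (N_N hb h)) (fun h => hq.2 (N_N hb h))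
      (h.conn' hp.1 hq.1)).mono (N_N ha)

end Dp

/-- Shallow components are uniformly shallow. -/
theorem shallow (Γ : Gen G) (C : Subgroup G) (R : ℕ) :
    ∃ s, ∀ W, Γ.Comp (Γ.N R C) W → Γ.Near W C → W ⊆ Γ.N s C := by
  obtain ⟨F, hF, -, hF2⟩ := comp_finite (Γ := Γ) R C
  have : ∀ U : Set G, ∃ s, Γ.Near U C → U ⊆ Γ.N s C := fun U => by
    by_cases h : Γ.Near U C
    · exact h.imp fun _ h _ => h
    · exact ⟨0, fun h' => absurd h' h⟩
  choose s hs using this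
  obtain ⟨S, hS⟩ := (hF.image s).bddAbove
  refine ⟨S, fun W hW hn p hp => ?_⟩
  obtain ⟨c, hc, U, hU, rfl⟩ := hF2 W hW
  have h3 := hn.tr c⁻¹
  rw [tr_inv_tr, tr_subgroup (C.inv_mem hc)] at h3
  exact (mul_mem_N (C.inv_mem hc)).mp (N_mono (hS ⟨U, hU, rfl⟩) subset_rfl (hs U h3 hp))

end HonP

open Gen HonP in
/-- A deep set opposite to a fixed end of a group of type `FP_2` contains a half-space. -/
theorem Geo.hon (Y : Geo Γ) {S : Subgroup G} {P : Set G} (hfg : S.FG) (hfp : IsFP2 S)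
    (hP : Γ.Near (Γ.fr P) S) (hd : ¬ Γ.Near P S)
    (hE : ∀ r, ∃ Q, Γ.Comp (Γ.N r S) Q ∧ (∀ k ∈ S, tr k Q = Q) ∧ ¬ Γ.Near Q P) :
    ∃ (U : Set G) (T : Subgroup G), T ≤ S ∧ Γ.HS U ∧ U ⊆ P ∧ (∀ k ∈ T, tr k U = U) ∧
      Γ.Near (Γ.fr U) T ∧ T.FG ∧ T = blk S U ∧ ∃ R, Γ.Comp (Γ.N R S) U := by
  obtain ⟨R0, h0⟩ := Y.stable hfg hfp fun hn => hd ((Near.of_subset (Set.subset_univ _)).trans hn)
  obtain ⟨R1, h1⟩ := (fg_iff_rc (Γ := Γ)).mp hfg
  obtain ⟨R2, h2⟩ := hP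
  obtain ⟨R, e0, e1, e2⟩ : ∃ R, R0 ≤ R ∧ R1 ≤ R ∧ R2 ≤ R := ⟨R0 + R1 + R2, by omega⟩
  obtain ⟨s, hs⟩ := shallow Γ S R
  obtain ⟨p, hp, hp'⟩ := Set.not_subset.mp fun h => hd ⟨R + s, h⟩
  have hc : Γ.Comp (Γ.N R S) _ := ⟨p, fun h => hp' (N_mono (by omega) subset_rfl h), rfl⟩
  have hW : {q | Γ.Conn (Γ.N R S) p q} ⊆ P := fun q hq =>
    Conn.mem hq (fun x hx => N_mono e2 subset_rfl (h2 hx.2)) hp
  have h : Dp Γ S R {q | Γ.Conn (Γ.N R S) p q} :=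
    ⟨fun r => (h0 r).imp fun _ hr p q hp hq hc => hr p q hp hq (hc.mono (N_mono e0 subset_rfl)),
      h1.mono e1, hc, fun hn => hp' (N_mono (by omega) subset_rfl (hs _ hc hn (Conn.refl _ _))),
      fun r => (hE r).imp fun Q hQ => ⟨hQ.1, hQ.2.1, fun h => hQ.2.2 (Near.of_subset (h.trans hW))⟩⟩
  exact ⟨_, _, blk_le _ _, h.hs Y hfg hfp, hW, fun _ hk => hk.2, h.near_blk, h.fg Y, rfl, R, hc⟩

theorem J.hon (Y : Geo Γ) : J.HON Γ := fun S _ hfg hfp hP hd hE => by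
  obtain ⟨U, T, h1, h2, h3, h4, h5, -⟩ := Y.hon hfg (hfp S le_rfl hfg) hP hd hE
  exact ⟨U, T, h1, h2, h3, h4, h5⟩

end Pool.Agent.Lib.MP_d98eb9_al.W
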