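import Pool.Agent.Lib.MP_d98eb9_al.J.Basic

/-! Block IND: induction on the bound for directed separation. -/

namespace Pool.Agent.Lib.MP_d98eb9_al.W.J

open Gen Pool.Agent.Lib.MP_1d6a3f_al

variable {G : Type} [Group G] {Γ : Gen G} {C : Subgroup G} {X : Set G}

namespace IndP

theorem dd0 {R : G → G → Prop} {L : ℕ → G → G → Prop} (hP : Part Γ C X R L) : DD X R R := by
  intro x hx y hy h1 h2 h3
  refine or_iff_not_imp_left.mpr fun hn => (hP.meet _ _).mpr fun t => ?_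
  obtain ⟨t1, ht⟩ := not_forall.mp (mt (hP.meet x y).mpr hn)
  exact hP.anti t (t + t1) (by omega) _ _ ((hP.dd (t + t1) x hx y hy h1 h2 h3).resolve_left
    fun e => ht (hP.anti t1 (t + t1) (by omega) _ _ e))

/-- One unfolding. -/
theorem one (part : PART Γ) (lim : LIM Γ) (inh : INH Γ) (exc : EXC Γ) (hd : ¬ Done G)
    (h : Sys C X) : ∃ β, β ⊆ X ∧ Sys (blk C β) β ∧
      (∀ y, DSep Γ (blk C β) β y →
        DSep Γ C X y ∧ (y⁻¹ ∈ X → y⁻¹ ∈ β) ∧ nn (blk C β) β y ≤ nn C X y) ∧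
      ∀ y, y ∉ X → (∀ z ∈ X, End1 Γ (tr y C) (Xb C X z)) → End1 Γ (tr y (blk C β)) β := by
  obtain ⟨R, L, hP⟩ := part C X h
  obtain ⟨x0, h0⟩ := h.ne
  have h' := hP.br.unfold h (dd0 hP) ((lim C X R L h hP).resolve_right hd) h0
  refine ⟨_, fun _ e => e.1, h', inh C X R L h hP x0 h0 _ rfl h', fun y hy e => ?_⟩
  exact (hP.p3 x0 h0 y hy e fun s P a b c k => hd (exc C X h y e s P a b c k)).mon0
    (Near.of_subset (tr_mono y (blk_le C _)))

/-- One unfolding removes the longest pairs whose far side is the side `X`. -/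
theorem step (part : PART Γ) (lim : LIM Γ) (inh : INH Γ) (exc : EXC Γ) (hd : ¬ Done G)
    (h : Sys C X) {j : ℕ} (hj : ∀ y, DSep Γ C X y → nn C X y ≤ j) :
    ∃ (C' : Subgroup G) (β : Set G), β ⊆ X ∧ Sys C' β ∧ ∀ y, DSep Γ C' β y →
      DSep Γ C X y ∧ nn C' β y ≤ nn C X y ∧ (j ≤ nn C X y → y⁻¹ ∈ β) := by
  obtain ⟨β, b1, b2, b3, b4⟩ := one part lim inh exc hd h
  refine ⟨_, β, b1, b2, fun y hy => ?_⟩
  obtain ⟨a1, a2, a3⟩ := b3 y hy
  refine ⟨a1, a3, fun hm => a2 (by_contra fun hn => hy.2 ?_)⟩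
  have e1 := b4 y⁻¹ hn fun z hz => by
    have hz' : z ∈ far C X y := ⟨h.disj z hz, fun e => hn (e.mpr hz)⟩
    have h1 := nn_far h a1.1 hz'
    have h2 : End1 Γ C (Xb C X (y * z)) := by_contra fun e =>
      absurd (hj _ ⟨Xb_not_mem h a1.1 (mul_mem_Xb hz'), e⟩) (by omega)
    have h3 := h2.tr y⁻¹
    rwa [← Xb_far h a1.1 hz', tr_inv_tr] at h3
  have e2 := e1.tr y
  rw [tr_tr_inv] at e2
  refine e2.mono (Near.tr (Near.union (near_of_inv b2.left b2.ne) (Near.of_subset ?_)) y)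
  exact fun z hz => by_contra fun e => hz.2 (iff_of_false (fun k => hn (b1 k)) e)

end IndP

theorem ind (hG : IsPD 3 G) (s1 : S1 Γ) (part : PART Γ) (lim : LIM Γ) (inh : INH Γ)
    (exc : EXC Γ) : IND Γ := by
  intro j
  induction j with
  | zero =>
    intro C X h hj
    by_contra hd
    obtain ⟨β, -, b2, -, b4⟩ := IndP.one part lim inh exc hd h
    have e := b4 1 (fun e => h.disj 1 e C.one_mem) fun z hz => by
      rw [tr_one]
      exact by_contra fun e => absurd (hj z ⟨h.disj z hz, e⟩) (by omega)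
    rw [tr_one] at e
    exact hd (done_of_near hG s1 (fixE_of_end' e (b2.not_near Γ) fun k hk => hk.2) b2 (Near.refl _))
  | succ j ih =>
    intro C X h hj
    by_contra hd
    obtain ⟨C', β, -, a1, a2⟩ := IndP.step part lim inh exc hd h fun y hy =>
      Nat.lt_succ_iff.mp (hj y hy)
    obtain ⟨D, γ, b0, b1, b2⟩ := IndP.step (j := j) part lim inh exc hd a1.swap fun y hy => by
      obtain ⟨c1, c2, -⟩ := a2 y (dsep_opp.mp hy)
      have := hj y c1
      rw [nn_opp]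
      omega
    refine hd (ih D γ b1 fun y hy => by_contra fun hn => ?_)
    obtain ⟨c1, c2, c3⟩ := b2 y hy
    obtain ⟨d1, d2, d3⟩ := a2 y (dsep_opp.mp c1)
    rw [nn_opp] at c2 c3
    exact (b0 (c3 (by omega))).2 (d3 (by omega))

end Pool.Agent.Lib.MP_d98eb9_al.W.J
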