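import Pool.Agent.Lib.MP_d98eb9_al.J.St

/-! Directed separation is inherited by the unfolding. -/

namespace Pool.Agent.Lib.MP_d98eb9_al.W.J

open Pool.Agent.Lib.MP_1d6a3f_al Gen

variable {G : Type} [Group G] {Γ : Gen G} {C : Subgroup G} {X : Set G}

namespace InhP

variable {D D' Y Y' P Q W Z : Set G} {x y : G} {r : ℕ}

/-- A component lies in a component of every set that it misses. -/
theorem comp_sub (hP : Γ.Comp Z P) (hW : ∀ p ∈ P, p ∉ W) : ∃ Q, Γ.Comp W Q ∧ P ⊆ Q := by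
  obtain ⟨p, hp⟩ := hP.ne
  exact ⟨_, ⟨p, hW p hp, rfl⟩, fun q hq => (hP.conn hp hq).mono fun z hz hz' => hW z hz' hz⟩

theorem end_mono (h : End1 Γ D Y) (hD : Γ.Near D' D) (hY : Γ.Near Y' Y) : End1 Γ D' Y' := by
  intro s
  obtain ⟨r, hr⟩ := hD
  obtain ⟨P, hP, hn⟩ := h (r + s)
  obtain ⟨Q, hQ, hs⟩ := comp_sub (W := Γ.N s D') hP fun p hp e => hP.out hp (N_N hr e)
  exact ⟨Q, hQ, (hY.trans hn).trans (Near.of_subset hs)⟩

theorem end_tr (h : End1 Γ D Y) (g : G) : End1 Γ (tr g D) (tr g Y) := by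
  intro s
  obtain ⟨P, hP, hn⟩ := h s
  exact ⟨_, tr_N (Γ := Γ) g s D ▸ hP.tr g, hn.tr g⟩

/-- Points of a component that are close to its complement are close to the wall. -/
theorem close (hQ : Γ.Comp (Γ.N r D) Q) (hW : ∀ p ∈ W, p ∉ Q) (a : ℕ) :
    Γ.N a W ∩ Q ⊆ Γ.N (r + 1 + a) D := fun p hp =>
  N_N (hQ.fr_subset.trans (N_N subset_rfl))
    (mem_N_fr hp.2 (N_mono le_rfl (fun z hz => hW z hz) hp.1))

theorem uniq (hP : Γ.Comp (Γ.N r D) P) (hQ : Γ.Comp (Γ.N r D) Q) (h1 : Γ.Near Y P)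
    (h2 : Γ.Near Y Q) (hn : ¬ Γ.Near Y D) : P = Q := by
  by_contra e
  obtain ⟨a, ha⟩ := h1
  obtain ⟨b, hb⟩ := h2
  refine hn ⟨r + 1 + (a + b) + b, fun p hp => ?_⟩
  obtain ⟨q, hq, hd⟩ := hb hp
  exact mem_N_of_d (close hQ (W := P) (fun z hz hz' => e (hP.disj hQ hz hz')) (a + b)
    ⟨mem_N_of_d (ha hp) (by rwa [d_comm]), hq⟩) hd

/-- The triangle inequality in the tree. -/
theorem nn_mul (h : Sys C X) (a b : G) : nn C X (a * b) ≤ nn C X a + nn C X b + 1 := by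
  have h1 : SysA.S2 C X 1 (a * b) ⊆
      insert (a : G ⧸ C) (SysA.S2 C X 1 a ∪ SysA.S2 C X a (a * b)) := by
    rintro _ ⟨w, rfl, h1, h2, h3⟩
    by_cases e : w⁻¹ * a ∈ C
    · exact Or.inl (QuotientGroup.eq.mpr e)
    by_cases e' : w⁻¹ * 1 ∈ X ↔ w⁻¹ * a ∈ X
    · exact Or.inr (Or.inr ⟨w, rfl, e, h2, fun k => h3 (e'.trans k)⟩)
    · exact Or.inr (Or.inl ⟨w, rfl, h1, e, e'⟩)
  have h2 := Set.ncard_le_ncard h1 (((SysA.fin_S2 h _ _).union (SysA.fin_S2 h _ _)).insert _)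
  have h3 := Set.ncard_insert_le (a : G ⧸ C) (SysA.S2 C X 1 a ∪ SysA.S2 C X a (a * b))
  have h4 := Set.ncard_union_le (SysA.S2 C X 1 a) (SysA.S2 C X a (a * b))
  simp only [SysA.card_S2, inv_one, one_mul, inv_mul_cancel_left] at h2 h4
  omega

theorem bdd_near (h : Sys C X) (g : G) (r : ℕ) : ∃ L, ∀ p ∈ Γ.N r (tr g C), nn C X p ≤ L := by
  obtain ⟨j, hj⟩ := h.nn_bdd Γ r
  refine ⟨nn C X g + j + 1, fun p hp => ?_⟩
  rw [← tr_N] at hp
  have h1 := hj (g⁻¹ * p) 1 C.one_mem (by rw [mul_one]; exact hp)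
  have h2 := nn_mul h g (g⁻¹ * p)
  rw [mul_inv_cancel_left] at h2
  omega

/-- One can walk away from the base edge with bounded steps. -/
theorem walk (h : Sys C X) : ∃ κ, ∀ p, p ∉ C → ∃ z ∈ far C X p, Γ.d p (p * z) ≤ κ ∧
    nn C X p < nn C X (p * z) := by
  obtain ⟨a, ha⟩ := h.ne
  obtain ⟨b, hb⟩ := h.ne'
  refine ⟨Γ.d 1 a + Γ.d 1 b, fun p hp => ?_⟩
  obtain ⟨z, hz, hd⟩ : ∃ z ∈ far C X p, Γ.d 1 z ≤ Γ.d 1 a + Γ.d 1 b := by
    rcases far_eq hp h.disj with e | e <;> rw [e]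
    exacts [⟨a, ha, by omega⟩, ⟨b, hb, by omega⟩]
  have h1 := h.nn_lt hz.1 (fun e => hp (C.inv_mem_iff.mp e)) fun e => hz.2 e.symm
  rw [← mul_inv_rev, h.nn_inv, h.nn_inv] at h1
  exact ⟨z, hz, by rwa [d_mul_right], h1⟩

/-- A set that is closed under walking away is not close to an edge. -/
theorem deep (h : Sys C X) (hne : Y.Nonempty)
    (hY : ∀ p ∈ Y, ∃ q ∈ Y, nn C X p < nn C X q) (g : G) : ¬ Γ.Near Y (tr g C) := by
  rintro ⟨r, hr⟩
  obtain ⟨L, hL⟩ := bdd_near (Γ := Γ) h g r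
  have key : ∀ k, ∃ p ∈ Y, k ≤ nn C X p := fun k => by
    induction k with
    | zero => exact hne.imp fun y hy => ⟨hy, Nat.zero_le _⟩
    | succ k ih =>
      obtain ⟨p, hp, hk⟩ := ih
      obtain ⟨q, hq, hl⟩ := hY p hp
      exact ⟨q, hq, by omega⟩
  obtain ⟨p, hp, hk⟩ := key (L + 1)
  have := hL p (hr hp)
  omega

theorem mem_xb {z : G} : x * z ∈ Xb C X x ↔ z ∈ C ∨ z ∈ far C X x := mul_mem_tr

theorem self_xb (x : G) : x ∈ Xb C X x := by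
  simpa using (mem_xb (C := C) (X := X) (x := x) (z := 1)).mpr (Or.inl C.one_mem)

theorem xb_X (h : Sys C X) (hx : x ∈ X) : Xb C X x ⊆ X := fun p hp => by
  rcases hp with e | e
  · simpa using h.right _ e x hx
  · simpa using h.far_mem hx e

/-- The closed far sides are nested. -/
theorem xb_sub (h : Sys C X) (hx : x ∉ C) (hy : y ∈ Xb C X x) : Xb C X y ⊆ Xb C X x := by
  obtain ⟨z, rfl⟩ : ∃ z, y = x * z := ⟨x⁻¹ * y, by simp⟩
  intro p hp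
  obtain ⟨w, rfl⟩ : ∃ w, p = x * z * w := ⟨(x * z)⁻¹ * p, by group⟩
  rw [mul_assoc, mem_xb]
  rcases mem_xb.mp hy with e | e <;> rcases mem_xb.mp hp with e' | e'
  · exact Or.inl (C.mul_mem e e')
  · rw [h.far_right e] at e'
    exact Or.inr ⟨fun k => e'.1 ((C.mul_mem_cancel_left e).mp k), by
      rw [h.left_iff e]; exact e'.2⟩
  · exact Or.inr ⟨fun k => e.1 ((C.mul_mem_cancel_right e').mp k), by
      rw [h.right_iff e']; exact e.2⟩
  · exact Or.inr (h.far_far hx e e')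

theorem xb_out (h : Sys C X) (hx : x ∉ C) : ∀ p ∈ Xb C X x, p ∉ C := fun p hp hc => by
  rcases hp with e | e
  · exact hx (C.inv_mem_iff.mp ((C.mul_mem_cancel_right hc).mp e))
  · exact e.2 (h.right_iff hc).symm

theorem xb_deep (h : Sys C X) (hx : x ∉ C) (g : G) : ¬ Γ.Near (Xb C X x) (tr g C) := by
  obtain ⟨κ, hκ⟩ := walk (Γ := Γ) h
  refine deep h ⟨x, self_xb x⟩ (fun p hp => ?_) g
  obtain ⟨z, hz, -, hl⟩ := hκ p (xb_out h hx p hp)
  exact ⟨_, xb_sub h hx hp (mem_xb.mpr (Or.inr hz)), hl⟩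

theorem xb_fr (h : Sys C X) (x : G) : Γ.Near (Γ.fr (Xb C X x)) (tr x C) := by
  have key : ∀ X' : Set G, Sys C X' → (C : Set G) ∪ far C X x = X'ᶜ →
      Γ.Near (Γ.fr (Xb C X x)) (tr x C) := fun X' h' e => by
    rw [Xb, e, ← tr_fr, fr_compl]
    exact (h'.fr_near Γ).tr x
  by_cases e : x⁻¹ ∈ X
  · refine key X h (Set.ext fun z => ?_)
    have := h.disj z
    simp only [far, Set.mem_union, SetLike.mem_coe, Set.mem_ofPred_eq, Set.mem_compl_iff]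
    tauto
  · refine key _ h.swap (Set.ext fun z => ?_)
    have := h.disj z
    simp only [far, opp, Set.mem_union, SetLike.mem_coe, Set.mem_ofPred_eq, Set.mem_compl_iff]
    tauto

/-- Separation: a region behind a wall. -/
theorem end_wall (h : End1 Γ D Y) (hn : ¬ Γ.Near Y D) (hQ : Γ.Comp (Γ.N r D) Q)
    (hY : Γ.Near Y Q) (hD : ∀ a, Γ.Near (Γ.N a D' ∩ Q) D) : End1 Γ D' Y := by
  intro s
  obtain ⟨t, ht⟩ := hD s
  obtain ⟨P, hP, hp⟩ := h (r + t)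
  obtain ⟨P', hP', hs⟩ := comp_sub (W := Γ.N r D) hP fun p hp e =>
    hP.out hp (N_mono (by omega) subset_rfl e)
  obtain rfl := uniq hP' hQ (hp.trans (Near.of_subset hs)) hY hn
  obtain ⟨P2, hP2, hs2⟩ := comp_sub (W := Γ.N s D') hP fun p hp e =>
    hP.out hp (N_mono (by omega) subset_rfl (ht ⟨e, hs hp⟩))
  exact ⟨P2, hP2, hp.trans (Near.of_subset hs2)⟩

/-- Directed separation passes to the two halves of a segment. -/
theorem dsep_half (h : Sys C X) (hy : DSep Γ C X y) (n1 : x ∉ C) (n2 : x⁻¹ * y ∉ C)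
    (n3 : ¬ (x⁻¹ ∈ X ↔ x⁻¹ * y ∈ X)) : DSep Γ C X x ∧ DSep Γ C X (x⁻¹ * y) := by
  have hs := xb_sub h n1 (y := y) (Or.inr ⟨n2, n3⟩)
  refine ⟨⟨n1, fun e => hy.2 (end_mono e (Near.refl _) (Near.of_subset hs))⟩, n2, fun e => hy.2 ?_⟩
  have e1 : tr x (Xb C X (x⁻¹ * y)) = Xb C X y := by
    have := h.nest _ _ n2 (fun k => n1 (C.inv_mem_iff.mp k)) fun k => n3 k.symm
    rw [show (x⁻¹ * y)⁻¹ * x⁻¹ = y⁻¹ by group] at this
    simp only [Xb, tr_tr, mul_inv_cancel_left, far, this]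
  have e2 := end_tr e x
  rw [e1] at e2
  obtain ⟨t, ht⟩ := xb_fr (Γ := Γ) h x
  obtain ⟨Q, hQ, hn⟩ := e2 t
  have hd := xb_deep (Γ := Γ) h hy.1 x
  have hin : Q ⊆ Xb C X x := by
    by_contra k
    obtain ⟨q, hq, hq'⟩ := Set.not_subset.mp k
    have k1 : Q ⊆ (Xb C X x)ᶜ := fun p hp => ((hQ.eq hq).le hp).mem (U := (Xb C X x)ᶜ)
      (fun z hz => ht (fr_compl (Γ := Γ) (Xb C X x) ▸ hz.2)) hq'
    exact hd (((Near.of_subset hs).fr (hn.trans (Near.of_subset k1))).trans ⟨t, ht⟩)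
  refine end_wall e2 hd hQ hn fun a => ⟨t + a, fun p hp => N_N ht (mem_N_fr (hin hp.2)
    (N_mono le_rfl (fun z hz k => xb_out h n1 z k hz) hp.1))⟩

variable {R : G → G → Prop}

theorem tr_cls (h : Sys C X) (cl : Br C X R) {c : G} (hc : c ∈ C) (x : G) :
    tr c (cls X R x) = cls X R (c * x) := by
  refine Set.ext fun p => and_congr (h.left_iff (C.inv_mem hc)) ⟨fun e => ?_, fun e => ?_⟩
  · simpa using cl.hl c hc _ _ e
  · simpa using cl.hl _ (C.inv_mem hc) _ _ e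

theorem xb_cls (h : Sys C X) (cl : Br C X R) (hx : x ∈ X) : Xb C X x ⊆ cls X R x :=
  fun p hp => ⟨xb_X h hx hp, cl.xb x hx p hp⟩

theorem xb_pos (h : Sys C X) (hy : y⁻¹ ∈ X) : Xb C X y = tr y Xᶜ := by
  refine congrArg _ (Set.ext fun z => ?_)
  have := h.disj z
  simp only [far, Set.mem_union, SetLike.mem_coe, Set.mem_ofPred_eq, Set.mem_compl_iff]
  tauto

theorem xb_neg (h : Sys C X) (hy : y⁻¹ ∉ X) : Xb C X y = tr y (C ∪ X) := by
  refine congrArg _ (Set.ext fun z => ?_)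
  have := h.disj z
  simp only [far, Set.mem_union, SetLike.mem_coe, Set.mem_ofPred_eq]
  tauto

theorem core (h : Sys C X) (cl : Br C X R) (dd : DD X R R)
    (p4 : ∀ w ∈ X, End1 Γ (tr w C) Xᶜ → End1 Γ (tr w C) (cls X R w)ᶜ) {x0 : G} (h0 : x0 ∈ X)
    {β : Set G} (hβ : β = cls X R x0) (h' : Sys (blk C β) β)
    (h1 : ∀ x ∈ X, ∀ g ∈ X, ¬ R x g → End1 Γ (tr g C) (cls X R x))
    (h2 : ∀ x ∈ X, ∀ g ∈ X, ¬ R x g → End1 Γ (blk C (cls X R g)) (cls X R x)) :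
    ∀ y, DSep Γ (blk C β) β y →
      DSep Γ C X y ∧ (y⁻¹ ∈ X → y⁻¹ ∈ β) ∧ nn (blk C β) β y ≤ nn C X y := by
  have b0 : ∀ a, a ∈ β ↔ a ∈ X ∧ R x0 a := fun a => by rw [hβ]; rfl
  have b1 : ∀ a ∈ β, a ∈ X := fun a ha => ((b0 a).mp ha).1
  have b2 : ∀ a ∈ β, cls X R a = β := fun a ha => Set.ext fun p => by
    rw [b0]
    exact and_congr_right fun _ => ⟨cl.eqv.trans ((b0 a).mp ha).2,
      cl.eqv.trans (cl.eqv.symm ((b0 a).mp ha).2)⟩
  have b3 : ∀ c ∈ C, ∀ a ∈ β, c * a ∈ β → c ∈ blk C β := fun c hc a ha k => by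
    subst hβ
    exact h.mem_blk cl.eqv cl.hl hc ha k.2
  have b4 : Γ.Near (blk C β ∪ β) β := (near_of_inv h'.left h'.ne).union (Near.refl _)
  have le : Γ.Near (blk C β) C := Near.of_subset (blk_le C β)
  have g2 : ∀ y, DSep Γ (blk C β) β y → y⁻¹ ∈ X → y⁻¹ ∈ β := fun y hy e => by_contra fun n => by
    have k := end_tr (h1 x0 h0 _ e fun k => n ((b0 _).mpr ⟨e, k⟩)) y
    rw [tr_tr_inv, ← hβ] at k
    exact hy.2 (xb_neg h' n ▸ end_mono k le (b4.tr y))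
  have g1 : ∀ y, DSep Γ (blk C β) β y → y ∉ C := fun y hy e => by
    have k := h2 _ (h.left y e x0 h0) x0 h0 fun k => hy.1 (b3 y e x0
      ((b0 _).mpr ⟨h0, cl.eqv.refl _⟩) ((b0 _).mpr ⟨h.left y e x0 h0, cl.eqv.symm k⟩))
    rw [← tr_cls h cl e, ← hβ] at k
    exact hy.2 (xb_neg h' (fun n => h.disj _ (b1 _ n) (C.inv_mem e)) ▸
      end_mono k (Near.refl _) (b4.tr y))
  have g5 : ∀ u, DSep Γ (blk C β) β u → u ∈ X → u ∈ β := fun u hu e => by_contra fun n => by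
    have k := h2 u e x0 h0 fun k => n ((b0 _).mpr ⟨e, cl.eqv.symm k⟩)
    rw [← hβ] at k
    refine hu.2 (end_mono k (Near.refl _) (Near.of_subset fun w hw => ?_))
    by_cases e1 : u⁻¹ ∈ β
    · rw [xb_pos h' e1] at hw
      by_cases e2 : u⁻¹ * w ∈ X
      · have e3 : w ∈ X := by_contra fun k1 => hw ((b2 _ e1).le (xb_cls h cl (b1 _ e1) (by
          rw [xb_pos h (by rwa [inv_inv])]
          simpa using k1)))
        by_cases e4 : w⁻¹ ∈ X ↔ w⁻¹ * u ∈ X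
        · exact ⟨e3, (dd u e w e3 (b1 _ e1) e2 e4).resolve_right fun k1 =>
            hw ((b2 _ e1).le ⟨e2, k1⟩)⟩
        · exact ⟨e3, cl.eqv.symm (cl.xb w e3 u (Or.inr
            ⟨fun k1 => h.disj _ e2 (by simpa using C.inv_mem k1), e4⟩))⟩
      · exact xb_cls h cl e (by rw [xb_pos h (b1 _ e1)]; exact e2)
    · rw [xb_neg h' e1] at hw
      refine xb_cls h cl e ?_
      rw [xb_neg h fun k1 => e1 (g2 u hu k1)]
      exact Or.imp (fun k1 => k1.1) (b1 _) hw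
  intro y hy
  refine ⟨⟨g1 y hy, fun e => hy.2 ?_⟩, g2 y hy, ?_⟩
  · by_cases e1 : y⁻¹ ∈ β
    · rw [xb_pos h (b1 _ e1)] at e
      have k := end_tr e y⁻¹
      rw [tr_inv_tr] at k
      have k1 := end_tr (p4 _ (b1 _ e1) k) y
      rw [tr_tr_inv, b2 _ e1] at k1
      exact xb_pos h' e1 ▸ end_mono k1 le (Near.refl _)
    · rw [xb_neg h fun k1 => e1 (g2 y hy k1)] at e
      rw [xb_neg h' e1]
      exact end_mono e le (Near.of_subset fun w hw => Or.imp (fun k1 => k1.1) (b1 _) hw)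
  · have key : ∀ x : G, x ∉ blk C β → x⁻¹ * y ∉ blk C β → ¬ (x⁻¹ ∈ β ↔ x⁻¹ * y ∈ β) →
        x⁻¹ ∈ β ∧ x⁻¹ * y ∈ opp C X ∨ x⁻¹ * y ∈ β ∧ x⁻¹ ∈ opp C X := fun x n1 n2 n3 => by
      obtain ⟨d1, d2⟩ := dsep_half h' hy n1 n2 n3
      by_cases e : x⁻¹ ∈ β
      · exact Or.inl ⟨e, g1 _ d2, fun k => n3 ⟨fun _ => g5 _ d2 k, fun _ => e⟩⟩
      · exact Or.inr ⟨by tauto, fun k => g1 _ d1 (C.inv_mem_iff.mp k), fun k => e (g2 _ d1 k)⟩
    refine Set.ncard_le_ncard_of_injOn (Subgroup.quotientMapOfLE (blk_le C β)) ?_ ?_ (h.fin y)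
    · rintro _ ⟨x, rfl, n1, n2, n3⟩
      rcases key x n1 n2 n3 with e | e
      · exact ⟨x, rfl, fun k => h.disj _ (b1 _ e.1) (C.inv_mem k), e.2.1,
          fun k => e.2.2 (k.mp (b1 _ e.1))⟩
      · exact ⟨x, rfl, fun k => e.2.1 (C.inv_mem k), h.disj _ (b1 _ e.1),
          fun k => e.2.2 (k.mpr (b1 _ e.1))⟩
    · rintro _ ⟨x, rfl, n1, n2, n3⟩ _ ⟨z, rfl, m1, m2, m3⟩ e
      have hc' : z⁻¹ * x ∈ C := QuotientGroup.eq.mp e.symm
      refine (QuotientGroup.eq.mpr ?_).symm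
      rcases key x n1 n2 n3 with e1 | e1 <;> rcases key z m1 m2 m3 with e2 | e2
      · exact b3 _ hc' _ e1.1 (by simpa using e2.1)
      · exact absurd (by simpa using h.left _ hc' _ (b1 _ e1.1)) e2.2.2
      · exact absurd (by simpa [mul_assoc] using h.left _ hc' _ (b1 _ e1.1)) e2.2.2
      · exact b3 _ hc' _ e1.1 (by simpa [mul_assoc] using e2.1)

end InhP

theorem inh : INH Γ := by
  intro C X R L h hP x0 h0 β hβ h'
  refine InhP.core h hP.br (fun x hx y hy a b c => by_contra fun n => ?_) hP.p4 h0 hβ h'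
    (fun x hx g hg n => hP.p12 x hx g hg n _ ?_ (Near.of_subset fun p hp =>
      InhP.xb_cls h hP.br hg (Or.inl hp))) fun x hx g hg n => hP.p12 x hx g hg n _ ?_ ?_
  · obtain ⟨t, ht⟩ := not_forall.mp fun k => n (Or.inl ((hP.meet _ _).mpr k))
    obtain ⟨t', ht'⟩ := not_forall.mp fun k => n (Or.inr ((hP.meet _ _).mpr k))
    exact (hP.dd (t + t') x hx y hy a b c).elim (fun k => ht (hP.anti _ _ (by omega) _ _ k))
      fun k => ht' (hP.anti _ _ (by omega) _ _ k)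
  · exact (InhP.bdd_near (Γ := Γ) h g 0).imp fun L hL p hp => hL p (subset_N _ _ hp)
  · exact (InhP.bdd_near (Γ := Γ) h 1 0).imp fun L hL p hp =>
      hL p (subset_N _ _ (by simpa using hp.1))
  · exact near_of_inv (fun c hc a ha => hc.2.le (mul_mem_tr.mpr ha)) ⟨g, hg, hP.br.eqv.refl g⟩

end Pool.Agent.Lib.MP_d98eb9_al.W.J
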