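import Pool.Agent.Lib.MP_d98eb9_al.J.Basic
import Pool.Agent.Lib.MP_d98eb9_al.PD.NestSys

/-! Block LIM: the limit over all levels. -/

namespace Pool.Agent.Lib.MP_d98eb9_al.W.J

open Gen Pool.Agent.Lib.MP_1d6a3f_al

variable {G : Type} [Group G] {Γ : Gen G} {C : Subgroup G} {X A W Z : Set G}
  {R : G → G → Prop} {L : ℕ → G → G → Prop} {κ : ℕ} {p q : G}

theorem trkJ (Γ : Gen G) : TRK Γ := fun h κ ZZ a b c p q d => trk Γ h κ ZZ a b c p q d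

theorem nestJ (Γ : Gen G) : NEST Γ := fun Z a b c d => nest_sys Γ Z a b c d

namespace LimP

/-- Close pairs that are separated by `A` are separated by `Z` in the same way. -/
def Sb (Γ : Gen G) (κ : ℕ) (A Z : Set G) : Prop :=
  ∀ a b, Γ.d a b ≤ κ → a ∈ A → b ∉ A → a ∈ Z ∧ b ∉ Z

/-- A nontrivial cocompact cut that is nested with its translates. -/
def Good (Γ : Gen G) (A : Set G) : Prop :=
  (∃ p q, Γ.d p q ≤ 1 ∧ p ∈ A ∧ q ∉ A) ∧ Γ.Near (Γ.fr A) (blk ⊤ A) ∧ ∀ g, Nest A (tr g A)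

theorem Sb.tr (h : Sb Γ κ A Z) (g : G) : Sb Γ κ (tr g A) (tr g Z) :=
  fun a b hd ha hb => h _ _ (by rwa [d_mul]) ha hb

theorem Sb.fr (h : Sb Γ κ A Z) (hκ : 1 ≤ κ) : Γ.fr A ⊆ Γ.fr Z := by
  rintro a ⟨b, hd, e⟩
  refine ⟨b, hd, ?_⟩
  by_cases ha : a ∈ A
  · have := h a b (by omega) ha (by tauto)
    tauto
  · have := h b a (by rw [d_comm]; omega) (by tauto) ha
    tauto

theorem cocpt_tr (h : Γ.Near (Γ.fr Z) (blk ⊤ Z)) (g : G) :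
    Γ.Near (Γ.fr (tr g Z)) (blk ⊤ (tr g Z)) := by
  rw [← tr_fr]
  refine (h.tr g).trans ⟨Γ.d 1 g, fun p hp => ⟨p * g⁻¹, mem_blk_top.mpr ?_, by rw [d_eq]; simp⟩⟩
  rw [tr_tr, show p * g⁻¹ * g = g * (g⁻¹ * p) by group, ← tr_tr, hp.2]

theorem Good.tr (h : Good Γ A) (g : G) : Good Γ (tr g A) := by
  obtain ⟨⟨p, q, hd, hp, hq⟩, h2, h3⟩ := h
  refine ⟨⟨g * p, g * q, by rwa [d_mul], mul_mem_tr.mpr hp, fun e => hq (mul_mem_tr.mp e)⟩,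
    cocpt_tr h2 g, fun k => ?_⟩
  have := NestP.Nest.tr (h3 (g⁻¹ * k * g)) g
  rwa [tr_tr, show g * (g⁻¹ * k * g) = k * g by group, ← tr_tr] at this

theorem deep (h : Sys C X) (hκ : ∀ p, ∃ z ∈ far C X p, Γ.d p (p * z) ≤ κ)
    (hb : TB C X (Γ.fr A)) (hp : p ∉ C) (hW : Xb C X p ⊆ W) (hpA : p ∈ A)
    (hs : ∀ a b, Γ.d a b ≤ κ → a ∈ A → b ∈ W → b ∈ A) (ρ : ℕ) :
    ∃ p, ∀ q, Γ.d p q ≤ ρ → q ∈ A := by
  have key : ∀ k, ∃ f ∈ Xb C X p, f ∈ A ∧ k ≤ nn C X f := fun k => by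
    induction k with
    | zero => exact ⟨p, self_mem_Xb p, hpA, Nat.zero_le _⟩
    | succ k ih =>
      obtain ⟨f, h1, h2, h3⟩ := ih
      obtain ⟨z, hz, hd⟩ := hκ f
      have h4 := Xb_sub h hp h1 (mul_mem_Xb hz)
      have h5 := nn_far h (Xb_not_mem h hp h1) hz
      exact ⟨f * z, h4, hs _ _ hd h2 (hW h4), by omega⟩
  obtain ⟨M, hM⟩ := hb.N (Γ := Γ) h ρ
  obtain ⟨f, -, h2, h3⟩ := key (M + 1)
  refine ⟨f, fun q hd => by_contra fun hq => ?_⟩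
  obtain ⟨b, hb', -, h4⟩ := exists_fr (Γ := Γ) h2 hq
  have := hM f ⟨b, hb', by rw [d_comm]; omega⟩
  omega

theorem fr_near (P : Part Γ C X R L) (t : ℕ) (z g : G) :
    Γ.Near (Γ.fr (tr g (cls X (L t) z))) (tr g (C : Set G)) := by
  rw [← tr_fr]
  exact ((P.frb t z).trans (Near.of_subset (blk_le C _))).tr g

theorem core (hG : IsPD 3 G) (s1 : S1 Γ) (h : Sys C X) (P : Part Γ C X R L) (hκ1 : 1 ≤ κ)
    (hκ : ∀ p, ∃ z ∈ far C X p, Γ.d p (p * z) ≤ κ) (hκ' : ∃ b ∈ opp C X, Γ.d 1 b ≤ κ)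
    (hA : Good Γ A) {t1 t2 t3 : ℕ} {z1 z2 z3 g1 g3 : G}
    (s1' : Sb Γ κ A (tr g1 (cls X (L t1) z1))) (s2 : Sb Γ κ A (cls X (L t2) z2))
    (s3 : Sb Γ κ A (tr g3 (cls X (L t3) z3))) (h1 : g1 ∈ X) (h3 : g3 ∈ X) (hR : ¬ R g1 g3) :
    Done G := by
  obtain ⟨⟨p, q, hd, hp, hq⟩, hco, hn⟩ := hA
  have n1 := (Near.of_subset (s1'.fr hκ1)).trans (fr_near P t1 z1 g1)
  have n3 := (Near.of_subset (s3.fr hκ1)).trans (fr_near P t3 z3 g3)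
  have hb : TB C X (Γ.fr A) := (tb_coset h g1).near h n1
  obtain ⟨hpZ, hqZ⟩ := s2 p q (by omega) hp hq
  have out : ∀ q, q ∉ C → q ∉ A → q ∉ cls X (L t2) z2 → ∀ ρ, ∃ p, ∀ q, Γ.d p q ≤ ρ → q ∉ A := by
    intro q hC hq hZ
    refine deep (A := Aᶜ) (W := (cls X (L t2) z2)ᶜ) h hκ (by rwa [fr_compl]) hC
      (fun w hw e => ?_) hq fun a b hab ha hb' e => hb' (s2 b a (by rwa [d_comm]) e ha).1
    by_cases hX : q ∈ X
    · exact hZ ⟨hX, (P.brL t2).eqv.trans e.2 ((P.brL t2).eqv.symm ((P.brL t2).xb q hX w hw))⟩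
    · exact (Xb_sub_opp h ⟨hC, hX⟩ hw).2 e.1
  obtain ⟨X', hS⟩ := nestJ Γ A hn hco
    (deep h hκ hb (h.disj p hpZ.1) ((P.brL t2).Xb_sub h hpZ) hp
      fun a b hab ha hb' => by_contra fun e => (s2 a b hab ha e).2 hb')
    (by
      by_cases hC : q ∈ C
      · obtain ⟨b, hb1, hb2⟩ := hκ'
        have e1 : q * b ∈ opp C X := h.swap.left q hC b hb1
        have e2 : q * b ∉ cls X (L t2) z2 := fun e => e1.2 e.1
        exact out (q * b) e1.1 (fun e => e2 (s2 _ q (by rwa [d_comm, d_mul_right]) e hq).1) e2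
      · exact out q hC hq hqZ)
  have he : End1 Γ (tr g3 (C : Set G)) (Xb C X g1) :=
    (P.p12 g1 h1 g3 h3 hR _ (tb_coset h g3) (Near.of_subset ((coset_sub_Xb g3).trans
      (P.br.Xb_sub h ⟨h3, P.br.eqv.refl _⟩)))).sub (P.br.Xb_sub h ⟨h1, P.br.eqv.refl _⟩)
  obtain ⟨Q, hQ⟩ := fixE_of_end (K := blk ⊤ (tr g1 (C : Set G)) ⊓ blk ⊤ (tr g3 (C : Set G))) he
    (not_near h (tb_coset h g3) (not_tb_Xb h Γ (h.disj g1 h1)))
    (fun k hk => ⟨hk.2.2, stab_Xb h hk.1.2⟩)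
    ((Near.of_subset fun _ hk => hk.2).trans (coset_near g3))
  refine done_of_near hG s1 ⟨Q, fun r => (hQ r).1⟩ hS (Near.trans (near_of_fix
    (fun k hk => by rw [tr_fr, hk.2]) ⟨p, mem_fr hp hq hd⟩)
    (near_inf (n1.trans (near_coset g1)) (n3.trans (near_coset g3))))

theorem dd (P : Part Γ C X R L) (t t' : ℕ) : DD X (L t) (L t') := fun x hx y hy a b c =>
  (P.dd (t + t') x hx y hy a b c).imp (P.anti _ _ (by omega) _ _) (P.anti _ _ (by omega) _ _)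

theorem nest_cls (hN : NST G) (h : Sys C X) (P : Part Γ C X R L) (t t' : ℕ) (z z' g : G) :
    Nest (cls X (L t) z) (tr g (cls X (L t') z')) := by
  by_cases hg : g ∈ C
  · rw [(P.brL t').tr_cls h hg]
    by_cases e : ∃ w, w ∈ cls X (L t) z ∧ w ∈ cls X (L t') (g * z')
    · obtain ⟨w, h1, h2⟩ := e
      rw [(P.brL t).cls_eq h1.2, (P.brL t').cls_eq h2.2]
      rcases le_total t t' with e | e
      · exact Or.inr (Or.inr (Or.inr (Set.compl_subset_compl.mpr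
          fun a ha => ⟨ha.1, P.anti _ _ e _ _ ha.2⟩)))
      · exact Or.inl fun a ha => ⟨ha.1, P.anti _ _ e _ _ ha.2⟩
    · exact Or.inr (Or.inl fun w h1 h2 => e ⟨w, h1, h2⟩)
  · obtain ⟨a, b, c, d⟩ := hN C X _ _ h (P.brL t) (P.brL t') (dd P t t') g z z' hg
    by_cases e : g ∈ cls X (L t) z <;> by_cases e' : g⁻¹ ∈ cls X (L t') z'
    · exact Or.inr (Or.inr (Or.inl (d e e')))
    · exact Or.inr (Or.inr (Or.inr (Set.compl_subset_compl.mpr (b e e'))))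
    · exact Or.inl (c e e')
    · exact Or.inr (Or.inl (Set.disjoint_left.mp (a e e')))

/-- The edge `xC` sees the base edge and `yC` in different classes of level `t`. -/
def Bad (X : Set G) (L : ℕ → G → G → Prop) (y x : G) (t : ℕ) : Prop :=
  x⁻¹ ∈ X ∧ x⁻¹ * y ∈ X ∧ ¬ L t x⁻¹ (x⁻¹ * y)

theorem tour (hN : NST G) (h : Sys C X) (P : Part Γ C X R L) {y x x' : G} {t t' : ℕ}
    (b : Bad X L y x t) (b' : Bad X L y x' t') (hne : x⁻¹ * x' ∉ C) :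
    ¬ (x⁻¹ * x' ∈ cls X (L t) x⁻¹ ↔ x'⁻¹ * x ∈ cls X (L t') x'⁻¹) := by
  obtain ⟨a, -, -, d⟩ := hN C X _ _ h (P.brL t) (P.brL t') (dd P t t') _ x⁻¹ x'⁻¹ hne
  rw [mul_inv_rev, inv_inv] at a d
  intro e
  by_cases k : x⁻¹ * x' ∈ cls X (L t) x⁻¹
  · have := Set.mem_of_subset_of_mem (d k (e.mp k)) (a := x⁻¹ * y) fun e' => b.2.2 e'.2
    rw [mem_tr, show (x⁻¹ * x')⁻¹ * (x⁻¹ * y) = x'⁻¹ * y by group] at this
    exact b'.2.2 this.2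
  · refine Set.disjoint_left.mp (a k fun e' => k (e.mpr e'))
      (show x⁻¹ ∈ _ from ⟨b.1, (P.brL t).eqv.refl _⟩) ?_
    rw [mem_tr, show (x⁻¹ * x')⁻¹ * x⁻¹ = x'⁻¹ by group]
    exact ⟨b'.1, (P.brL t').eqv.refl _⟩

theorem mid (hG : IsPD 3 G) (s1 : S1 Γ) (h : Sys C X) (P : Part Γ C X R L) (hκ1 : 1 ≤ κ)
    (hκ : ∀ p, ∃ z ∈ far C X p, Γ.d p (p * z) ≤ κ) (hκ' : ∃ b ∈ opp C X, Γ.d 1 b ≤ κ)
    (hA : Good Γ A) {y x1 x2 x3 : G} {t1 t2 t3 : ℕ} (b2 : Bad X L y x2 t2) (b3 : Bad X L y x3 t3)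
    (u1 : Sb Γ κ A (tr x1 (cls X (L t1) x1⁻¹))) (u2 : Sb Γ κ A (tr x2 (cls X (L t2) x2⁻¹)))
    (u3 : Sb Γ κ A (tr x3 (cls X (L t3) x3⁻¹))) (hne : x2⁻¹ * x3 ∉ C)
    (m1 : x2⁻¹ * x1 ∈ cls X (L t2) x2⁻¹) (m3 : x2⁻¹ * x3 ∉ cls X (L t2) x2⁻¹) : Done G := by
  have v1 := u1.tr x2⁻¹
  have v2 := u2.tr x2⁻¹
  have v3 := u3.tr x2⁻¹
  rw [tr_tr x2⁻¹ x1] at v1
  rw [tr_inv_tr] at v2
  rw [tr_tr x2⁻¹ x3] at v3
  have hX : x2⁻¹ * x3 ∈ X := by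
    by_contra hX
    have k : ∀ w ∈ X, (x2⁻¹ * x3)⁻¹ * w ∈ Xb C X (x2⁻¹ * x3)⁻¹ := fun w hw =>
      mul_mem_Xb ⟨h.disj w hw, fun e => hX (inv_inv (x2⁻¹ * x3) ▸ e.mpr hw)⟩
    have k1 := k _ b2.1
    have k2 := k _ b2.2.1
    have k3 := h.nest _ _ hne (h.disj _ b2.1) fun e => hX (e.mpr b2.1)
    rw [show (x2⁻¹ * x3)⁻¹ * x2⁻¹ = x3⁻¹ by group] at k1 k3
    rw [show (x2⁻¹ * x3)⁻¹ * (x2⁻¹ * y) = x3⁻¹ * y by group] at k2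
    have B := P.brL t3
    exact b3.2.2 (B.eqv.trans (B.eqv.symm (B.xb _ (k3.mp b3.1) _ k1)) (B.xb _ (k3.mp b3.1) _ k2))
  exact core hG s1 h P hκ1 hκ hκ' (hA.tr x2⁻¹) v1 v2 v3 m1.1 hX
    fun e => m3 ⟨hX, (P.brL t2).eqv.trans m1.2 ((P.meet _ _).mp e t2)⟩

theorem three {a12 a21 a13 a31 a23 a32 : Prop} (k12 : ¬ (a12 ↔ a21)) (k13 : ¬ (a13 ↔ a31))
    (k23 : ¬ (a23 ↔ a32)) (m123 : a21 → ¬ a23 → False) (m321 : a23 → ¬ a21 → False)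
    (m213 : a12 → ¬ a13 → False) (m312 : a13 → ¬ a12 → False) (m132 : a31 → ¬ a32 → False)
    (m231 : a32 → ¬ a31 → False) : False := by
  tauto

end LimP

open LimP in
theorem lim (hG : IsPD 3 G) (hLP : Γ.LP0) (s1 : S1 Γ) (hN : NST G) : LIM Γ := by
  intro C X R L h P
  refine or_iff_not_imp_right.mpr fun hD y => ?_
  obtain ⟨κ0, hκ0⟩ := exists_step h Γ
  obtain ⟨b, hb⟩ := h.ne'
  obtain ⟨κ, hκ1, hκ, hκ'⟩ : ∃ κ, 1 ≤ κ ∧ (∀ p, ∃ z ∈ far C X p, Γ.d p (p * z) ≤ κ) ∧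
      ∃ b ∈ opp C X, Γ.d 1 b ≤ κ :=
    ⟨κ0 + Γ.d 1 b + 1, by omega, fun p => (hκ0 p).imp fun _ e => ⟨e.1, e.2.trans (by omega)⟩,
      b, hb, by omega⟩
  choose! F hF hF' using fun e : G × G => trkJ Γ hLP κ {Z | ∃ g t z, Z = tr g (cls X (L t) z)}
    (by
      rintro g _ ⟨k, t, z, rfl⟩
      exact ⟨g * k, t, z, tr_tr _ _ _⟩)
    (by
      rintro _ ⟨g, t, z, rfl⟩ _ ⟨g', t', z', rfl⟩
      have := NestP.Nest.tr (nest_cls hN h P t t' z z' (g⁻¹ * g')) g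
      rwa [tr_tr, mul_inv_cancel_left] at this)
    (by
      rintro _ ⟨g, t, z, rfl⟩
      exact cocpt_tr ((P.frb t z).trans (Near.of_subset (blk_le_top C _))) g) e.1 e.2
  have hE : {e : G × G | Γ.d 1 e.1 ≤ Γ.d 1 y ∧ Γ.d e.1 e.2 ≤ 1}.Finite :=
    ((Gen.ball_finite (Γ := Γ) 1 (Γ.d 1 y)).prod
      (Gen.ball_finite (Γ := Γ) 1 (Γ.d 1 y + 1))).subset
      fun e he => ⟨he.1, (d_tri 1 e.1 e.2).trans (Nat.add_le_add he.1 he.2)⟩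
  refine ((hE.biUnion fun e he => hF e he.2).biUnion (t := fun A => {q : G ⧸ C | Good Γ A ∧
    ∃ (x : G) (t : ℕ), (x : G ⧸ C) = q ∧ Bad X L y x t ∧ Sb Γ κ A (tr x (cls X (L t) x⁻¹))})
    fun A _ => ?_).subset ?_
  · by_contra hinf
    obtain ⟨T, hT, -, hc⟩ := Set.Infinite.exists_subset_ncard_eq hinf 3
    obtain ⟨q1, q2, q3, n12, n13, n23, rfl⟩ := Set.ncard_eq_three.mp hc
    obtain ⟨hA, x1, t1, rfl, b1, u1⟩ := hT (show q1 ∈ _ by simp)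
    obtain ⟨-, x2, t2, rfl, b2, u2⟩ := hT (show q2 ∈ _ by simp)
    obtain ⟨-, x3, t3, rfl, b3, u3⟩ := hT (show q3 ∈ _ by simp)
    have c12 : x1⁻¹ * x2 ∉ C := fun e => n12 (QuotientGroup.eq.mpr e)
    have c13 : x1⁻¹ * x3 ∉ C := fun e => n13 (QuotientGroup.eq.mpr e)
    have c23 : x2⁻¹ * x3 ∉ C := fun e => n23 (QuotientGroup.eq.mpr e)
    have c21 : x2⁻¹ * x1 ∉ C := fun e => n12 (QuotientGroup.eq.mpr e).symm
    have c31 : x3⁻¹ * x1 ∉ C := fun e => n13 (QuotientGroup.eq.mpr e).symm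
    have c32 : x3⁻¹ * x2 ∉ C := fun e => n23 (QuotientGroup.eq.mpr e).symm
    have k12 := tour hN h P b1 b2 c12
    have k13 := tour hN h P b1 b3 c13
    have k23 := tour hN h P b2 b3 c23
    have m123 := fun a b => hD (mid hG s1 h P hκ1 hκ hκ' hA b2 b3 u1 u2 u3 c23 a b)
    have m321 := fun a b => hD (mid hG s1 h P hκ1 hκ hκ' hA b2 b1 u3 u2 u1 c21 a b)
    have m213 := fun a b => hD (mid hG s1 h P hκ1 hκ hκ' hA b1 b3 u2 u1 u3 c13 a b)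
    have m312 := fun a b => hD (mid hG s1 h P hκ1 hκ hκ' hA b1 b2 u3 u1 u2 c12 a b)
    have m132 := fun a b => hD (mid hG s1 h P hκ1 hκ hκ' hA b3 b2 u1 u3 u2 c32 a b)
    have m231 := fun a b => hD (mid hG s1 h P hκ1 hκ hκ' hA b3 b1 u2 u3 u1 c31 a b)
    exact three k12 k13 k23 m123 m321 m213 m312 m132 m231
  · rintro _ ⟨x, rfl, h1, h2, h3⟩
    obtain ⟨t, ht⟩ := not_forall.mp fun e => h3 ((P.meet _ _).mpr e)
    have m1 : (1 : G) ∈ tr x (cls X (L t) x⁻¹) := by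
      rw [mem_tr, mul_one]
      exact ⟨h1, (P.brL t).eqv.refl _⟩
    obtain ⟨p, ⟨q, hd, e⟩, hp, hl⟩ := exists_fr (Γ := Γ) (q := y) m1 fun e => ht e.2
    obtain ⟨A, hA, a1, a2, a3, -, a4, a5⟩ := hF' (p, q) hd _ ⟨x, t, x⁻¹, rfl⟩ hp (by tauto)
    exact Set.mem_biUnion (Set.mem_biUnion (x := (p, q)) ⟨by simp only; omega, hd⟩ hA)
      ⟨⟨⟨p, q, hd, a1, a2⟩, a4, a5⟩, x, t, rfl, ⟨h1, h2, ht⟩, a3⟩

end Pool.Agent.Lib.MP_d98eb9_al.W.J
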