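import Pool.Agent.Lib.MP_d98eb9_al.J.St

/-! Block NST: classes of invariant relations are nested. -/

namespace Pool.Agent.Lib.MP_d98eb9_al.W.J

variable {G : Type} [Group G] {C : Subgroup G} {X : Set G} {R R' : G → G → Prop}

namespace NstP

theorem xb_sub (h : Sys C X) {x p : G} (hx : x ∈ X) (hp : p ∈ Xb C X x) : p ∈ X := by
  have e : p = x * (x⁻¹ * p) := by group
  rcases hp with k | k
  · rw [e]
    exact h.right _ k x hx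
  · rw [e]
    exact h.far_mem hx k

theorem br_xb (h : Sys C X) (B : Br C X R) {x p : G} (hx : x ∈ X) (hp : p ∈ Xb C X x) :
    p ∈ X ∧ R x p := ⟨xb_sub h hx hp, B.xb x hx p hp⟩

/-- A point outside `X` is carried by `g⁻¹` into the branch of `g⁻¹`. -/
theorem mem_inv {g p : G} (hp : p ∈ C ∨ ¬ (g ∈ X ↔ p ∈ X)) : g⁻¹ * p ∈ Xb C X g⁻¹ := by
  refine mul_mem_tr.mpr ?_
  by_cases k : p ∈ C
  · exact Or.inl k
  · exact Or.inr ⟨k, by rw [inv_inv]; exact hp.resolve_left k⟩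

theorem mem_xb {g p : G} (hp : g⁻¹ * p ∈ C ∨ ¬ (g⁻¹ ∈ X ↔ g⁻¹ * p ∈ X)) : p ∈ Xb C X g := by
  by_cases k : g⁻¹ * p ∈ C
  · exact Or.inl k
  · exact Or.inr ⟨k, hp.resolve_left k⟩

theorem cover (h : Sys C X) (B : Br C X R) (B' : Br C X R') (D : DD X R R') {g : G} (hg : g ∈ X)
    (hg' : g⁻¹ ∈ X) (p : G) : (p ∈ X ∧ R g p) ∨ (g⁻¹ * p ∈ X ∧ R' g⁻¹ (g⁻¹ * p)) := by
  by_cases hp : p ∈ X
  · by_cases hw : g⁻¹ * p ∈ X
    · by_cases k : p⁻¹ ∈ X ↔ p⁻¹ * g ∈ X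
      · exact (D g hg p hp hg' hw k).imp (fun e => ⟨hp, e⟩) fun e => ⟨hw, e⟩
      · exact Or.inl ⟨hp, B.eqv.symm (B.xb p hp g (mem_xb (Or.inr k)))⟩
    · exact Or.inl (br_xb h B hg (mem_xb (Or.inr fun e => hw (e.mp hg'))))
  · exact Or.inr (br_xb h B' hg' (mem_inv (Or.inr fun e => hp (e.mp hg))))

end NstP

open NstP

theorem nst : NST G := by
  intro C X R R' h B B' D g z z' hg
  have a1 : ∀ {a b}, a ∈ cls X R z → a ∈ X ∧ R a b ∨ b ∈ X ∧ R b a → b ∈ cls X R z := by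
    rintro a b ha (⟨k, e⟩ | ⟨k, e⟩)
    · exact ⟨B.resp a b e k, B.eqv.trans ha.2 e⟩
    · exact ⟨k, B.eqv.trans ha.2 (B.eqv.symm e)⟩
  have a2 : ∀ {a b}, a ∈ cls X R' z' → a ∈ X ∧ R' a b ∨ b ∈ X ∧ R' b a → b ∈ cls X R' z' := by
    rintro a b ha (⟨k, e⟩ | ⟨k, e⟩)
    · exact ⟨B'.resp a b e k, B'.eqv.trans ha.2 e⟩
    · exact ⟨k, B'.eqv.trans ha.2 (B'.eqv.symm e)⟩
  refine ⟨fun h1 h2 => Set.disjoint_left.mpr fun p hp hw => ?_, fun h1 h2 p hw => ?_,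
    fun h1 h2 p hp => ?_, fun h1 h2 p hp => ?_⟩
  · replace hw : g⁻¹ * p ∈ cls X R' z' := hw
    by_cases k : g ∈ X
    · by_cases k' : g⁻¹ ∈ X
      · rcases cover h B B' D k k' p with e | e
        · exact h1 (a1 hp (Or.inr ⟨k, e.2⟩))
        · exact h2 (a2 hw (Or.inr ⟨k', e.2⟩))
      · exact h1 (a1 hp (Or.inr ⟨k, B.xb g k p (mem_xb (Or.inr fun e => k' (e.mpr hw.1)))⟩))
    · have k1 : ¬ (g ∈ X ↔ p ∈ X) := fun e => k (e.mpr hp.1)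
      have k' : g⁻¹ ∈ X := (h.nest g p hg (h.disj p hp.1) k1).mp hw.1
      exact h2 (a2 hw (Or.inr ⟨k', B'.xb _ k' _ (mem_inv (Or.inr k1))⟩))
  · replace hw : g⁻¹ * p ∈ cls X R' z' := hw
    by_cases k' : g⁻¹ ∈ X
    · rcases cover h B B' D h1.1 k' p with e | e
      · exact a1 h1 (Or.inl ⟨h1.1, e.2⟩)
      · exact (h2 (a2 hw (Or.inr ⟨k', e.2⟩))).elim
    · exact a1 h1 (Or.inl ⟨h1.1, B.xb g h1.1 p (mem_xb (Or.inr fun e => k' (e.mpr hw.1)))⟩)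
  · show g⁻¹ * p ∈ cls X R' z'
    by_cases k : g ∈ X
    · rcases cover h B B' D k h2.1 p with e | e
      · exact (h1 (a1 hp (Or.inr ⟨k, e.2⟩))).elim
      · exact a2 h2 (Or.inl ⟨h2.1, e.2⟩)
    · exact a2 h2 (Or.inl ⟨h2.1, B'.xb _ h2.1 _ (mem_inv (Or.inr fun e => k (e.mpr hp.1)))⟩)
  · show g⁻¹ * p ∈ cls X R' z'
    rcases cover h B B' D h1.1 h2.1 p with e | e
    · exact (hp (a1 h1 (Or.inl ⟨h1.1, e.2⟩))).elim
    · exact a2 h2 (Or.inl ⟨h2.1, e.2⟩)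

end Pool.Agent.Lib.MP_d98eb9_al.W.J
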