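import Pool.Agent.Lib.MP_d98eb9_al.J.Basic

/-! Reduction to a one-ended edge group keeps acylindricity. -/

namespace Pool.Agent.Lib.MP_d98eb9_al.W.J

open SysA

variable {G : Type} [Group G] {C : Subgroup G} {X : Set G}

/-- Long segments have trivial stabilisers. -/
def Ac (k : ℕ) (C : Subgroup G) (X : Set G) : Prop :=
  ∀ y, y ∉ C → k ≤ nn C X y → ∀ c ∈ C, y⁻¹ * c * y ∈ C → c = 1

theorem Ac.swap {k : ℕ} (h : Ac k C X) : Ac k C (opp C X) :=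
  fun y h0 hy => h y h0 (nn_opp C X y ▸ hy)

/-- An element that fixes two edges fixes the edges between them. -/
theorem fix_between (h : Sys C X) {c y z : G} (hc : c ∈ C) (hy : y⁻¹ * c * y ∈ C)
    (hz : sep C X z 1 y) : z⁻¹ * c * z ∈ C := by
  by_contra hn
  have hz' : sep C X (c * z) 1 y := by
    have h1 := (sep_mul c).mpr hz
    have e1 : S2 C X (c * 1) (c * y) = S2 C X 1 y := by
      rw [show c * y = y * (y⁻¹ * c * y) by group, S2_right h hy, S2_symm, mul_one, ← one_mul c,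
        S2_right h hc, S2_symm]
    exact (mem_S2 h).mp (e1 ▸ (mem_S2 h).mpr h1)
  have hn' : (c * z)⁻¹ * z ∉ C := fun e => hn (by simpa [mul_assoc] using C.inv_mem e)
  have e0 : nn C X ((c * z)⁻¹ * 1) = nn C X (z⁻¹ * 1) := by
    rw [mul_one, mul_one, h.nn_inv, h.nn_inv, h.nn_left hc]
  by_cases e1 : z⁻¹ * (c * z) ∈ X ↔ z⁻¹ * 1 ∈ X
  · by_cases e2 : (c * z)⁻¹ * z ∈ X ↔ (c * z)⁻¹ * 1 ∈ X
    · have a := sep.lt h (show sep C X z (c * z) y from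
        ⟨by rwa [← mul_assoc], hz.2.1, fun e => hz.2.2 (e1.symm.trans e)⟩)
      have b := sep.lt h (show sep C X (c * z) z y from
        ⟨hn', hz'.2.1, fun e => hz'.2.2 (e2.symm.trans e)⟩)
      omega
    · have := sep.lt h (show sep C X (c * z) z 1 from ⟨hn', hz'.1, e2⟩)
      omega
  · have := sep.lt h (show sep C X z (c * z) 1 from ⟨by rwa [← mul_assoc], hz.1, e1⟩)
    omega

/-- Unfolding along a relation for which no nontrivial element fixes two classes. -/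
theorem Ac.unfold {k : ℕ} (ha : Ac k C X) (h : Sys C X) {R : G → G → Prop}
    (hR : Equivalence R) (hl : ∀ c ∈ C, ∀ x y, R x y → R (c * x) (c * y))
    (hr : ∀ c ∈ C, ∀ x ∈ X, R x (x * c)) {x0 : G} (hx0 : x0 ∈ X)
    (hS : Sys (blk C (cls X R x0)) (cls X R x0))
    (hf : ∀ d ∈ C, ∀ x ∈ X, ∀ y ∈ X, R x (d * x) → R y (d * y) → R x y ∨ d = 1) :
    Ac k (blk C (cls X R x0)) (cls X R x0) := by
  set β := cls X R x0 with hβ
  have m0 : x0 ∈ β := ⟨hx0, hR.refl _⟩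
  have mb : ∀ c ∈ C, ∀ x ∈ β, c * x ∈ β → c ∈ blk C β := fun c hc x hx e =>
    h.mem_blk hR hl hc hx e.2
  have fix : ∀ d ∈ blk C β, R x0 (d * x0) := fun d hd => (hd.2 ▸ mul_mem_tr.mpr m0 : d * x0 ∈ β).2
  have key : ∀ d ∈ blk C β, d ≠ 1 → ∀ u, u ∉ blk C β → u⁻¹ * d * u ∈ blk C β →
      u ∉ C ∧ (u ∈ β ↔ u ∈ X) := fun d hd h1 u hu hc => by
    refine ⟨fun e => hu ?_, fun e => e.1,
      fun e => ⟨e, (hf d hd.1 x0 hx0 u e (fix d hd) ?_).resolve_right h1⟩⟩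
    · refine h.mem_blk hR hl e m0
        ((hf d hd.1 x0 hx0 _ (h.left u e _ hx0) (fix d hd) ?_).resolve_right h1)
      simpa [mul_assoc] using hl u e _ _ (fix _ hc)
    · simpa [mul_assoc] using hr _ hc.1 u e
  intro y h0 hy c hc hcy
  by_contra h1
  have k2 : ∀ x : G, x ∉ blk C β → x⁻¹ * y ∉ blk C β → ¬ (x⁻¹ ∈ β ↔ x⁻¹ * y ∈ β) →
      (x⁻¹ ∉ C ∧ (x⁻¹ ∈ β ↔ x⁻¹ ∈ X)) ∧ x⁻¹ * y ∉ C ∧ (x⁻¹ * y ∈ β ↔ x⁻¹ * y ∈ X) := by
    intro x n1 n2 n3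
    have n1' : x⁻¹ ∉ blk C β := fun e => n1 ((blk C β).inv_mem_iff.mp e)
    have hd := fix_between hS hc hcy (z := x) ⟨by simpa using n1', n2, by simpa using n3⟩
    have hd1 : x⁻¹ * c * x ≠ 1 := fun e => h1 (by
      simpa [mul_assoc] using congrArg (fun t => x * t * x⁻¹) e)
    exact ⟨key _ hd hd1 _ n1' (by simpa [mul_assoc] using hc),
      key _ hd hd1 _ n2 (by simpa [mul_assoc] using hcy)⟩
  refine h1 (ha y (key c hc h1 y h0 hcy).1 (hy.trans ?_) c hc.1 hcy.1)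
  refine Set.ncard_le_ncard_of_injOn (Subgroup.quotientMapOfLE (blk_le C β)) ?_ ?_ (h.fin y)
  · rintro _ ⟨x, rfl, n1, n2, n3⟩
    obtain ⟨⟨a, b⟩, d, e⟩ := k2 x n1 n2 n3
    exact ⟨x, rfl, fun h' => a (C.inv_mem h'), d, fun h' => n3 (b.trans (h'.trans e.symm))⟩
  · rintro _ ⟨x, rfl, n1, n2, n3⟩ _ ⟨z, rfl, m1, m2, m3⟩ e
    have hc' : z⁻¹ * x ∈ C := QuotientGroup.eq.mp e.symm
    obtain ⟨⟨-, b⟩, -, e1⟩ := k2 x n1 n2 n3
    obtain ⟨⟨-, b'⟩, -, e2⟩ := k2 z m1 m2 m3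
    refine (QuotientGroup.eq.mpr ?_).symm
    by_cases hx : x⁻¹ ∈ β
    · exact mb _ hc' _ hx (by simpa using b'.mpr (by simpa using h.left _ hc' _ hx.1))
    · have hx' : x⁻¹ * y ∈ β := by tauto
      exact mb _ hc' _ hx' (by
        simpa [mul_assoc] using e2.mpr (by simpa [mul_assoc] using h.left _ hc' _ hx'.1))

theorem exists_cut' (h : Sys C X) (hG : Group.FG G) (h1 : OE (⊤ : Subgroup G))
    (hLP : ∀ Γ : Gen G, Γ.LP1) (hC : C.FG) (hne : ¬ OE C) :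
    ∃ (X' : Set G) (Γ : Gen G) (L : Set G), (X' = X ∨ X' = opp C X) ∧ Sys C X' ∧
      (∀ p q, Γ.d p q ≤ 1 → p ∈ X' → q ∉ opp C X') ∧ Γ.RC 1 C ∧ L ⊆ (opp C X')ᶜ ∧
      (∀ x ∈ X', ∀ c ∈ C, x ∈ L → x * c ∈ L) ∧
      {p | p ∈ L ∧ ∃ q, q ∉ L ∧ q ∉ opp C X' ∧ Γ.d p q ≤ 1}.Finite ∧
      (L ∩ C).Infinite ∧ ((C : Set G) \ L).Infinite ∧
      ∀ c ∈ C, (∀ p ∈ L, c * p ∈ L) ∨ (∀ p ∈ L, c * p ∉ L) ∨
        (∀ p, p ∉ opp C X' → p ∉ L → c * p ∈ L) ∨ ∀ p, p ∉ opp C X' → p ∉ L → c * p ∉ L := by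
  classical
  obtain ⟨T, hT⟩ := hC
  obtain ⟨Γ, hΓ, hgen⟩ := h.exists_gen hG T fun t ht => hT ▸ Subgroup.subset_closure ht
  have hRC : Γ.RC 1 C := OneEndA.rc_of_gen hT hgen
  have hex : ∃ k, ∃ X', (X' = X ∨ X' = opp C X) ∧ ∃ L, OneEndA.Good Γ (opp C X')ᶜ L ∧
      (OneEndA.ed Γ (opp C X')ᶜ L).ncard = k := by
    obtain ⟨X', hX', L, hL⟩ := OneEndA.exists_side h hΓ hRC h1 (hLP Γ) hne
    exact ⟨_, X', hX', L, hL, rfl⟩
  obtain ⟨X', hX', L, hL, hk⟩ := Nat.find_spec hex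
  have hS : Sys C X' ∧ (∀ p q, Γ.d p q ≤ 1 → p ∈ X' → q ∉ opp C X') ∧
      ∀ Z, Z = X' ∨ Z = opp C X' → Z = X ∨ Z = opp C X := by
    rcases hX' with rfl | rfl
    · exact ⟨h, hΓ, fun _ hZ => hZ⟩
    · exact ⟨h.swap, OneEndA.swap_gen h hΓ, fun _ hZ => by rw [h.opp_opp] at hZ; exact hZ.symm⟩
  obtain ⟨h', hΓ', hZ⟩ := hS
  obtain ⟨L1, a1, a2, a3, a4⟩ := OneEndA.exists_inv h' hΓ' hRC h1 hL fun x hx =>
    OneEndA.coset h' hΓ' hRC h1 hL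
      (fun Z hZ' L' hL' => hk ▸ Nat.find_min' hex ⟨Z, hZ Z hZ', L', hL', rfl⟩) hx
  obtain ⟨L2, b⟩ := OneEndA.finish h' hΓ' hRC a1 a2 a3 a4
  exact ⟨X', Γ, L2, hX', h', hΓ', hRC, b⟩

/-- A subset of a torsion-free group that is finite and stable under a translation. -/
theorem eq_one_of_finite (tf : ∀ g : G, IsOfFinOrder g → g = 1) {F : Set G} (hF : F.Finite)
    {c d : G} (hc : c ∈ F) (hd : ∀ a ∈ F, a * d ∈ F) : d = 1 := by
  refine tf d (by_contra fun hn => hF.not_infinite (Set.infinite_of_injective_forall_mem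
    (f := fun n : ℕ => c * d ^ n) (fun a b e => ?_) fun n => ?_))
  · exact (injective_pow_iff_not_isOfFinOrder.mpr hn) (mul_left_cancel e)
  · induction n with
    | zero => simpa using hc
    | succ n ih => simpa [pow_succ, mul_assoc] using hd _ ih

open OneEndB in
theorem cut_step' {k0 : ℕ} (ha : Ac k0 C X) (h : Sys C X) (h1 : OE (⊤ : Subgroup G))
    (tf : ∀ g : G, IsOfFinOrder g → g = 1) (Γ : Gen G) (L : Set G)
    (hΓ : ∀ p q, Γ.d p q ≤ 1 → p ∈ X → q ∉ opp C X) (hC : Γ.RC 1 C) (_hL : L ⊆ (opp C X)ᶜ)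
    (hLr : ∀ x ∈ X, ∀ c ∈ C, x ∈ L → x * c ∈ L)
    (hfin : {p | p ∈ L ∧ ∃ q, q ∉ L ∧ q ∉ opp C X ∧ Γ.d p q ≤ 1}.Finite)
    (hi1 : (L ∩ C).Infinite) (hi2 : ((C : Set G) \ L).Infinite)
    (hn : ∀ c ∈ C, (∀ p ∈ L, c * p ∈ L) ∨ (∀ p ∈ L, c * p ∉ L) ∨
      (∀ p, p ∉ opp C X → p ∉ L → c * p ∈ L) ∨ ∀ p, p ∉ opp C X → p ∉ L → c * p ∉ L) :
    ∃ C' : Subgroup G, C' ≤ C ∧ C'.FG ∧ (∃ X', Sys C' X' ∧ Ac k0 C' X') ∧
      ∀ k, Iota C' k → Iota C (k + 1) := by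
  classical
  have hcr := cr_finite hfin
  have hCi : (C : Set G).Infinite := hi2.mono Set.sdiff_subset
  obtain ⟨x0, hx0⟩ := h.ne
  let R : G → G → Prop := fun x y => ∀ c ∈ C, (c * x ∈ L ↔ c * y ∈ L)
  have hR : Equivalence R := ⟨fun _ _ _ => Iff.rfl, fun k c hc => (k c hc).symm,
    fun k k' c hc => (k c hc).trans (k' c hc)⟩
  have hl : ∀ c ∈ C, ∀ x y, R x y → R (c * x) (c * y) := fun c hc x y k e he => by
    simpa only [mul_assoc] using k _ (C.mul_mem he hc)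
  have hS := h.unfold hR hl
    (fun c hc x hx e he => by rw [← mul_assoc, OneEndB.right_iff h hLr (h.left e he x hx) hc])
    (fun x hx z hz e he => by
      rw [← mul_assoc]
      refine far_iff h h1 hCi hΓ hLr hcr (h.left e he x hx) ⟨hz.1, ?_⟩
      rw [mul_inv_rev, h.right_iff (C.inv_mem he)]
      exact hz.2)
    (fun x hx y hy hx' hxy _ => or_iff_not_imp_left.mpr fun k e he => by
      obtain ⟨c, hc, k1⟩ : ∃ c ∈ C, ¬ (c * x ∈ L ↔ c * y ∈ L) := by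
        by_contra k1
        exact k fun c hc => by_contra fun k2 => k1 ⟨c, hc, k2⟩
      exact OneEndB.corner h h1 hCi hΓ hLr hcr hx hy hx' hxy hc he k1)
    (sep_cosets hΓ h hcr) hx0
  have hA : Ac k0 (blk C {x | x ∈ X ∧ R x0 x}) {x | x ∈ X ∧ R x0 x} :=
    ha.unfold h hR hl
      (fun c hc x hx e he => by rw [← mul_assoc, OneEndB.right_iff h hLr (h.left e he x hx) hc])
      hx0 hS fun d hd x hx y hy k1 k2 => or_iff_not_imp_left.mpr fun k => by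
        obtain ⟨c, hc, k3⟩ : ∃ c ∈ C, ¬ (c * x ∈ L ↔ c * y ∈ L) := by
          by_contra k3
          exact k fun c hc => by_contra fun k4 => k3 ⟨c, hc, k4⟩
        refine eq_one_of_finite tf (sep_finite h hΓ hC hcr (p := x) (q := y) (fun e => e.2 hx)
          fun e => e.2 hy) (c := c) ⟨hc, k3⟩ fun a ha => ⟨C.mul_mem ha.1 hd, fun e => ha.2 ?_⟩
        simp only [mul_assoc] at e
        exact (k1 a ha.1).trans (e.trans (k2 a ha.1).symm)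
  have hx0' : x0 ∉ opp C X := fun k => k.2 hx0
  have hN : NC C (opp C X)ᶜ (fun p => p ∈ L) x0 := by
    refine ⟨hx0', fun c hc p hp => left_nmem h hc hp, fun c hc => ?_,
      fun p hp q hq => sep_finite h hΓ hC hcr hp hq, fun b => ?_, tf⟩
    · rcases hn c hc with k | k | k | k
      · exact ⟨True, False, fun p _ k1 k2 => k2.mp (k p (k1.mpr trivial))⟩
      · exact ⟨True, True, fun p _ k1 k2 => k p (k1.mpr trivial) (k2.mpr trivial)⟩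
      · exact ⟨False, False, fun p hp k1 k2 => k2.mp (k p hp k1.mp)⟩
      · exact ⟨False, True, fun p hp k1 k2 => k p hp k1.mp (k2.mpr trivial)⟩
    · have hf := sep_finite h hΓ hC hcr (p := 1) (fun k => k.1 C.one_mem) hx0'
      have k : ∀ c ∈ C, c ∉ OneEndB.sep C (fun p => p ∈ L) 1 x0 → (c * x0 ∈ L ↔ c ∈ L) := fun c hc k => by
        by_contra k1
        exact k ⟨hc, fun k2 => k1 (by simpa using k2.symm)⟩
      by_cases hb : b
      · obtain ⟨c, hc, hc'⟩ := (hi1.sdiff hf).nonempty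
        exact ⟨c, hc.2, iff_of_true ((k c hc.2 hc').mpr hc.1) hb⟩
      · obtain ⟨c, hc, hc'⟩ := (hi2.sdiff hf).nonempty
        exact ⟨c, hc.1, iff_of_false (fun k1 => hc.2 ((k c hc.1 hc').mp k1)) hb⟩
  have hC' : ∀ a, a ∈ blk C {x | x ∈ X ∧ R x0 x} ↔
      a ∈ C ∧ ∀ e ∈ C, (e * (a * x0) ∈ L ↔ e * x0 ∈ L) := fun a =>
    ⟨fun ha => ⟨ha.1, hR.symm (ha.2 ▸ mul_mem_tr.mpr ⟨hx0, hR.refl x0⟩ :
      a * x0 ∈ {x | x ∈ X ∧ R x0 x}).2⟩,
      fun ha => h.mem_blk hR hl ha.1 ⟨hx0, hR.refl x0⟩ (hR.symm ha.2)⟩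
  have hle := blk_le C {x | x ∈ X ∧ R x0 x}
  generalize blk C {x | x ∈ X ∧ R x0 x} = C' at hS hA hC' hle
  obtain ⟨ρ, r1, r2, r3, r4, r5⟩ := hN.exists_retr hC'
  obtain ⟨f, j, f1, f2, f3, f4, f5, f6⟩ := hN.exists_fun hC'
  let ρ' : C → C' := fun c => ⟨ρ c, r1 c c.2⟩
  have s1 : ρ' 1 = 1 := Subtype.ext r2
  have s2 : ∀ a x, ρ' (Subgroup.inclusion hle a * x) = a * ρ' x := fun a x =>
    Subtype.ext (r3 a a.2 x x.2)
  have s3 : ∀ g : C, ∃ T : Set C, T.Finite ∧ ∀ c, ρ' (c * g) ≠ ρ' c →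
      ∃ a, ∃ t ∈ T, c = Subgroup.inclusion hle a * t := fun g => by
    obtain ⟨T, hT, k⟩ := r5 g g.2
    refine ⟨Subtype.val ⁻¹' T, hT.preimage Subtype.val_injective.injOn, fun c hc => ?_⟩
    obtain ⟨a, ha, t, ht, e⟩ := k c c.2 fun k1 => hc (Subtype.ext k1)
    exact ⟨⟨a, ha⟩, ⟨t, (C.mul_mem_cancel_left (hle ha)).mp (e ▸ c.2)⟩, ht, Subtype.ext e⟩
  refine ⟨C', hle, (Group.fg_iff_subgroup_fg C').mp (fg_of_retr _ ρ' s1 s2 s3
    ((Group.fg_iff_subgroup_fg C).mpr ((Gen.fg_iff_rc (Γ := Γ)).mpr ⟨1, hC⟩))), ⟨_, hS, hA⟩,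
    fun k hk => Iota.step _ (Subgroup.inclusion_injective hle) ρ' s1 s2
      (fun c hc a => Subtype.ext (r4 c c.2 (fun k1 => hc ⟨⟨c, k1⟩, rfl⟩) a a.2)) s3
      (fun c => if f c then 1 else 0) (fun g => ?_) (fun c a => ?_) ⟨j, f3⟩ (fun k1 => ?_) ?_ ?_
      (fun c k1 k2 => ?_) hk⟩
  · refine ((f1 g g.2).preimage Subtype.val_injective.injOn).subset fun c hc =>
      ⟨c.2, fun k1 => hc ?_⟩
    exact if_congr k1 rfl rfl
  · exact if_congr (f2 c c.2 a a.2) rfl rfl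
  · rw [tf j (C.subtype.isOfFinOrder k1)] at f4
    exact f5 f4
  · change (if f j then 1 else 0 : ℤ) = (if f 1 then 1 else 0) + 1
    rw [if_pos f4, if_neg f5, zero_add]
  · change (if f 1 then 1 else 0 : ℤ) = (if f j⁻¹ then 1 else 0) ∨
      (if f 1 then 1 else 0 : ℤ) + 1 = if f j⁻¹ then 1 else 0
    rw [if_neg f5]
    split_ifs
    · exact Or.inr (zero_add 1)
    · exact Or.inl rfl
  · exact if_congr (f6 c c.2 (fun k3 => k1 (Subtype.ext k3)) fun k3 => k2 (Subtype.ext k3)) rfl rfl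

theorem exists_oe' {k0 : ℕ} (ha : Ac k0 C X) (h : Sys C X) (hG : Group.FG G) (h1 : OE (⊤ : Subgroup G))
    (hLP : ∀ Γ : Gen G, Γ.LP1) (tf : ∀ g : G, IsOfFinOrder g → g = 1) (hC : C.FG) :
    ∃ C' : Subgroup G, C' ≤ C ∧ C'.FG ∧ OE C' ∧ ∃ X', Sys C' X' ∧ Ac k0 C' X' := by
  obtain ⟨d, hd⟩ := Iota.bdd C ((Group.fg_iff_subgroup_fg C).mpr hC)
  have key : ∀ m, ∀ (D : Subgroup G) (Y : Set G), Sys D Y → Ac k0 D Y → D.FG →
      (∀ k, Iota D k → k < m) →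
      ∃ C' : Subgroup G, C' ≤ D ∧ C'.FG ∧ OE C' ∧ ∃ X', Sys C' X' ∧ Ac k0 C' X' := by
    intro m
    induction m with
    | zero => exact fun D _ _ _ _ hk => absurd (hk 0 (Iota.zero D)) (by omega)
    | succ m ih =>
      intro D Y hD hA hfg hk
      by_cases hoe : OE D
      · exact ⟨D, le_rfl, hfg, hoe, Y, hD, hA⟩
      obtain ⟨X', Γ, L, a0, a1, a2, a3, a4, a5, a6, a7, a8, a9⟩ := exists_cut' hD hG h1 hLP hfg hoe
      have hA' : Ac k0 D X' := a0.elim (fun e => e ▸ hA) fun e => e ▸ hA.swap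
      obtain ⟨D', b1, b2, ⟨Y', b3, b5⟩, b4⟩ := cut_step' hA' a1 h1 tf Γ L a2 a3 a4 a5 a6 a7 a8 a9
      obtain ⟨C', c1, c2⟩ := ih D' Y' b3 b5 b2 fun k hk' => by
        have := hk _ (b4 k hk')
        omega
      exact ⟨C', c1.trans b1, c2⟩
  exact key (d + 1) C X h ha hC fun k hk => Nat.lt_succ_of_le (hd k hk)

end Pool.Agent.Lib.MP_d98eb9_al.W.J
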