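import Pool.Agent.Lib.MP_d98eb9_al.J.BFP

/-! Reduction to a finitely generated edge group that keeps a given subgroup elliptic. -/

namespace Pool.Agent.Lib.MP_d98eb9_al.W.J

open Gen FG BF Pool.Agent.Lib.MP_1d6a3f_al

variable {G : Type} [Group G] {C : Subgroup G} {X : Set G}

theorem IsFP2.fg' {A : Subgroup G} (h : IsFP2 A) : A.FG := by
  obtain ⟨P0, P1, -, -, d0, ε, hε, hs, ex0, -, f0, f1, -, p0, p1, -⟩ := h
  obtain ⟨B0⟩ := exists_DB (G := A) P0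
  obtain ⟨B1⟩ := exists_DB (G := A) P1
  obtain ⟨S, -, hS⟩ := exists_gen hε hs ex0 B0 B1
  exact (Group.fg_iff_subgroup_fg A).mp ⟨⟨S, hS⟩⟩

namespace VX

theorem rc_one (Γ : Gen G) {A : Subgroup G} {T : Finset G} (hT : Subgroup.closure (T : Set G) = A)
    (h : ∀ t ∈ T, ∃ i, Γ.s i = t) : Γ.RC 1 A := by
  intro S hS p hp q hq hpS
  have key : ∀ g ∈ Subgroup.closure (T : Set G), ∀ x ∈ A, (x ∈ S ↔ x * g ∈ S) := by
    intro g hg
    induction hg using Subgroup.closure_induction with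
    | mem g hg =>
      intro x hx
      have hx' : x * g ∈ A := A.mul_mem hx (hT ▸ Subgroup.subset_closure hg)
      obtain ⟨i, rfl⟩ := h g hg
      exact ⟨hS x hx _ hx' (d_gen x i), hS _ hx' x hx (by rw [d_comm]; exact d_gen x i)⟩
    | one => simp
    | mul a b ha _ iha ihb =>
      intro x hx
      rw [iha x hx, ihb _ (A.mul_mem hx (hT ▸ ha)), mul_assoc]
    | inv a ha iha =>
      intro x hx
      rw [iha _ (A.mul_mem hx (A.inv_mem (hT ▸ ha))), inv_mul_cancel_right]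
  simpa using (key (p⁻¹ * q) (hT ▸ A.mul_mem (A.inv_mem hp) hq) p hp).mp hpS

theorem exists_gen' (h : Sys C X) (hG : Group.FG G) (T : Finset G)
    (hT : ∀ t ∈ T, t ∈ C ∨ Sp C X t = ∅) :
    ∃ Γ : Gen G, (∀ p q, Γ.d p q ≤ 1 → p ∈ X → q ∉ opp C X) ∧ ∀ t ∈ T, ∃ i, Γ.s i = t := by
  obtain ⟨Γ, hJ, -⟩ := h.exists_gen hG ∅ (by simp)
  have hn : ∀ p s, (s ∈ C ∨ Sp C X s = ∅) → p ∉ C → p * s ∉ C → (p ∈ X ↔ p * s ∈ X) := by
    rintro p s (e | e) h1 h2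
    · exact (h.right_iff e).symm
    · by_contra h3
      exact Set.eq_empty_iff_forall_notMem.mp e ((p⁻¹ : G) : G ⧸ C)
        ⟨p⁻¹, rfl, fun e => h1 (C.inv_mem_iff.mp e), by simpa using h2, by simpa using h3⟩
  let s : Fin (Γ.n + T.card) → G := Fin.append Γ.s fun i => (T.equivFin.symm i : G)
  have hs : ∀ i p, (p ∈ X → p * s i ∉ opp C X) ∧ (p * s i ∈ X → p ∉ opp C X) := fun i p => by
    refine Fin.addCases (fun i => ?_) (fun i => ?_) i
    · simp only [s, Fin.append_left]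
      exact ⟨hJ _ _ (d_gen p i), hJ _ _ (by rw [d_comm]; exact d_gen p i)⟩
    · simp only [s, Fin.append_right]
      have := hn p _ (hT _ (T.equivFin.symm i).2)
      exact ⟨fun a b => b.2 ((this (h.disj _ a) b.1).mp a),
        fun a b => b.2 ((this b.1 (h.disj _ a)).mpr a)⟩
  refine ⟨⟨_, s, ?_⟩, fun p q hd hp => ?_, fun t ht =>
    ⟨Fin.natAdd Γ.n (T.equivFin ⟨t, ht⟩), by simp [s]⟩⟩
  · rw [eq_top_iff, ← Γ.gen]
    exact Subgroup.closure_mono fun _ ⟨i, e⟩ => ⟨Fin.castAdd _ i, by simpa [s] using e⟩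
  · rcases d_le_one.mp hd with rfl | ⟨i, rfl | rfl⟩
    · exact fun e => e.2 hp
    · exact (hs i p).1 hp
    · exact (hs i q).2 hp

theorem exists_fg' (h : Sys C X) (hG : Group.FG G) (hLP : ∀ Γ : Gen G, Γ.LP0) {A : Subgroup G}
    (hA : A.FG) (hv : ∀ a ∈ A, a ∈ C ∨ (a ∈ X ∧ Sp C X a = ∅)) :
    ∃ C' : Subgroup G, C' ≤ C ∧ C'.FG ∧ ∃ X', Sys C' X' ∧ ∀ a ∈ A, nn C' X' a = 0 := by
  obtain ⟨T, hT⟩ := hA
  obtain ⟨Γ, hJ, hΓ⟩ := exists_gen' h hG T fun t ht =>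
    (hv t (hT ▸ Subgroup.subset_closure ht)).imp id And.right
  obtain ⟨ρ, hρ⟩ := hLP Γ
  obtain ⟨u, hu⟩ := hρ ℤ (fun p i => ph (sh Γ C (2 * ρ + 2)) X p (p * Γ.s i)) fun k => by
    have h1 : ∀ p i, Γ.d k p ≤ ρ → Γ.d k (p * Γ.s i) ≤ ρ + 1 := fun p i hd =>
      (d_tri k p _).trans (add_le_add hd (d_gen p i))
    by_cases h2 : ∃ c ∈ sh Γ C (2 * ρ + 2), Γ.d k c ≤ ρ + 1
    · obtain ⟨c, hc, h3⟩ := h2
      have h4 : ∀ y, Γ.d k y ≤ ρ + 1 → (y ∈ sh Γ C (2 * ρ + 2) ↔ y ∈ C) := fun y hy =>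
        sh_iff hc ((d_tri c k y).trans (by rw [d_comm c k]; omega))
      exact ⟨ind X, fun p i hd => ph_eq h hJ (d_gen p i) (h4 p (by omega)) (h4 _ (h1 p i hd))⟩
    · exact ⟨0, fun p i hd => (ph_zero (fun e => h2 ⟨p, e, by omega⟩)
        fun e => h2 ⟨_, e, h1 p i hd⟩).trans (sub_self _).symm⟩
  set D := sh Γ C (2 * ρ + 2) with hD
  have hv' : ∀ p q, Γ.d p q ≤ 1 → u q - u 1 = u p - u 1 + ph D X p q := fun p q hd => by
    rw [of_gen (φ := ph D X) (fun p q => (neg_sub _ _).symm) hd (hu p) (hu q)]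
    ring
  have S := sys_of (u := fun p => u p - u 1) h hJ (sub_self _) hv'
  refine ⟨D, sh_le, (Subgroup.fg_iff _).2 ⟨_, rfl, (Gen.ball_finite 1 _).inter_of_left _⟩, _, S,
    fun a ha => ?_⟩
  refine (congrArg Set.ncard (Set.eq_empty_iff_forall_notMem.mpr ?_)).trans (Set.ncard_empty _)
  rintro _ ⟨x, -, h1, h2, h3⟩
  have h1' : x⁻¹ * 1 ∉ D := fun e => h1 (by simpa using e)
  have key : ∀ m, ∀ b ∈ A, (x⁻¹ * b ∈ D ∨ u (x⁻¹ * b) - u 1 = m) →
      (m = 1 ∨ ∀ c ∈ A, x⁻¹ * c ∉ D) → ∀ c ∈ A, x⁻¹ * c ∉ D → u (x⁻¹ * c) - u 1 = m :=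
    fun m b hb e hm c hc hc' => (rc_one Γ hT hΓ {b | x⁻¹ * b ∈ D ∨ u (x⁻¹ * b) - u 1 = m}
      (fun p hp q hq hd e => by
        have hd' : Γ.d (x⁻¹ * p) (x⁻¹ * q) ≤ 1 := by rwa [d_mul]
        by_cases k2 : x⁻¹ * q ∈ D
        · exact Or.inl k2
        refine Or.inr ?_
        by_cases k1 : x⁻¹ * p ∈ D
        · have k3 : u (x⁻¹ * p) - u 1 = 0 := by_contra fun k => S.disj _ k k1
          have k4 : x⁻¹ * q = x⁻¹ * p * (p⁻¹ * q) := by group
          have k5 : x⁻¹ * q ∈ X := by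
            rcases hv _ (A.mul_mem (A.inv_mem hp) hq) with k | k
            · exact absurd ((sh_iff k1 (hd'.trans (by omega))).mpr
                (k4 ▸ C.mul_mem (sh_le k1) k)) k2
            · exact k4 ▸ h.left _ (sh_le k1) _ k.1
          rw [hv' _ _ hd', k3, ph, ind_pos k1, ind_pos k5, ind_neg k2,
            hm.resolve_right fun k => k p hp k1]
          ring
        · rw [hv' _ _ hd', ph_zero k1 k2, add_zero]
          exact Or.resolve_left e k1) b hb c hc e).resolve_left hc'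
  have : u (x⁻¹ * 1) - u 1 = u (x⁻¹ * a) - u 1 := by
    by_cases k : ∃ b ∈ A, x⁻¹ * b ∈ D
    · obtain ⟨b, hb, k⟩ := k
      rw [key 1 b hb (Or.inl k) (Or.inl rfl) 1 A.one_mem h1',
        key 1 b hb (Or.inl k) (Or.inl rfl) a ha h2]
    · exact (key _ 1 A.one_mem (Or.inr rfl) (Or.inr fun c hc e => k ⟨c, hc, e⟩) a ha h2).symm
  rw [mul_one] at this
  exact h3 (by simp only [Set.mem_ofPred_eq, this])

open SimpleGraph Pool.Agent.Shared.GroupTree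

theorem vertex {V : Type} {T : SimpleGraph V} {a b : V} [MulAction G V] (h : GTree G T)
    (hab : T.Adj a b) (hC : ∀ g : G, g ∈ C ↔ s(g • a, g • b) = s(a, b)) {t : G} (ht : t • b = b) :
    t ∈ C ∨ (t ∈ {x | x ∉ C ∧ Toward T a b (x • a)} ∧
      Sp C {x | x ∉ C ∧ Toward T a b (x • a)} t = ∅) := by
  have he : ∀ x ∉ C, Toward T a b (x • a) ↔ Toward T a b (x • b) := fun x hx =>
    Tree.edge h.tree (h.adj x a b hab) (mt (hC x).2 hx)
  refine (em _).imp id fun k => ⟨⟨k, (he t k).2 ?_⟩, Set.eq_empty_iff_forall_notMem.mpr ?_⟩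
  · rw [ht]
    exact ⟨hab, by rw [dist_self, dist_adj hab]⟩
  · rintro _ ⟨x, -, h1, h2, h3⟩
    have h4 : x⁻¹ ∉ C := fun e => h1 (C.inv_mem_iff.mp e)
    refine h3 (and_congr (iff_of_true h4 h2) ?_)
    rw [he _ h4, he _ h2, mul_smul, ht]

theorem main {V : Type} {T : SimpleGraph V} {a b : V} [MulAction G V] (hG : Group.FG G)
    (hLP : ∀ Γ : Gen G, Γ.LP0) (h : GTree G T) (hab : T.Adj a b)
    (hn : ∀ v : V, ∃ g : G, g • v ≠ v)
    (ho : ∀ x y : V, T.Adj x y → ∃ g : G, s(g • a, g • b) = s(x, y))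
    (hC : ∀ g : G, g ∈ C ↔ s(g • a, g • b) = s(a, b)) {A : Subgroup G} (hA : A.FG) (g : G)
    (hv : ∀ t ∈ A, t • g • b = g • b) :
    ∃ C' : Subgroup G, C' ≤ C ∧ C'.FG ∧ ∃ X', Sys C' X' ∧ TB C' X' A := by
  obtain ⟨C', h1, h2, X', h3, h4⟩ := exists_fg' (Tree.main h hab hn ho hC) hG hLP
    (A := A.map (MulAut.conj g⁻¹).toMonoidHom) (by
      obtain ⟨T, rfl⟩ := hA
      rw [MonoidHom.map_closure]
      exact (Subgroup.fg_iff _).2 ⟨_, rfl, T.finite_toSet.image _⟩) (by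
      rintro _ ⟨t, ht, rfl⟩
      refine vertex h hab hC ?_
      simp [mul_smul, hv t ht])
  refine ⟨C', h1, h2, X', h3, nn C' X' g + nn C' X' g⁻¹ + 2, fun t ht => ?_⟩
  have e1 := h4 (g⁻¹ * t * g) ⟨t, ht, by simp⟩
  have e2 := nn_mul h3 g (g⁻¹ * t * g)
  have e3 := nn_mul h3 (g * (g⁻¹ * t * g)) g⁻¹
  rw [show g * (g⁻¹ * t * g) * g⁻¹ = t by group] at e3
  omega

end VX

/-- A finitely generated elliptic subgroup stays bounded in a splitting over a finitely generated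
subgroup of the edge group. -/
theorem vx (hG : IsPD 3 G) (S : TreeSplitting C) {A : Subgroup G} (hA : A.FG) (he : S.Elliptic A) :
    ∃ C' : Subgroup G, C' ≤ C ∧ C'.FG ∧ ∃ X', Sys C' X' ∧ TB C' X' A := by
  let := MulAction.compHom S.V S.ρ
  have hT : Pool.Agent.Shared.GroupTree.GTree G S.T :=
    ⟨S.isTree, S.adj, fun g x y h e e' => S.no_inversion g x y h ⟨e, e'⟩⟩
  have hLP := fun Γ : Gen G => (exists_geo hG Γ).some.lp0
  obtain ⟨v, hv⟩ := he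
  obtain ⟨x, hx⟩ := S.no_fixed v
  obtain ⟨w, hw⟩ := Pool.Agent.Shared.GroupTree.exists_toward S.isTree (Ne.symm hx)
  obtain ⟨g, hg⟩ := S.one_orbit v w hw.1
  rcases Sym2.eq_iff.1 hg with ⟨e, -⟩ | ⟨-, e⟩
  · exact VX.main (IsPD.fg hG) hLP hT S.adj₀.symm S.no_fixed
      (fun x y h => (S.one_orbit x y h).imp fun _ e => Sym2.eq_swap.trans e)
      (fun k => (S.stabilizer k).trans ⟨fun e => Sym2.eq_swap.trans (e.trans Sym2.eq_swap),
        fun e => Sym2.eq_swap.trans (e.trans Sym2.eq_swap)⟩) hA g fun t ht =>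
      show S.ρ t (S.ρ g S.x₀) = S.ρ g S.x₀ from e ▸ hv t ht
  · exact VX.main (IsPD.fg hG) hLP hT S.adj₀ S.no_fixed S.one_orbit S.stabilizer hA g
      fun t ht => show S.ρ t (S.ρ g S.y₀) = S.ρ g S.y₀ from e ▸ hv t ht

/-- An elliptic subgroup of type `FP_2` that contains the edge group. -/
theorem done_vertex (hG : IsPD 3 G) {Γ : Gen G} (ind : IND Γ) (S : TreeSplitting C)
    {A : Subgroup G} (hCA : C ≤ A) (he : S.Elliptic A) (hA : IsFP2 A) : Done G := by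
  obtain ⟨C', h1, h2, X', h3, h4⟩ := vx hG S (IsFP2.fg' hA) he
  obtain ⟨j, hj⟩ := bfp (exists_geo hG Γ).some C' A X' h3 h2 (h1.trans hCA) (IsFP2.fg' hA) hA h4
  exact ind j C' X' h3 hj

end Pool.Agent.Lib.MP_d98eb9_al.W.J
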