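import Pool.Agent.Lib.MP_d98eb9_al.J.Const
import Pool.Agent.Lib.MP_d98eb9_al.J.Exc
import Pool.Agent.Lib.MP_d98eb9_al.J.Hon
import Pool.Agent.Lib.MP_d98eb9_al.J.Ind
import Pool.Agent.Lib.MP_d98eb9_al.J.Inh
import Pool.Agent.Lib.MP_d98eb9_al.J.Nst
import Pool.Agent.Lib.MP_d98eb9_al.J.Lim
import Pool.Agent.Lib.MP_d98eb9_al.J.VX
import Pool.Agent.Lib.MP_d98eb9_al.J.Bridge
import Pool.Agent.Lib.MP_d98eb9_al.J.Oea

/-! Assembly of the tree part. -/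

namespace Pool.Agent.Lib.MP_d98eb9_al.W.J

open Gen Pool.Agent.Lib.MP_1d6a3f_al

variable {G : Type} [Group G] {Γ : Gen G} {C : Subgroup G} {X : Set G}

theorem ind' (hG : IsPD 3 G) (s1 : S1 Γ) : IND Γ :=
  have Y := (exists_geo hG Γ).some
  ind hG s1 (part Γ) (lim hG Y.lp0 s1 nst) inh (exc hG Y.lp0 s1 (hon Y) (nestJ Γ))

/-- Invariant components at every level give a fixed end. -/
theorem fixE_of_inv {K : Subgroup G}
    (h : ∀ r, ∃ P, Γ.Comp (Γ.N r K) P ∧ ∀ k ∈ K, tr k P = P) : FixE Γ K := by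
  let α : ℕ → Type := fun r => {P : Set G // Γ.Comp (Γ.N r K) P ∧ ∀ k ∈ K, tr k P = P}
  have fin : ∀ r, Finite (α r) := fun r => by
    obtain ⟨F, hF, -, h2⟩ := comp_finite (Γ := Γ) r K
    have : {P | Γ.Comp (Γ.N r K) P ∧ ∀ k ∈ K, tr k P = P} ⊆ F := fun P hP => by
      obtain ⟨c, hc, U, hU, e⟩ := h2 P hP.1
      rwa [← hP.2 _ (K.inv_mem hc), e, tr_inv_tr]
    exact (hF.subset this).to_subtype
  have ne : ∀ r, Nonempty (α r) := fun r => (h r).elim fun P hP => ⟨⟨P, hP⟩⟩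
  have up : ∀ i j, i ≤ j → ∀ P : α j, ∃ Q : α i, P.1 ⊆ Q.1 := fun i j hij P => by
    obtain ⟨Q, a, b⟩ := comp_up' P.2.1 hij
    refine ⟨⟨Q, a, fun k hk => ?_⟩, b⟩
    have a' := a.tr k
    rw [tr_N, tr_subgroup hk] at a'
    obtain ⟨p, hp⟩ := P.2.1.ne
    exact a'.disj a (tr_mono k b ((P.2.2 k hk).ge hp)) (b hp)
  choose π hπ using up
  have uq : ∀ i j (hij : i ≤ j) (P : α j) (Q : α i), P.1 ⊆ Q.1 → π i j hij P = Q := fun i j hij P Q e => by
    obtain ⟨p, hp⟩ := P.2.1.ne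
    exact Subtype.ext ((π i j hij P).2.1.disj Q.2.1 (hπ i j hij P hp) (e hp))
  have := fin 0
  obtain ⟨f, hf⟩ := exists_seq_forall_proj_of_forall_finite (α := α) (fun {i j} hij => π i j hij)
    (fun i a => uq _ _ _ _ _ subset_rfl)
    (fun i j k hij hjk a => (uq _ _ _ _ _ ((hπ _ _ hjk a).trans (hπ _ _ hij _))).symm)
    (fun i a => have := fin (i + 1); Set.toFinite _)
  refine ⟨fun r => (f r).1, fun r => ⟨(f r).2.1, ?_, (f r).2.2⟩⟩
  have := hπ r (r + 1) (Nat.le_succ r) (f (r + 1))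
  rwa [hf (Nat.le_succ r)] at this

/-- A group that fixes infinitely many cosets of a finitely generated group fixes an end. -/
theorem fixE_of_infinite {K L : Subgroup G} (hL : L.FG)
    (h : {q : G ⧸ L | ∀ k ∈ K, k • q = q}.Infinite) : FixE Γ K := by
  obtain ⟨ρ, hρ⟩ := (fg_iff_rc (Γ := Γ)).mp hL
  refine fixE_of_inv fun r => ?_
  obtain ⟨q, hq, hn⟩ := h.exists_notMem_finite
    ((Gen.ball_finite (Γ := Γ) 1 (r + ρ)).image fun b : G => (b : G ⧸ L))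
  obtain ⟨y, rfl⟩ := QuotientGroup.mk_surjective q
  have far : ∀ l ∈ L, y * l ∉ Γ.N (r + ρ) K := fun l hl ⟨k, hk, hd⟩ => hn ⟨k⁻¹ * (y * l), by
    rwa [d_eq] at hd, by
      have := hq _ (K.inv_mem hk)
      rw [← this]
      exact QuotientGroup.eq.mpr (by simpa using hl)⟩
  have hy : y ∉ Γ.N r K := fun e => far 1 L.one_mem (by
    simpa using N_mono (Nat.le_add_right r ρ) subset_rfl e)
  have con : ∀ l ∈ L, Γ.Conn (Γ.N r K) y (y * l) := fun l hl =>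
    hρ {l | Γ.Conn (Γ.N r K) y (y * l)} (fun a ha b _ hd e => Conn.trans e
      (conn_of_d (fun e' => far a ha (N_N subset_rfl e')) (by simpa using hd)))
      1 L.one_mem l hl (by simpa using Conn.refl _ _)
  have hc : Γ.Comp (Γ.N r K) _ := ⟨y, hy, rfl⟩
  refine ⟨_, hc, fun k hk => ?_⟩
  have a := hc.tr k
  rw [tr_N, tr_subgroup hk] at a
  refine a.disj hc (mul_mem_tr.mpr (Conn.refl _ _)) ?_
  simpa using con _ (QuotientGroup.eq.mp (hq k hk).symm)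

theorem nn_of_mem (h : Sys C X) {c : G} (hc : c ∈ C) : nn C X c = 0 := by
  rw [← one_mul c, h.nn_right hc, nn]
  exact (Set.ncard_eq_zero (h.fin 1)).mpr
    (Set.eq_empty_of_forall_notMem fun _ ⟨_, _, _, _, e⟩ => e (by rw [mul_one]))

theorem done_ac (hG : IsPD 3 G) (s1 : S1 Γ) (h : Sys C X) (hC : C.FG) {k : ℕ} (ha : Ac k C X) :
    Done G := by
  have geo := fun Γ : Gen G => (exists_geo hG Γ).some
  obtain ⟨C', -, a, b, X', c, d⟩ := exists_oe' ha h (IsPD.fg hG) (geo Γ).oe (fun Γ => (geo Γ).lp1)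
    (geo Γ).tf hC
  obtain ⟨j, hj⟩ := bac (geo Γ) C' X' (k + 1) c a b fun y hy =>
    d y (fun e => by rw [nn_of_mem c e] at hy; omega) (by omega)
  exact ind' hG s1 j C' X' c hj

/-- The three classes of splittings. -/
theorem split_tree (hG : IsPD 3 G) (s1 : ∀ Γ : Gen G, S1 Γ) (S : TreeSplitting C)
    (h : (∃ A : Subgroup G, C ≤ A ∧ S.Elliptic A ∧ IsFP2 A) ∨ C.FG ∧
      ((∃ k, ∀ g u v, k ≤ S.T.dist u v → S.ρ g u = u → S.ρ g v = v → g = 1) ∨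
        {q : G ⧸ C | ∀ c ∈ C, c • q = q}.Infinite)) : Done G := by
  obtain ⟨Γ⟩ := exists_Gen (IsPD.fg hG)
  rcases h with ⟨A, a, b, c⟩ | ⟨hC, ⟨k, hk⟩ | h⟩
  · exact done_vertex hG (ind' hG (s1 Γ)) S a b c
  · obtain ⟨X, h1, h2⟩ := bridge_ac S hk
    exact done_ac hG (s1 Γ) h1 hC fun y _ => h2 y
  · obtain ⟨X, h1, -⟩ := bridge S
    exact done_of_near hG (s1 Γ) (fixE_of_infinite hC h) h1 (Near.refl _)

end Pool.Agent.Lib.MP_d98eb9_al.W.J
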