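import Pool.Agent.Lib.MP_d98eb9_al.J.Main

/-! Minimal actions on trees with any number of orbits of edges. -/

namespace Pool.Agent.Lib.MP_d98eb9_al.W.J

open SimpleGraph Pool.Agent.Shared.GroupTree W.Tree MulAction

variable {G : Type} [Group G] {V : Type} {T : SimpleGraph V} {a b : V} [MulAction G V]
  {C : Subgroup G}

/-- A minimal action without inversions on a tree. -/
structure MinTree (G : Type) [Group G] {V : Type} [MulAction G V] (T : SimpleGraph V) : Prop where
  tree : T.IsTree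
  adj : ∀ (g : G) (x y : V), T.Adj x y → T.Adj (g • x) (g • y)
  noinv : ∀ (g : G) (x y : V), T.Adj x y → ¬ (g • x = y ∧ g • y = x)
  min : ∀ W : Set V, (∀ (g : G), ∀ v ∈ W, g • v ∈ W) → (T.induce W).Connected → W = Set.univ

theorem MinTree.gt (h : MinTree G T) : GTree G T :=
  ⟨h.tree, h.adj, fun g x y e e1 e2 => h.noinv g x y e ⟨e1, e2⟩⟩

namespace MinP

theorem side (h : MinTree G T) (hab : T.Adj a b) : ∃ x : G, Toward T a b (x • a) := by
  by_contra h0
  push Not at h0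
  have hT := h.tree
  have ha : ∀ g : G, ¬ Toward T (g • a) (g • b) a := fun g e => h0 g⁻¹ ((toward_iff h.gt g).2 e)
  have key : ∀ n u (hu : ∀ g : G, ¬ Toward T (g • a) (g • b) u), T.dist u a = n →
      (T.induce {v | ∀ g : G, ¬ Toward T (g • a) (g • b) v}).Reachable ⟨u, hu⟩ ⟨a, ha⟩ := by
    intro n
    induction n with
    | zero =>
      intro u hu e
      obtain rfl := (dist_zero_iff hT).1 e
      rfl
    | succ n ih =>
      intro u hu e
      obtain ⟨w, hw⟩ := exists_toward hT (x := u) (y := a) fun k => by simp [k] at e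
      have hw' : ∀ g : G, ¬ Toward T (g • a) (g • b) w := fun g k => by
        rcases Sym2.eq_iff.1 (edge_aux hT hw.1.symm k (hu g)) with ⟨e1, -⟩ | ⟨e1, e2⟩
        · exact k.ne e1.symm
        · exact ha g (e1 ▸ e2 ▸ hw)
      refine Reachable.trans (Adj.reachable ?_) (ih w hw' (by have := hw.2; omega))
      exact hw.1
  have := h.min {v | ∀ g : G, ¬ Toward T (g • a) (g • b) v}
    (fun g v hv k e => hv (g⁻¹ * k) (by
      have := h.gt.toward_smul g⁻¹ e
      rwa [inv_smul_smul, ← mul_smul, ← mul_smul] at this))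
    ((connected_iff_exists_forall_reachable _).2 ⟨⟨a, ha⟩, fun w => (key _ w.1 w.2 rfl).symm⟩)
  exact (this.ge (Set.mem_univ b)) 1 ⟨by simpa using hab, by simp [dist_adj hab]⟩

theorem sys (hm : MinTree G T) (hab : T.Adj a b)
    (hC : ∀ g : G, g ∈ C ↔ s(g • a, g • b) = s(a, b)) :
    Sys C {x | x ∉ C ∧ Toward T a b (x • a)} := by
  have h := hm.gt
  have hT := h.tree
  have fix : ∀ c ∈ C, c • a = a ∧ c • b = b := fun c hc =>
    (Sym2.eq_iff.1 ((hC c).1 hc)).resolve_right fun e => h.noinv c a b hab e.1 e.2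
  have he : ∀ x ∉ C, Toward T a b (x • a) ↔ Toward T a b (x • b) := fun x hx =>
    edge hT (h.adj x a b hab) (mt (hC x).2 hx)
  refine ⟨fun _ hx => hx.1, fun c hc x hx => ⟨mt (C.mul_mem_cancel_left hc).1 hx.1, ?_⟩,
    fun c hc x hx => ⟨mt (C.mul_mem_cancel_right hc).1 hx.1, ?_⟩, fun x y hx hy hxy => ?_,
    fun y => ?_, ?_, ?_⟩
  · have := h.toward_smul c hx.2
    rwa [(fix c hc).1, (fix c hc).2, ← mul_smul] at this
  · rw [mul_smul, (fix c hc).1]
    exact hx.2
  · simp only [Set.mem_ofPred_eq, hx, hy, not_false_eq_true, true_and] at hxy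
    have h1 : x⁻¹ * y ∉ C := fun e => hxy (by
      rw [← mul_inv_cancel_left x y, mul_smul, (fix _ e).1])
    simp only [Set.mem_ofPred_eq, h1, inv_mem_iff, hx, not_false_eq_true, true_and, mul_smul,
      toward_iff h]
    exact nest hT (he x hx) hxy
  · have hf := finite_between hT (y • a) _ a rfl
    refine ((hf.prod hf).preimage (f := fun q : G ⧸ C => (q.out • a, q.out • b)) ?_).subset ?_
    · intro q _ q' _ e
      obtain ⟨e1, e2⟩ := Prod.ext_iff.1 e
      rw [← QuotientGroup.out_eq' q, ← QuotientGroup.out_eq' q', QuotientGroup.eq, hC, mul_smul,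
        mul_smul, ← show q.out • a = q'.out • a from e1, ← show q.out • b = q'.out • b from e2,
        inv_smul_smul, inv_smul_smul]
    · rintro _ ⟨x, rfl, hx, hy, hxy⟩
      obtain ⟨c, hc⟩ := QuotientGroup.mk_out_eq_mul C x
      simp only [Set.mem_ofPred_eq, hy, inv_mem_iff, hx, not_false_eq_true, true_and, mul_smul,
        toward_iff h] at hxy
      simp only [Set.mem_preimage, Set.mem_prod, Set.mem_ofPred_eq, hc, mul_smul, (fix c c.2).1,
        (fix c c.2).2]
      refine ⟨sep hT hxy, sep hT (b := x • a) ?_⟩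
      rwa [flip hT (h.adj x a b hab), flip hT (h.adj x a b hab), not_iff_not]
  · obtain ⟨x, hx⟩ := side hm hab
    exact ⟨x, fun e => hx.ne (fix x e).1.symm, hx⟩
  · obtain ⟨x, hx⟩ := side hm hab.symm
    have hxC : x ∉ C := fun e => hx.ne (fix x e).2.symm
    exact ⟨x, hxC, fun e => (flip hT hab).1 hx ((he x hxC).1 e.2)⟩

theorem card_E (h : GTree G T) (hC : ∀ g : G, g ∈ C ↔ s(g • a, g • b) = s(a, b)) (q : V) :
    ∀ (n : ℕ) (p : V), T.dist p q = n →
      (BrP.E C T a b p q).Finite ∧ (BrP.E C T a b p q).ncard ≤ n := by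
  intro n
  induction n with
  | zero =>
    intro p e
    obtain rfl := (dist_zero_iff h.tree).1 e
    have : BrP.E C T a b p p = ∅ := Set.eq_empty_of_forall_notMem fun _ ⟨_, _, k⟩ => k Iff.rfl
    simp [this]
  | succ n ih =>
    intro p e
    obtain ⟨w, hw⟩ := exists_toward h.tree (x := p) (y := q) fun k => by simp [k] at e
    obtain ⟨h1, h2⟩ := ih w (by have := hw.2; omega)
    obtain ⟨g, hg⟩ : ∃ g : G, ∀ x : G, s(p, w) = s(x • a, x • b) → s(g • a, g • b) = s(p, w) := by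
      by_cases k : ∃ x : G, s(p, w) = s(x • a, x • b)
      · exact k.imp fun x k _ _ => k.symm
      · exact ⟨1, fun x e => absurd ⟨x, e⟩ k⟩
    have h3 : BrP.E C T a b p q ⊆ insert (g : G ⧸ C) (BrP.E C T a b w q) := by
      rintro _ ⟨x, rfl, hx⟩
      by_cases k : s(p, w) = s(x • a, x • b)
      · refine Or.inl (QuotientGroup.eq.2 ((hC _).2 ?_))
        have := congrArg (Sym2.map fun v => x⁻¹ • v) ((hg x k).trans k)
        simpa only [Sym2.map_mk, inv_smul_smul, mul_smul] using this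
      · exact Or.inr ⟨x, rfl, fun l => hx ((edge h.tree hw.1 k).trans l)⟩
    exact ⟨(h1.insert _).subset h3, (Set.ncard_le_ncard h3 (h1.insert _)).trans
      ((Set.ncard_insert_le _ _).trans (by omega))⟩

theorem nn_le (h : GTree G T) (hC : ∀ g : G, g ∈ C ↔ s(g • a, g • b) = s(a, b)) (y : G) :
    nn C {x | x ∉ C ∧ Toward T a b (x • a)} y ≤ T.dist a (y • a) := by
  obtain ⟨h1, h2⟩ := card_E h hC (y • a) _ a rfl
  refine (Set.ncard_le_ncard ?_ h1).trans h2
  rintro _ ⟨x, rfl, hx, hy, hxy⟩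
  simp only [Set.mem_ofPred_eq, hy, inv_mem_iff, hx, not_false_eq_true, true_and, mul_smul,
    toward_iff h] at hxy
  exact ⟨x, rfl, hxy⟩

theorem stab (h : MinTree G T) (hab : T.Adj a b) (g : G) :
    g ∈ stabilizer G a ⊓ stabilizer G b ↔ s(g • a, g • b) = s(a, b) :=
  ⟨fun e => by rw [e.1, e.2], fun e => (Sym2.eq_iff.1 e).resolve_right (h.noinv g a b hab)⟩

end MinP

/-- A group of type `FP_2` between an edge group and a vertex group. -/
theorem min_vertex (hG : IsPD 3 G) (s1 : ∀ Γ : Gen G, S1 Γ) (h : MinTree G T) (hab : T.Adj a b)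
    {A : Subgroup G} (h1 : stabilizer G a ⊓ stabilizer G b ≤ A) (h2 : A ≤ stabilizer G b)
    (hA : IsFP2 A) : Done G := by
  obtain ⟨Γ⟩ := exists_Gen (IsPD.fg hG)
  obtain ⟨C', a1, a2, X', a3, a4⟩ := VX.exists_fg' (MinP.sys h hab (MinP.stab h hab)) (IsPD.fg hG)
    (fun Γ => (exists_geo hG Γ).some.lp0) (IsFP2.fg' hA)
    fun t ht => VX.vertex h.gt hab (MinP.stab h hab) (h2 ht)
  obtain ⟨j, hj⟩ := bfp (exists_geo hG Γ).some C' A X' a3 a2 (a1.trans h1) (IsFP2.fg' hA) hA
    ⟨0, fun t ht => (a4 t ht).le⟩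
  exact ind' hG (s1 Γ) j C' X' a3 hj

/-- Acylindrical actions. -/
theorem min_ac (hG : IsPD 3 G) (s1 : ∀ Γ : Gen G, S1 Γ) (h : MinTree G T) (hab : T.Adj a b)
    (hC : (stabilizer G a ⊓ stabilizer G b).FG) {k : ℕ}
    (hk : ∀ (g : G) u v, k ≤ T.dist u v → g • u = u → g • v = v → g = 1) : Done G := by
  obtain ⟨Γ⟩ := exists_Gen (IsPD.fg hG)
  refine done_ac hG (s1 Γ) (MinP.sys h hab (MinP.stab h hab)) hC (k := k) fun y _ hy c hc e => ?_
  refine hk c _ _ (hy.trans (MinP.nn_le h.gt (MinP.stab h hab) y)) hc.1 ?_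
  have := congrArg (fun v => y • v) (show (y⁻¹ * c * y) • a = a from e.1)
  simpa [mul_smul] using this

open Pool.Agent.Lib.MP_1d6a3f_al in
/-- One more class of edge groups: groups that fix infinitely many cosets of a finitely generated
group. -/
theorem split_pd'' (hG : IsPD 3 G) (s1 : ∀ Γ : Gen G, S1 Γ) (hC : SplitsOver C)
    (h : ∀ J : Subgroup G, J ≤ C → J.FG → SplitsOver J → ∃ K : Subgroup G, K ≤ J ∧
      (K.subgroupOf J).FiniteIndex ∧ (IsFP2 K ∨ Agrarian K ∨ AZD K ∨ LeftOrd K ∨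
        ∃ L : Subgroup G, L.FG ∧ {q : G ⧸ L | ∀ k ∈ K, k • q = q}.Infinite)) :
    ∃ S : Subgroup G, S ≤ C ∧ IsPD 2 S ∧ SplitsOver S := by
  obtain ⟨Γ⟩ := exists_Gen (IsPD.fg hG)
  refine split_pd' hG hC fun J h1 h2 h3 => ?_
  obtain ⟨K, a, b, c⟩ := h J h1 h2 h3
  refine ⟨K, a, b, ?_⟩
  rcases c with c | c | c | c | ⟨L, c, d⟩
  exacts [Or.inl c, Or.inr (Or.inl c), Or.inr (Or.inr (Or.inl c)), Or.inr (Or.inr (Or.inr c)),
    Or.inl (s1 Γ K (by
      have := (Group.fg_iff_subgroup_fg J).mpr h2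
      exact (Group.fg_iff_subgroup_fg K).mp (Group.fg_of_surjective
        (f := (Subgroup.subgroupOfEquivOfLe a).toMonoidHom) (Subgroup.subgroupOfEquivOfLe a).surjective))
      (fixE_of_infinite c d))]

end Pool.Agent.Lib.MP_d98eb9_al.W.J
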