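import Pool.Agent.Lib.MP_d98eb9_al.J.Ray

/-! The least closed partition of one side, its levels, and the corner argument. -/

namespace Pool.Agent.Lib.MP_d98eb9_al.W.J.PartP

open Gen Filter

variable {G : Type} [Group G] {Γ : Gen G} {C : Subgroup G} {X D Y P Q A : Set G}
  {x y z p q c a b : G} {l r s t t0 u : ℕ} {ρ : ℕ → G} {R R' : G → G → Prop}

/-- The class of `x` is tied to the component `P` of level `t`. -/
def Tie (Γ : Gen G) (C : Subgroup G) (X : Set G) (R : G → G → Prop) (t : ℕ) (x : G) (P : Set G) :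
    Prop :=
  Γ.Comp (Γ.N t C) P ∧ P ⊆ X ∧ (¬ Γ.Near (cls X R x ∩ P) C ∨ ∃ s P1, P1 ⊆ P ∧
    Γ.Comp (Γ.N s C) P1 ∧ ¬ Γ.Near P1 C ∧ Γ.Near (Γ.fr P1) (cls X R x))

/-- A relation joined with the ties of level `t`. -/
def Rt (Γ : Gen G) (C : Subgroup G) (X : Set G) (R : G → G → Prop) (t : ℕ) : G → G → Prop :=
  Relation.EqvGen fun a b =>
    R a b ∨ (a ∈ X ∧ b ∈ X ∧ ∃ P, Tie Γ C X R t a P ∧ Tie Γ C X R t b P)

/-- Closed relations. -/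
structure Cl (Γ : Gen G) (C : Subgroup G) (X : Set G) (t0 : ℕ) (R : G → G → Prop) : Prop where
  br : Br C X R
  r1 : ∀ x ∈ X, ∀ y ∈ X, ¬ End1 Γ (cls X R y) (Xb C X x) → R x y
  r5 : ∀ x y, (∀ t, t0 ≤ t → Rt Γ C X R t x y) → R x y

/-- The least closed relation. -/
def R0 (Γ : Gen G) (C : Subgroup G) (X : Set G) (t0 : ℕ) (x y : G) : Prop :=
  ∀ R, Cl Γ C X t0 R → R x y

omit [Group G] in
theorem cls_mono (h : ∀ x y, R x y → R' x y) (x : G) : cls X R x ⊆ cls X R' x :=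
  fun _ hp => ⟨hp.1, h _ _ hp.2⟩

theorem cls_tr (h : Sys C X) (B : Br C X R) (hc : c ∈ C) (x : G) :
    cls X R (c * x) = tr c (cls X R x) :=
  Set.ext fun p => ⟨fun hp => ⟨h.left _ (C.inv_mem hc) _ hp.1, by
      simpa using B.hl _ (C.inv_mem hc) _ _ hp.2⟩,
    fun hp => ⟨(h.left_iff (C.inv_mem hc)).mp hp.1, by simpa using B.hl _ hc _ _ hp.2⟩⟩

theorem xb_cls (h : Sys C X) (B : Br C X R) (hz : z ∈ cls X R x) : Xb C X z ⊆ cls X R x :=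
  fun p hp => ⟨xb_sub h hz.1 hp, B.eqv.trans hz.2 (B.xb z hz.1 p hp)⟩

theorem self_cls (B : Br C X R) (hx : x ∈ X) : x ∈ cls X R x := ⟨hx, B.eqv.refl x⟩

theorem Tie.mono (hR : ∀ x y, R x y → R' x y) (h : Tie Γ C X R t x P) : Tie Γ C X R' t x P :=
  ⟨h.1, h.2.1, h.2.2.imp
    (fun k e => k ((Near.of_subset (Set.inter_subset_inter_left _ (cls_mono hR x))).trans e))
    fun ⟨s, P1, k1, k2, k3, k4⟩ => ⟨s, P1, k1, k2, k3, k4.trans (Near.of_subset (cls_mono hR x))⟩⟩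

theorem Tie.up (hX : Γ.fr X ⊆ Γ.N t C) (h : Tie Γ C X R s x P) (hQ : Γ.Comp (Γ.N t C) Q)
    (hPQ : P ⊆ Q) : Tie Γ C X R t x Q := by
  obtain ⟨p, hp⟩ := h.1.ne
  exact ⟨hQ, comp_side hX hQ (hPQ hp) (h.2.1 hp), h.2.2.imp
    (fun k e => k ((Near.of_subset (Set.inter_subset_inter_right _ hPQ)).trans e))
    fun ⟨s, P1, k1, k⟩ => ⟨s, P1, k1.trans hPQ, k⟩⟩

theorem Tie.tr (h : Sys C X) (B : Br C X R) (hc : c ∈ C) (k : Tie Γ C X R t x P) :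
    Tie Γ C X R t (c * x) (tr c P) := by
  refine ⟨comp_tr hc k.1, fun p hp => (h.left_iff (C.inv_mem hc)).mp (k.2.1 hp), ?_⟩
  rw [cls_tr h B hc]
  exact k.2.2.imp (fun k e => k (near_tr hc e)) fun ⟨s, P1, k1, k2, k3, k4⟩ =>
    ⟨s, W.tr c P1, tr_mono c k1, comp_tr hc k2, fun e => k3 (near_tr hc e),
      tr_fr (Γ := Γ) c P1 ▸ k4.tr c⟩

theorem Rt.of (h : R x y) : Rt Γ C X R t x y := .rel _ _ (Or.inl h)

theorem Rt.tie (hx : x ∈ X) (hy : y ∈ X) (h1 : Tie Γ C X R t x P) (h2 : Tie Γ C X R t y P) :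
    Rt Γ C X R t x y := .rel _ _ (Or.inr ⟨hx, hy, P, h1, h2⟩)

omit [Group G] in
theorem eqv_mono (hR : ∀ x y, R x y → R' x y) (h : Relation.EqvGen R x y) :
    Relation.EqvGen R' x y := by
  induction h with
  | rel x y k => exact .rel _ _ (hR _ _ k)
  | refl x => exact .refl _
  | symm x y _ ih => exact .symm _ _ ih
  | trans x y z _ _ ih ih' => exact .trans _ _ _ ih ih'

theorem Rt.mono (hR : ∀ x y, R x y → R' x y) (h : Rt Γ C X R t x y) : Rt Γ C X R' t x y :=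
  eqv_mono (fun _ _ k => k.imp (hR _ _) fun ⟨k1, k2, P, k3, k4⟩ =>
    ⟨k1, k2, P, k3.mono hR, k4.mono hR⟩) h

theorem comp_up (hts : t ≤ s) (hP : Γ.Comp (Γ.N s D) P) : ∃ Q, Γ.Comp (Γ.N t D) Q ∧ P ⊆ Q :=
  comp_ex hP fun _ hp e => hP.out hp (N_mono hts subset_rfl e)

theorem Rt.anti (hX : Γ.fr X ⊆ Γ.N t C) (hts : t ≤ s) (h : Rt Γ C X R s x y) : Rt Γ C X R t x y :=
  eqv_mono (fun _ _ k => k.imp id fun ⟨k1, k2, P, k3, k4⟩ => by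
    obtain ⟨Q, h1, h2⟩ := comp_up hts k3.1
    exact ⟨k1, k2, Q, k3.up hX h1 h2, k4.up hX h1 h2⟩) h

theorem br_rt (h : Sys C X) (B : Br C X R) (t : ℕ) : Br C X (Rt Γ C X R t) := by
  refine ⟨Relation.EqvGen.is_equivalence _, fun c hc x y k => ?_,
    fun x hx y hy => .of (B.xb x hx y hy), fun x y k => ?_⟩
  · induction k with
    | rel x y k =>
      exact k.elim (fun k => .of (B.hl c hc _ _ k)) fun ⟨k1, k2, P, k3, k4⟩ =>
        .tie (h.left c hc _ k1) (h.left c hc _ k2) (k3.tr h B hc) (k4.tr h B hc)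
    | refl x => exact .refl _
    | symm x y _ ih => exact .symm _ _ ih
    | trans x y z _ _ ih ih' => exact .trans _ _ _ ih ih'
  · suffices e : x ∈ X ↔ y ∈ X from e.mp
    induction k with
    | rel x y k =>
      exact k.elim (fun k => ⟨B.resp _ _ k, B.resp _ _ (B.eqv.symm k)⟩) fun k =>
        ⟨fun _ => k.2.1, fun _ => k.1⟩
    | refl x => rfl
    | symm x y _ ih => exact ih.symm
    | trans x y z _ _ ih ih' => exact ih.trans ih'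

theorem cl_top (h : Sys C X) : Cl Γ C X t0 fun x y => (x ∈ X ↔ y ∈ X) := by
  have B : Br C X fun x y => (x ∈ X ↔ y ∈ X) :=
    ⟨⟨fun _ => Iff.rfl, Iff.symm, Iff.trans⟩, fun c hc x y k => by rwa [h.left_iff hc, h.left_iff hc],
      fun x hx y hy => ⟨fun _ => xb_sub h hx hy, fun _ => hx⟩, fun _ _ k => k.mp⟩
  refine ⟨B, fun x hx y hy _ => ⟨fun _ => hy, fun _ => hx⟩, fun x y k => ?_⟩
  have B' := br_rt (Γ := Γ) h B t0
  exact ⟨B'.resp _ _ (k t0 le_rfl), B'.resp _ _ (B'.eqv.symm (k t0 le_rfl))⟩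

theorem cl_R0 (h : Sys C X) : Cl Γ C X t0 (R0 Γ C X t0) :=
  ⟨⟨⟨fun x _ k => k.br.eqv.refl x, fun e R k => k.br.eqv.symm (e R k),
      fun e e' R k => k.br.eqv.trans (e R k) (e' R k)⟩,
    fun c hc x y e R k => k.br.hl c hc x y (e R k), fun x hx y hy _ k => k.br.xb x hx y hy,
    fun _ _ e => (e _ (cl_top h)).mp⟩,
  fun x hx y hy e R k => k.r1 x hx y hy fun e' => e (end_mono e'
    (Near.of_subset (cls_mono (fun _ _ e => e R k) y)) (Near.refl _)),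
  fun x y e R k => k.r5 x y fun t ht => (e t ht).mono fun _ _ e => e R k⟩

theorem tie_ray (h : Sys C X) (B : Br C X R) (hX : Γ.fr X ⊆ Γ.N t C) (hz : z ∈ cls X R x)
    (hρ : Ray Γ C X l z ρ) (hP : Γ.Comp (Γ.N t C) P) (hT : T ρ P) : Tie Γ C X R t x P := by
  obtain ⟨i, hi⟩ := hT.exists
  exact ⟨hP, comp_side hX hP hi (xb_sub h hz.1 (hρ.mem i)), Or.inl
    (hρ.deep h (tb_base h) hT (Set.inter_subset_inter_left _ (xb_cls h B hz)))⟩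

/-- A far point is tied to its component. -/
theorem tie_far (h : Sys C X) (hX : Γ.fr X ⊆ Γ.N t C) : ∃ k, ∀ R, Br C X R → ∀ x, ∀ z ∈ cls X R x,
    ∀ P, Γ.Comp (Γ.N t C) P → z ∈ P → z ∉ Γ.N k C → Tie Γ C X R t x P := by
  obtain ⟨l, hl⟩ := exists_ray h Γ
  obtain ⟨k, hk⟩ := spec (Γ := Γ) h (tb_base h) l t
  refine ⟨k, fun R B x z hz P hP hzP hn => ?_⟩
  obtain ⟨ρ, hρ⟩ := hl z hz.1
  obtain ⟨Q, h1, h2, -, h3⟩ := hk z ρ hρ
  exact tie_ray h B hX hz hρ hP (h1.disj hP (h3 hn) hzP ▸ h2)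

/-- The corner argument. -/
theorem corner (h : Sys C X) (B : Br C X R) (hX : Γ.fr X ⊆ Γ.N t C) (hx : x ∈ X) (hz : z ∈ X)
    (hn : ¬ Rt Γ C X R t x z) (hρ : Ray Γ C X l z ρ) (hQ : Γ.Comp (Γ.N u (tr x C)) Q)
    (hT : T ρ Q) : ¬ Γ.Near (C ∩ Q) (tr x C) := by
  intro hc
  obtain ⟨P, h1, h2⟩ := hρ.comp h (tb_base h) t
  have tz := tie_ray h B hX (self_cls B hz) hρ h1 h2
  have hxC : tr x C ⊆ cls X R x := (coset_xb x).trans (xb_cls h B (self_cls B hx))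
  refine hn (.tie hx hz ⟨h1, tz.2.1, or_iff_not_imp_left.mpr fun e => ?_⟩ tz)
  obtain ⟨r, hr⟩ := not_not.mp e
  obtain ⟨P1, h3, h4⟩ := hρ.comp h (tb_base h) (t + 1 + r + u)
  obtain ⟨i, hi, hi'⟩ := h4.ex h2
  obtain ⟨j, hj, hj'⟩ := h4.ex hT
  have s1 : P1 ⊆ P := comp_sub h3 (fun p hp e => h3.out hp (N_mono (by omega) subset_rfl e)) h1 hi hi'
  have s2 : P1 ⊆ Q := by
    refine comp_sub h3 ?_ hQ hj hj'
    rintro p hp ⟨b, hb, hd⟩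
    exact h3.out hp (N_mono (by omega) subset_rfl (mem_N_of_d (hr ⟨hxC hb, ball_comp h1 (s1 hp)
      (fun e => h3.out hp (N_mono (by omega) subset_rfl e)) hd⟩) hd))
  refine ⟨_, P1, s1, h3, hρ.deep h (tb_base h) h4 Set.inter_subset_right,
    Near.trans ?_ (Near.of_subset hxC)⟩
  refine Near.trans (B := (C ∩ Q) ∪ Γ.fr Q) ⟨t + 1 + r + u + 1, fun p hp => ?_⟩
    (hc.union ⟨_, fr_comp hQ⟩)
  obtain ⟨c, hcC, hd⟩ := fr_comp h3 hp
  by_cases hcQ : c ∈ Q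
  · exact ⟨c, Or.inl ⟨hcC, hcQ⟩, hd⟩
  · exact N_mono le_rfl Set.subset_union_right (N_inter_subset _ Q
      ⟨N_mono (by omega) s2 (fr_subset P1 hp), c, hcQ, hd⟩)

theorem dd_rt (h : Sys C X) (B : Br C X R) (hX : Γ.fr X ⊆ Γ.N t C) :
    DD X (Rt Γ C X R t) (Rt Γ C X R t) := by
  intro x hx y hy hx' hxy e
  refine or_iff_not_imp_left.mpr fun hn => ?_
  obtain ⟨l, hl⟩ := exists_ray h Γ
  obtain ⟨ρ, hρ⟩ := hl y hy
  obtain ⟨Q, h1, h2⟩ := hρ.comp h (tb_coset h x) t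
  have h3 := corner h B hX hx hy hn hρ h1 h2
  have h4 : Γ.Comp (Γ.N t C) (tr x⁻¹ Q) := by
    have := h1.tr x⁻¹
    rwa [tr_N, tr_inv_tr] at this
  have h5 : ∀ A S : Set G, tr x⁻¹ A ⊆ S → ¬ Γ.Near (A ∩ Q) (tr x C) →
      ¬ Γ.Near (S ∩ tr x⁻¹ Q) C := fun A S hA hn e => hn (by
    refine Near.trans (Near.of_subset fun p hp => ?_) (e.tr x)
    exact ⟨hA (by simpa using hp.1), by simpa using hp.2⟩)
  have h6 := h5 C _ ((coset_xb _).trans (xb_cls h B (self_cls B hx'))) h3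
  have h7 : tr x⁻¹ (Xb C X y) ⊆ Xb C X (x⁻¹ * y) := by
    have : far C X (x⁻¹ * y) = far C X y := by
      ext z
      simp only [far, Set.mem_ofPred_eq, mul_inv_rev, inv_inv, e]
    rw [Xb, Xb, tr_tr, this]
  have h8 := h5 _ _ (h7.trans (xb_cls h B (self_cls B hxy)))
    (hρ.deep h (tb_coset h x) h2 subset_rfl)
  obtain ⟨p, hp⟩ : (cls X R x⁻¹ ∩ tr x⁻¹ Q).Nonempty :=
    Set.nonempty_iff_ne_empty.mpr fun e => h6 (e ▸ Near.of_subset (Set.empty_subset _))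
  have h9 := comp_side hX h4 hp.2 hp.1.1
  exact .tie hx' hxy ⟨h4, h9, Or.inl h6⟩ ⟨h4, h9, Or.inl h8⟩

theorem loc_rt (h : Sys C X) (B : Br C X R) (hX : Γ.fr X ⊆ Γ.N t C) (r : ℕ) :
    ∃ k, ∀ p ∈ X, ∀ q, Γ.d p q ≤ r → p ∉ Γ.N k C → q ∈ X ∧ Rt Γ C X R t p q := by
  obtain ⟨k, hk⟩ := tie_far h hX
  refine ⟨t + k + r, fun p hp q hd hn => ?_⟩
  have h1 : Γ.Comp (Γ.N t C) {z | Γ.Conn (Γ.N t C) p z} :=
    ⟨p, fun e => hn (N_mono (by omega) subset_rfl e), rfl⟩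
  have h2 : Γ.Conn (Γ.N t C) p q :=
    conn_of_d (fun e => hn (N_mono (by omega) subset_rfl (N_N subset_rfl e))) hd
  have h3 := hk R B p p (self_cls B hp) _ h1 (Conn.refl _ _)
    fun e => hn (N_mono (by omega) subset_rfl e)
  have hq := h3.2.1 h2
  exact ⟨hq, .tie hp hq h3 (hk R B q q (self_cls B hq) _ h1 h2 fun e =>
    hn (N_mono (by omega) subset_rfl (mem_N_of_d e (by rwa [d_comm] : Γ.d q p ≤ r))))⟩

theorem d3_rt (h : Sys C X) (B : Br C X R) (hX : Γ.fr X ⊆ Γ.N t C) : D3 C X (Rt Γ C X R t) := by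
  intro y
  obtain ⟨k, hk⟩ := loc_rt h B hX (Γ.d 1 y)
  refine ((Gen.ball_finite (Γ := Γ) 1 k).image fun x : G => ((x⁻¹ : G) : G ⧸ C)).subset ?_
  rintro _ ⟨x, rfl, hx, -, hn⟩
  obtain ⟨c, hc, hd⟩ : x⁻¹ ∈ Γ.N k C :=
    by_contra fun e => hn (hk _ hx _ (d_mul_right _ _).le e).2
  exact ⟨c⁻¹ * x⁻¹, by rwa [d_eq] at hd, QuotientGroup.eq.mpr (by simpa using hc)⟩

theorem near_blk (h : Sys C X) (B : Br C X R) (h1 : Γ.Near A (cls X R x)) (h2 : Γ.Near A C) :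
    Γ.Near A (blk C (cls X R x)) := by
  obtain ⟨a, ha⟩ := h1
  obtain ⟨b, hb⟩ := h2
  refine Near.trans (B := cls X R x ∩ Γ.N (b + a) C) ⟨a, fun p hp => ?_⟩
    (near_of_stab (J := C) ⟨_, Set.inter_subset_right⟩ fun c hc z hz hcz =>
      h.mem_blk B.eqv B.hl hc hz.1 hcz.1.2)
  obtain ⟨z, hz, hd⟩ := ha hp
  exact ⟨z, ⟨hz, mem_N_of_d (hb hp) (by rwa [d_comm])⟩, hd⟩

theorem frb_rt (h : Sys C X) (B : Br C X R) (hX : Γ.fr X ⊆ Γ.N t C) (z : G) :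
    Γ.Near (Γ.fr (cls X (Rt Γ C X R t) z)) (blk C (cls X (Rt Γ C X R t) z)) := by
  obtain ⟨k, hk⟩ := loc_rt h B hX 1
  have B' := br_rt (Γ := Γ) h B t
  refine near_blk h B' ⟨1, fr_subset _⟩ (Near.trans ⟨1, fr_subset_inner _⟩ ⟨k, ?_⟩)
  rintro p ⟨hp, q, hd, hn⟩
  by_contra e
  obtain ⟨h1, h2⟩ := hk p hp.1 q hd e
  exact hn ⟨fun _ => ⟨h1, B'.eqv.trans hp.2 h2⟩, fun _ => hp⟩

theorem ex_level (K : Cl Γ C X t0 R) (hn : ¬ R x y) : ∃ t, t0 ≤ t ∧ ¬ Rt Γ C X R t x y := by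
  by_contra e
  exact hn (K.r5 x y fun t ht => by_contra fun e' => e ⟨t, ht, e'⟩)

theorem p4 (h : Sys C X) (K : Cl Γ C X t0 R) (hX : Γ.fr X ⊆ Γ.N t0 C) (hx : x ∈ X)
    (he : End1 Γ (tr x C) Xᶜ) : End1 Γ (tr x C) (cls X R x)ᶜ := fun u => by
  obtain ⟨Q, h1, a, ha⟩ := he u
  obtain ⟨l, hl⟩ := exists_ray h Γ
  obtain ⟨k, hk⟩ := spec (Γ := Γ) h (tb_coset h x) l u
  refine ⟨Q, h1, a + k, fun z hz => ?_⟩
  by_cases hzX : z ∈ X
  · obtain ⟨t, ht, hn⟩ := ex_level K fun e => hz ⟨hzX, e⟩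
    obtain ⟨ρ, hρ⟩ := hl z hzX
    obtain ⟨Q', h2, h3, h4, -⟩ := hk z ρ hρ
    have h5 := corner h K.br (hX.trans (N_mono ht subset_rfl)) hx hzX hn hρ h2 h3
    obtain ⟨c, hc, hc'⟩ := Set.not_subset.mp fun e => h5 ⟨u + 1 + a, e⟩
    rw [h1.disj h2 (mem_of_N h1 (ha fun e => h.disj c e hc.1) hc') hc.2]
    exact N_mono (by omega) subset_rfl h4
  · exact N_mono (by omega) subset_rfl (ha hzX)

end Pool.Agent.Lib.MP_d98eb9_al.W.J.PartP
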