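import Pool.Agent.Lib.MP_d98eb9_al.J.St

/-! Rays that leave the base edge, and the components that contain their tails. -/

namespace Pool.Agent.Lib.MP_d98eb9_al.W.J.PartP

open Gen Filter SysA

variable {G : Type} [Group G] {Γ : Gen G} {C : Subgroup G} {X D Y P Q A : Set G} {x y z p q c : G}
  {l r s t u : ℕ} {ρ : ℕ → G}

theorem self_xb (x : G) : x ∈ Xb C X x := Or.inl (by simp)

theorem coset_xb (x : G) : tr x C ⊆ Xb C X x := fun _ hp => Or.inl hp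

theorem xb_sub (h : Sys C X) (hx : x ∈ X) (hp : p ∈ Xb C X x) : p ∈ X := by
  rcases hp with k | k
  · simpa using h.right _ k x hx
  · simpa using h.far_mem hx k

theorem xb_xb (h : Sys C X) (hx : x ∉ C) (hp : p ∈ Xb C X x) : Xb C X p ⊆ Xb C X x := by
  intro q hq
  rcases hp with k | k
  · have e : far C X p = far C X x := by simpa using h.far_right (x := x) k
    have e2 : x⁻¹ * q = (x⁻¹ * p) * (p⁻¹ * q) := by group
    rcases hq with m | m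
    · exact Or.inl (e2 ▸ C.mul_mem k m)
    · rw [e] at m
      refine Or.inr ?_
      rw [e2]
      exact ⟨fun n => m.1 ((C.mul_mem_cancel_left k).mp n), by rw [h.left_iff k]; exact m.2⟩
  · have e2 : x⁻¹ * q = (x⁻¹ * p) * (p⁻¹ * q) := by group
    refine Or.inr ?_
    rw [e2]
    rcases hq with m | m
    · exact ⟨fun n => k.1 ((C.mul_mem_cancel_right m).mp n), by rw [h.right_iff m]; exact k.2⟩
    · exact h.far_far hx k (by simpa using m)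

theorem xb_left (h : Sys C X) (hc : c ∈ C) (x : G) : Xb C X (c * x) = tr c (Xb C X x) := by
  have e : far C X (c * x) = far C X x := by
    ext z
    simp only [far, Set.mem_ofPred_eq, mul_inv_rev, h.right_iff (C.inv_mem hc)]
  rw [Xb, Xb, tr_tr, e]

theorem nn_tri (h : Sys C X) (a b : G) : nn C X (a * b) ≤ nn C X a + nn C X b + 1 := by
  have e1 := card_S2 (C := C) (X := X) (a := 1) (b := a * b)
  have e2 := card_S2 (C := C) (X := X) (a := 1) (b := a)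
  have e3 := card_S2 (C := C) (X := X) (a := a) (b := a * b)
  simp only [inv_one, one_mul, inv_mul_cancel_left] at e1 e2 e3
  rw [← e1, ← e2, ← e3]
  have hf := (fin_S2 h 1 a).union (fin_S2 h a (a * b))
  refine (Set.ncard_le_ncard (t := insert (a : G ⧸ C) (S2 C X 1 a ∪ S2 C X a (a * b))) ?_
    (hf.insert _)).trans ((Set.ncard_insert_le _ _).trans
      (Nat.succ_le_succ (Set.ncard_union_le _ _)))
  rintro _ ⟨w, rfl, h1, h2, h3⟩
  by_cases k : w⁻¹ * a ∈ C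
  · exact Or.inl (QuotientGroup.eq.mpr k)
  by_cases k2 : w⁻¹ * 1 ∈ X ↔ w⁻¹ * a ∈ X
  · exact Or.inr (Or.inr ⟨w, rfl, k, h2, fun e => h3 (k2.trans e)⟩)
  · exact Or.inr (Or.inl ⟨w, rfl, h1, k, k2⟩)

theorem tb_N (h : Sys C X) (hD : TB C X D) (r : ℕ) : TB C X (Γ.N r D) := by
  obtain ⟨L, hL⟩ := hD
  obtain ⟨j, hj⟩ := ((Gen.ball_finite (Γ := Γ) 1 r).image (nn C X)).bddAbove
  refine ⟨L + j + 1, fun p ⟨a, ha, hd⟩ => ?_⟩
  have h1 := nn_tri h a (a⁻¹ * p)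
  have h2 : nn C X (a⁻¹ * p) ≤ j := hj ⟨_, by rwa [d_eq] at hd, rfl⟩
  have h3 := hL a ha
  rw [mul_inv_cancel_left] at h1
  omega

theorem tb_coset (h : Sys C X) (y : G) : TB C X (tr y C) :=
  ⟨nn C X y, fun a ha => by simpa using (h.nn_right (c := y⁻¹ * a) ha y).le⟩

theorem tb_base (h : Sys C X) : TB C X C := by simpa using tb_coset h 1

/-- A sequence with bounded steps that walks away from the base edge. -/
structure Ray (Γ : Gen G) (C : Subgroup G) (X : Set G) (l : ℕ) (p : G) (ρ : ℕ → G) : Prop where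
  zero : ρ 0 = p
  step : ∀ i, Γ.d (ρ i) (ρ (i + 1)) ≤ l
  mem : ∀ i, ρ i ∈ Xb C X p
  far : ∀ i, i ≤ nn C X (ρ i)

theorem exists_ray (h : Sys C X) (Γ : Gen G) : ∃ l, ∀ p ∈ X, ∃ ρ, Ray Γ C X l p ρ := by
  obtain ⟨a, ha⟩ := h.ne
  obtain ⟨b, hb⟩ := h.ne'
  have k : ∀ p : G, ∃ z, Γ.d 1 z ≤ Γ.d 1 a + Γ.d 1 b ∧ (p ∈ X → z ∈ far C X p) := fun p => by
    by_cases hp : p ∈ X
    · rcases far_eq (h.disj p hp) h.disj with e | e
      · exact ⟨a, by omega, fun _ => e.ge ha⟩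
      · exact ⟨b, by omega, fun _ => e.ge hb⟩
    · exact ⟨a, by omega, fun e => absurd e hp⟩
  choose f f1 f2 using k
  refine ⟨Γ.d 1 a + Γ.d 1 b, fun p hp => ?_⟩
  have key : ∀ i, (fun q => q * f q)^[i] p ∈ Xb C X p ∧ i ≤ nn C X ((fun q => q * f q)^[i] p) := by
    intro i
    induction i with
    | zero => exact ⟨self_xb p, Nat.zero_le _⟩
    | succ i ih =>
      rw [Function.iterate_succ_apply']
      set y := (fun q => q * f q)^[i] p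
      have hy := xb_sub h hp ih.1
      have hz := f2 y hy
      have h1 := h.nn_lt hz.1 (fun e => h.disj y hy (C.inv_mem_iff.mp e)) fun e => hz.2 e.symm
      rw [← mul_inv_rev, h.nn_inv, h.nn_inv] at h1
      exact ⟨xb_xb h (h.disj p hp) ih.1 (Or.inr (by simpa using hz)), by omega⟩
  refine ⟨fun i => (fun q => q * f q)^[i] p, rfl, fun i => ?_, fun i => (key i).1,
    fun i => (key i).2⟩
  rw [Function.iterate_succ_apply', d_mul_right]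
  exact f1 _

/-- The tail of the sequence lies in `Q`. -/
def T (ρ : ℕ → G) (Q : Set G) : Prop := ∀ᶠ i in atTop, ρ i ∈ Q

omit [Group G] in
theorem T.ex (h : T ρ P) (h' : T ρ Q) : ∃ i, ρ i ∈ P ∧ ρ i ∈ Q := (h.and h').exists

theorem T.eq {Z : Set G} (h : T ρ P) (h' : T ρ Q) (hP : Γ.Comp Z P) (hQ : Γ.Comp Z Q) : P = Q := by
  obtain ⟨i, h1, h2⟩ := h.ex h'
  exact hP.disj hQ h1 h2

theorem Ray.out (h : Sys C X) (hD : TB C X D) (r : ℕ) :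
    ∃ L, ∀ p ρ, Ray Γ C X l p ρ → ∀ i, L ≤ i → ρ i ∉ Γ.N r D := by
  obtain ⟨L, hL⟩ := tb_N (Γ := Γ) h hD r
  exact ⟨L + 1, fun p ρ hρ i hi hm => by
    have := hL _ hm
    have := hρ.far i
    omega⟩

theorem Ray.tout (hρ : Ray Γ C X l p ρ) (h : Sys C X) (hD : TB C X D) (r : ℕ) :
    T ρ (Γ.N r D)ᶜ := by
  obtain ⟨L, hL⟩ := Ray.out (Γ := Γ) (l := l) h hD r
  exact eventually_atTop.mpr ⟨L, hL p ρ hρ⟩

theorem Ray.dist (hρ : Ray Γ C X l p ρ) (i : ℕ) : Γ.d p (ρ i) ≤ i * l := by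
  induction i with
  | zero => simp [hρ.zero]
  | succ i ih =>
    have := d_tri (Γ := Γ) p (ρ i) (ρ (i + 1))
    have := hρ.step i
    rw [Nat.succ_mul]
    omega

/-- The tail of a ray lies in one component, which is uniformly close to the origin of the ray. -/
theorem spec (h : Sys C X) (hD : TB C X D) (l s : ℕ) : ∃ k, ∀ p ρ, Ray Γ C X l p ρ →
    ∃ Q, Γ.Comp (Γ.N s D) Q ∧ T ρ Q ∧ p ∈ Γ.N k Q ∧ (p ∉ Γ.N k D → p ∈ Q) := by
  obtain ⟨L, hL⟩ := Ray.out (Γ := Γ) (l := l) h hD (s + l)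
  refine ⟨s + L * l, fun p ρ hρ => ⟨{q | Γ.Conn (Γ.N s D) (ρ L) q},
    ⟨ρ L, fun e => hL p ρ hρ L le_rfl (N_mono (by omega) subset_rfl e), rfl⟩,
    eventually_atTop.mpr ⟨L, fun i hi => ?_⟩, ⟨ρ L, Conn.refl _ _, ?_⟩, fun hp => ?_⟩⟩
  · induction i, hi using Nat.le_induction with
    | base => exact Conn.refl _ _
    | succ i hi ih =>
      exact Conn.trans ih (conn_of_d (fun e => hL p ρ hρ i hi (N_N subset_rfl e)) (hρ.step i))
  · rw [d_comm]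
    exact (hρ.dist L).trans (by omega)
  · exact (conn_of_d (fun e => hp (N_N subset_rfl e)) (hρ.dist L)).symm

theorem Ray.comp (hρ : Ray Γ C X l p ρ) (h : Sys C X) (hD : TB C X D) (s : ℕ) :
    ∃ Q, Γ.Comp (Γ.N s D) Q ∧ T ρ Q := by
  obtain ⟨k, hk⟩ := spec (Γ := Γ) h hD l s
  obtain ⟨Q, h1, h2, -⟩ := hk p ρ hρ
  exact ⟨Q, h1, h2⟩

theorem fr_comp (hQ : Γ.Comp (Γ.N s D) Q) : Γ.fr Q ⊆ Γ.N (s + 1) D :=
  hQ.fr_subset.trans (N_N subset_rfl)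

/-- A point near a component and far from `D` lies in the component. -/
theorem mem_of_N (hQ : Γ.Comp (Γ.N s D) Q) (hp : p ∈ Γ.N r Q) (hn : p ∉ Γ.N (s + 1 + r) D) :
    p ∈ Q :=
  by_contra fun e => hn (N_N (fr_comp hQ) (mem_N_fr' e hp))

theorem ball_comp (hQ : Γ.Comp (Γ.N s D) Q) (hp : p ∈ Q) (hn : p ∉ Γ.N (s + 1 + r) D)
    (hd : Γ.d q p ≤ r) : q ∈ Q :=
  by_contra fun e => hn (N_N (fr_comp hQ) (mem_N_fr hp ⟨q, e, hd⟩))

theorem Ray.tnear (hρ : Ray Γ C X l p ρ) (h : Sys C X) (hD : TB C X D) (hQ : Γ.Comp (Γ.N s D) Q)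
    (hn : Γ.Near (Xb C X p) Q) : T ρ Q := by
  obtain ⟨r, hr⟩ := hn
  exact (hρ.tout h hD (s + 1 + r)).mono fun i hi => mem_of_N hQ (hr (hρ.mem i)) hi

theorem Ray.deep (hρ : Ray Γ C X l p ρ) (h : Sys C X) (hD : TB C X D) (hP : T ρ P)
    (hA : Xb C X p ∩ P ⊆ A) : ¬ Γ.Near A D := fun ⟨r, hr⟩ => by
  obtain ⟨i, h1, h2⟩ := hP.ex (hρ.tout h hD r)
  exact h2 (hr (hA ⟨hρ.mem i, h1⟩))

/-- Uniformity. -/
theorem uni (h : Sys C X) (hD : TB C X D) (hQ : Γ.Comp (Γ.N s D) Q) (hY : Y ⊆ X)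
    (hn : ∀ p ∈ Y, Γ.Near (Xb C X p) Q) : Γ.Near Y Q := by
  obtain ⟨l, hl⟩ := exists_ray h Γ
  obtain ⟨k, hk⟩ := spec (Γ := Γ) h hD l s
  refine ⟨k, fun p hp => ?_⟩
  obtain ⟨ρ, hρ⟩ := hl p (hY hp)
  obtain ⟨Q', h1, h2, h3, -⟩ := hk p ρ hρ
  rwa [(hρ.tnear h hD hQ (hn p hp)).eq h2 hQ h1]

theorem uniq (h : Sys C X) (hD : TB C X D) (hx : x ∈ X) (hP : Γ.Comp (Γ.N s D) P)
    (hQ : Γ.Comp (Γ.N s D) Q) (h1 : Γ.Near (Xb C X x) P) (h2 : Γ.Near (Xb C X x) Q) : P = Q := by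
  obtain ⟨l, hl⟩ := exists_ray h Γ
  obtain ⟨ρ, hρ⟩ := hl x hx
  exact (hρ.tnear h hD hP h1).eq (hρ.tnear h hD hQ h2) hP hQ

/-- A component that misses `Z` lies in the component of each of its points. -/
theorem comp_sub {Z Z' : Set G} (hP : Γ.Comp Z' P) (hZ : ∀ a ∈ P, a ∉ Z) (hQ : Γ.Comp Z Q)
    (hp : p ∈ P) (hq : p ∈ Q) : P ⊆ Q := fun _ ha =>
  (hQ.eq hq).ge ((hP.conn hp ha).mono fun b hb hbP => hZ b hbP hb)

theorem comp_ex {Z Z' : Set G} (hP : Γ.Comp Z' P) (hZ : ∀ a ∈ P, a ∉ Z) :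
    ∃ Q, Γ.Comp Z Q ∧ P ⊆ Q := by
  obtain ⟨p, hp⟩ := hP.ne
  exact ⟨_, ⟨p, hZ p hp, rfl⟩, comp_sub hP hZ ⟨p, hZ p hp, rfl⟩ hp (Conn.refl _ _)⟩

theorem end_mono {D' Y' : Set G} (h : End1 Γ D Y) (hD : Γ.Near D' D) (hY : Γ.Near Y' Y) :
    End1 Γ D' Y' := fun s => by
  obtain ⟨a, ha⟩ := hD
  obtain ⟨P, h1, h2⟩ := h (a + s)
  obtain ⟨Q, h3, h4⟩ := comp_ex h1 fun p hp e => h1.out hp (N_N (s := s) ha e)
  exact ⟨Q, h3, hY.trans (h2.trans (Near.of_subset h4))⟩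

theorem end_tr (h : End1 Γ D Y) (g : G) : End1 Γ (tr g D) (tr g Y) := fun s => by
  obtain ⟨P, h1, h2⟩ := h s
  exact ⟨tr g P, tr_N (Γ := Γ) g s D ▸ h1.tr g, h2.tr g⟩

theorem comp_side (hX : Γ.fr X ⊆ Γ.N t C) (hP : Γ.Comp (Γ.N t C) P) (hp : p ∈ P) (hpX : p ∈ X) :
    P ⊆ X := fun _ hq => Conn.mem ((hP.eq hp).le hq) (fun _ hx => hX hx.2) hpX

theorem comp_tr (hc : c ∈ C) (hP : Γ.Comp (Γ.N t C) P) : Γ.Comp (Γ.N t C) (tr c P) := by
  have := hP.tr c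
  rwa [tr_N, tr_subgroup hc] at this

theorem near_tr (hc : c ∈ C) (hn : Γ.Near (tr c A) C) : Γ.Near A C := by
  have := hn.tr c⁻¹
  rwa [tr_inv_tr, tr_subgroup (C.inv_mem hc)] at this

/-- The separation lemma. -/
theorem sep_end (he : End1 Γ D A) (hQ : Γ.Comp (Γ.N u D) Q) (hn : ¬ Γ.Near A Q)
    (hY : Γ.Near Y Q) : End1 Γ Y A := fun s => by
  obtain ⟨a, ha⟩ := hY
  obtain ⟨P, h1, h2⟩ := he (u + 1 + (a + s))
  obtain ⟨P', h3, h4⟩ := comp_ex h1 fun p hp e =>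
    h1.out hp (N_mono (r := u) (by omega) subset_rfl e)
  obtain ⟨Q', h5, h6⟩ := comp_ex (Z := Γ.N s Y) h1 fun p hp e => hn (by
    rw [hQ.disj h3 (mem_of_N hQ (N_N ha e) (h1.out hp)) (h4 hp)]
    exact h2.trans (Near.of_subset h4))
  exact ⟨Q', h5, h2.trans (Near.of_subset h6)⟩

end Pool.Agent.Lib.MP_d98eb9_al.W.J.PartP
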