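import Pool.Agent.Lib.MP_d98eb9_al.W.Main

/-! Filtered unfoldings: definitions and the statements of the blocks. -/

namespace Pool.Agent.Lib.MP_d98eb9_al.W.J

open Pool.Agent.Lib.MP_1d6a3f_al

variable {G : Type} [Group G]

/-- One of the four corners is empty. -/
def Nest (A B : Set G) : Prop := A ⊆ B ∨ A ⊆ Bᶜ ∨ Aᶜ ⊆ B ∨ Aᶜ ⊆ Bᶜ

/-- `K` fixes an end of the pair `(G, K)`. -/
def FixE (Γ : Gen G) (K : Subgroup G) : Prop :=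
  ∃ P : ℕ → Set G, ∀ r, Γ.Comp (Γ.N r K) (P r) ∧ P (r + 1) ⊆ P r ∧ ∀ k ∈ K, tr k (P r) = P r

/-- Finitely generated subgroups that fix an end are of type `FP_2`. -/
def S1 (Γ : Gen G) : Prop := ∀ K : Subgroup G, K.FG → FixE Γ K → IsFP2 K

/-- The goal. -/
def Done (G : Type) [Group G] : Prop := ∃ S : Subgroup G, IsPD 2 S ∧ SplitsOver S

/-- The closed far side of the edge `xC`, seen from the base edge. -/
def Xb (C : Subgroup G) (X : Set G) (x : G) : Set G := tr x ((C : Set G) ∪ far C X x)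

/-- Bounded in the tree. -/
def TB (C : Subgroup G) (X : Set G) (A : Set G) : Prop := ∃ L, ∀ a ∈ A, nn C X a ≤ L

/-- `Y` lies in one end of `D`. -/
def End1 (Γ : Gen G) (D Y : Set G) : Prop := ∀ s, ∃ P, Γ.Comp (Γ.N s D) P ∧ Γ.Near Y P

/-- The far side of `yC` is not in one end of the base edge. -/
def DSep (Γ : Gen G) (C : Subgroup G) (X : Set G) (y : G) : Prop :=
  y ∉ C ∧ ¬ End1 Γ C (Xb C X y)

/-- A class inside `X`. -/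
def cls (X : Set G) (R : G → G → Prop) (y : G) : Set G := {x | x ∈ X ∧ R y x}

/-- Invariant equivalence relations whose classes in `X` are unions of branches. -/
structure Br (C : Subgroup G) (X : Set G) (R : G → G → Prop) : Prop where
  eqv : Equivalence R
  hl : ∀ c ∈ C, ∀ x y, R x y → R (c * x) (c * y)
  xb : ∀ x ∈ X, ∀ y ∈ Xb C X x, R x y
  resp : ∀ x y, R x y → x ∈ X → y ∈ X

/-- The pretree condition for two relations. -/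
def DD (X : Set G) (R R' : G → G → Prop) : Prop :=
  ∀ x ∈ X, ∀ y ∈ X, x⁻¹ ∈ X → x⁻¹ * y ∈ X → (y⁻¹ ∈ X ↔ y⁻¹ * x ∈ X) → R x y ∨ R' x⁻¹ (x⁻¹ * y)

/-- The finiteness condition. -/
def D3 (C : Subgroup G) (X : Set G) (R : G → G → Prop) : Prop :=
  ∀ y, {q : G ⧸ C | ∃ x : G, (x : G ⧸ C) = q ∧ x⁻¹ ∈ X ∧ x⁻¹ * y ∈ X ∧ ¬ R x⁻¹ (x⁻¹ * y)}.Finite

/-- The frontier of `P` is near `D` and near a group that fixes an end of `D` outside `P`. -/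
def Pocket (Γ : Gen G) (C : Subgroup G) (X D P : Set G) : Prop :=
  Γ.Near (Γ.fr P) D ∧ ∃ (K : Subgroup G) (Y Q : Set G) (r : ℕ), Γ.Near (Γ.fr P) K ∧
    (∀ k ∈ K, tr k Y = Y) ∧ End1 Γ D Y ∧ ¬ TB C X Y ∧ Γ.Comp (Γ.N r D) Q ∧ Γ.Near Y Q ∧
    Disjoint P Q

/-- A partition of the branches with its levels. -/
structure Part (Γ : Gen G) (C : Subgroup G) (X : Set G) (R : G → G → Prop)
    (L : ℕ → G → G → Prop) : Prop where
  br : Br C X R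
  brL : ∀ t, Br C X (L t)
  anti : ∀ t t2, t ≤ t2 → ∀ x y, L t2 x y → L t x y
  meet : ∀ x y, R x y ↔ ∀ t, L t x y
  dd : ∀ t, DD X (L t) (L t)
  d3 : ∀ t, D3 C X (L t)
  frb : ∀ t z, Γ.Near (Γ.fr (cls X (L t) z)) (blk C (cls X (L t) z))
  p12 : ∀ x ∈ X, ∀ g ∈ X, ¬ R x g → ∀ D, TB C X D → Γ.Near D (cls X R g) →
    End1 Γ D (cls X R x)
  p3 : ∀ x ∈ X, ∀ y, y ∉ X → (∀ z ∈ X, End1 Γ (tr y C) (Xb C X z)) →
    (∀ s P, Γ.Comp (Γ.N s C) P → P ⊆ X → ¬ Γ.Near P C → ¬ Pocket Γ C X (tr y C) P) →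
    End1 Γ (tr y C) (cls X R x)
  p4 : ∀ w ∈ X, End1 Γ (tr w C) Xᶜ → End1 Γ (tr w C) (cls X R w)ᶜ

/-- Block PART: the partition exists. -/
def PART (Γ : Gen G) : Prop :=
  ∀ (C : Subgroup G) (X : Set G), Sys C X → ∃ R L, Part Γ C X R L

/-- Block TRK: finitely many tracks through an edge. -/
def TRK (Γ : Gen G) : Prop :=
  Γ.LP0 → ∀ (κ : ℕ) (ZZ : Set (Set G)), (∀ g, ∀ Z ∈ ZZ, tr g Z ∈ ZZ) →
    (∀ Z ∈ ZZ, ∀ Z' ∈ ZZ, Nest Z Z') → (∀ Z ∈ ZZ, Γ.Near (Γ.fr Z) (blk ⊤ Z)) →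
    ∀ p q, Γ.d p q ≤ 1 → ∃ F : Set (Set G), F.Finite ∧ ∀ Z ∈ ZZ, p ∈ Z → q ∉ Z →
      ∃ A ∈ F, p ∈ A ∧ q ∉ A ∧ (∀ a b, Γ.d a b ≤ κ → a ∈ A → b ∉ A → a ∈ Z ∧ b ∉ Z) ∧
        (blk ⊤ A).FG ∧ Γ.Near (Γ.fr A) (blk ⊤ A) ∧ ∀ g, Nest A (tr g A)

/-- Block NEST: a set that is nested with its translates gives a splitting. -/
def NEST (Γ : Gen G) : Prop :=
  ∀ Z : Set G, (∀ g, Nest Z (tr g Z)) → Γ.Near (Γ.fr Z) (blk ⊤ Z) →
    (∀ ρ, ∃ p, ∀ q, Γ.d p q ≤ ρ → q ∈ Z) → (∀ ρ, ∃ p, ∀ q, Γ.d p q ≤ ρ → q ∉ Z) →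
    ∃ X', Sys (blk ⊤ Z) X'

/-- Block NST: classes are nested. -/
def NST (G : Type) [Group G] : Prop :=
  ∀ (C : Subgroup G) (X : Set G) (R R' : G → G → Prop), Sys C X → Br C X R → Br C X R' →
    DD X R R' → ∀ g z z', g ∉ C →
      (g ∉ cls X R z → g⁻¹ ∉ cls X R' z' → Disjoint (cls X R z) (tr g (cls X R' z'))) ∧
      (g ∈ cls X R z → g⁻¹ ∉ cls X R' z' → tr g (cls X R' z') ⊆ cls X R z) ∧
      (g ∉ cls X R z → g⁻¹ ∈ cls X R' z' → cls X R z ⊆ tr g (cls X R' z')) ∧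
      (g ∈ cls X R z → g⁻¹ ∈ cls X R' z' → (cls X R z)ᶜ ⊆ tr g (cls X R' z'))

/-- Block LIM: the limit over all levels. -/
def LIM (Γ : Gen G) : Prop :=
  ∀ (C : Subgroup G) (X : Set G) (R : G → G → Prop) (L : ℕ → G → G → Prop), Sys C X →
    Part Γ C X R L → D3 C X R ∨ Done G

/-- Block HON: an honest half-space opposite to a fixed end. -/
def HON (Γ : Gen G) : Prop :=
  ∀ (S : Subgroup G) (P : Set G), S.FG → (∀ K : Subgroup G, K ≤ S → K.FG → IsFP2 K) →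
    Γ.Near (Γ.fr P) S → ¬ Γ.Near P S →
    (∀ r, ∃ Q, Γ.Comp (Γ.N r S) Q ∧ (∀ k ∈ S, tr k Q = Q) ∧ ¬ Γ.Near Q P) →
    ∃ (U : Set G) (T : Subgroup G), T ≤ S ∧ Γ.HS U ∧ U ⊆ P ∧ (∀ k ∈ T, tr k U = U) ∧
      Γ.Near (Γ.fr U) T

/-- Block EXC: the exceptional case. -/
def EXC (Γ : Gen G) : Prop :=
  ∀ (C : Subgroup G) (X : Set G), Sys C X → ∀ y, (∀ z ∈ X, End1 Γ (tr y C) (Xb C X z)) →
    ∀ s P, Γ.Comp (Γ.N s C) P → P ⊆ X → ¬ Γ.Near P C → Pocket Γ C X (tr y C) P → Done G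

/-- Block INH: directed separation is inherited. -/
def INH (Γ : Gen G) : Prop :=
  ∀ (C : Subgroup G) (X : Set G) (R : G → G → Prop) (L : ℕ → G → G → Prop), Sys C X →
    Part Γ C X R L → ∀ x0 ∈ X, ∀ β, β = cls X R x0 → Sys (blk C β) β →
    ∀ y, DSep Γ (blk C β) β y →
      DSep Γ C X y ∧ (y⁻¹ ∈ X → y⁻¹ ∈ β) ∧ nn (blk C β) β y ≤ nn C X y

/-- Block IND: bounded directed separation. -/
def IND (Γ : Gen G) : Prop :=
  ∀ (j : ℕ) (C : Subgroup G) (X : Set G), Sys C X → (∀ y, DSep Γ C X y → nn C X y < j) → Done G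

/-- Block BFP: an elliptic group of type `FP_2` that contains the edge group. -/
def BFP (Γ : Gen G) : Prop :=
  ∀ (C A : Subgroup G) (X : Set G), Sys C X → C.FG → C ≤ A → A.FG → IsFP2 A → TB C X A →
    ∃ j, ∀ y, DSep Γ C X y → nn C X y < j

/-- Block BAC: acylindrical splittings. -/
def BAC (Γ : Gen G) : Prop :=
  ∀ (C : Subgroup G) (X : Set G) (k : ℕ), Sys C X → C.FG → OE C →
    (∀ y, k ≤ nn C X y → ∀ c ∈ C, y⁻¹ * c * y ∈ C → c = 1) →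
    ∃ j, ∀ y, DSep Γ C X y → nn C X y < j

end Pool.Agent.Lib.MP_d98eb9_al.W.J
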